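import Mathlib

/-!
The separable C*-algebra generated by a countable group of unitaries.
-/

set_option autoImplicit false

open scoped Topology

namespace Pool.Agent.W403.EP

theorem exists_alg {B : Type} [CStarAlgebra B] {G : Type} [Group G] [Countable G]
    (ρ : G →* unitary B) :
    ∃ (A : Type) (_ : CStarAlgebra A) (_ : TopologicalSpace.SeparableSpace A)
      (inc : A →⋆ₐ[ℂ] B) (v : G → A), Function.Injective inc ∧ (∀ g, inc (v g) = ρ g) ∧
      ∀ c : A, (∀ g, c * v g = v g * c) → ∀ a, c * a = a * c := by
  set S0 : StarSubalgebra ℂ B := StarAlgebra.adjoin ℂ (Set.range fun g => (ρ g : B)) with hS0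
  set P : Submodule ℂ B := Submodule.span ℂ (Set.range fun g => (ρ g : B)) with hP
  have hone : (1 : B) ∈ P := Submodule.subset_span ⟨1, by simp⟩
  have hmul : ∀ x ∈ P, ∀ y ∈ P, x * y ∈ P := by
    intro x hx y hy
    induction hx using Submodule.span_induction with
    | mem x hx =>
      obtain ⟨g, rfl⟩ := hx
      induction hy using Submodule.span_induction with
      | mem y hy =>
        obtain ⟨h, rfl⟩ := hy
        exact Submodule.subset_span ⟨g * h, by simp⟩
      | zero => rw [mul_zero]; exact zero_mem _
      | add a b _ _ ha hb => rw [mul_add]; exact add_mem ha hb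
      | smul r a _ ha => rw [mul_smul_comm]; exact Submodule.smul_mem _ _ ha
    | zero => rw [zero_mul]; exact zero_mem _
    | add a b _ _ ha hb => rw [add_mul]; exact add_mem ha hb
    | smul r a _ ha => rw [smul_mul_assoc]; exact Submodule.smul_mem _ _ ha
  have hstar : ∀ x ∈ P, star x ∈ P := by
    intro x hx
    induction hx using Submodule.span_induction with
    | mem x hx =>
      obtain ⟨g, rfl⟩ := hx
      refine Submodule.subset_span ⟨g⁻¹, ?_⟩
      simp only [map_inv]
      rfl
    | zero => rw [star_zero]; exact zero_mem _
    | add a b _ _ ha hb => rw [star_add]; exact add_mem ha hb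
    | smul r a _ ha => rw [star_smul]; exact Submodule.smul_mem _ _ ha
  have hSP : ∀ x ∈ S0, x ∈ P := by
    intro x hx
    induction hx using StarAlgebra.adjoin_induction with
    | mem x hx => exact Submodule.subset_span hx
    | algebraMap r =>
      rw [Algebra.algebraMap_eq_smul_one]
      exact Submodule.smul_mem _ _ hone
    | add x y _ _ hx hy => exact add_mem hx hy
    | mul x y _ _ hx hy => exact hmul _ hx _ hy
    | star x _ hx => exact hstar _ hx
  set S : StarSubalgebra ℂ B := S0.topologicalClosure with hS
  have hcl : IsClosed (S : Set B) := S0.isClosed_topologicalClosure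
  have hv : ∀ g, (ρ g : B) ∈ S := fun g =>
    StarSubalgebra.le_topologicalClosure _ (StarAlgebra.subset_adjoin ℂ _ ⟨g, rfl⟩)
  refine ⟨S, inferInstance, ?_, S.subtype, fun g => ⟨ρ g, hv g⟩, Subtype.val_injective,
    fun g => rfl, ?_⟩
  · have h1 : TopologicalSpace.IsSeparable (P : Set B) :=
      (Set.countable_range _).isSeparable.span (R := ℂ)
    have h2 : TopologicalSpace.IsSeparable (S : Set B) := by
      refine h1.closure.mono ?_
      exact closure_mono hSP
    exact h2.separableSpace
  · intro c hc a
    apply Subtype.ext
    show (c : B) * (a : B) = (a : B) * (c : B)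
    have ha : (a : B) ∈ closure (P : Set B) := closure_mono hSP a.2
    have hclosed : IsClosed {x : B | (c : B) * x = x * (c : B)} :=
      isClosed_eq (continuous_const.mul continuous_id) (continuous_id.mul continuous_const)
    have hsub : (P : Set B) ⊆ {x : B | (c : B) * x = x * (c : B)} := by
      intro x hx
      change x ∈ P at hx
      show (c : B) * x = x * (c : B)
      induction hx using Submodule.span_induction with
      | mem x hx =>
        obtain ⟨g, rfl⟩ := hx
        exact congrArg Subtype.val (hc g)
      | zero => rw [mul_zero, zero_mul]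
      | add a b _ _ ha hb => rw [mul_add, add_mul, ha, hb]
      | smul r a _ ha => rw [mul_smul_comm, smul_mul_assoc, ha]
    exact hclosed.closure_subset_iff.2 hsub ha

end Pool.Agent.W403.EP
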