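import Mathlib
import Pool.Agent.H197R3.EL
import Pool.Agent.H197R3.Kaz2

/-!
Strong property (T) for elementary groups `EL_3(R)`, `R` a finitely generated commutative algebra
over a finite field with at least 7 elements.
-/

set_option autoImplicit false
set_option linter.unusedSectionVars false
set_option linter.unusedSimpArgs false

namespace Pool.Agent.W403.EP

open Pool.Agent.H197R3
open scoped InnerProductSpace

section gen

variable (R : Type) [CommRing R]

/-- the elementary group `EL_3(R)` -/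
def EG : Subgroup (SL3 R) :=
  Subgroup.closure {g | ∃ (i j : Fin 3) (h : i ≠ j) (r : R), g = el h r}

variable {R}

lemma elR_mem {i j : Fin 3} (h : i ≠ j) (r : R) : el h r ∈ EG R :=
  Subgroup.subset_closure ⟨i, j, h, r, rfl⟩

/-- elementary element -/
def eG {i j : Fin 3} (h : i ≠ j) (r : R) : EG R := ⟨el h r, elR_mem h r⟩

lemma eG_add {i j : Fin 3} (h : i ≠ j) (r s : R) : eG h (r + s) = eG h r * eG h s :=
  Subtype.ext (el_add h r s)

lemma eG_zero {i j : Fin 3} (h : i ≠ j) : eG h (0 : R) = 1 := Subtype.ext (el_zero h)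

lemma eG_neg {i j : Fin 3} (h : i ≠ j) (r : R) : eG h (-r) = (eG h r)⁻¹ :=
  Subtype.ext (el_inv h r).symm

lemma eG_comm {i j l : Fin 3} (hij : i ≠ j) (hjl : j ≠ l) (hil : i ≠ l) (a b : R) :
    eG hij a * eG hjl b = eG hil (a * b) * (eG hjl b * eG hij a) :=
  Subtype.ext (el_comm hij hjl hil a b)

lemma eG_comm_left {i j l : Fin 3} (hij : i ≠ j) (hil : i ≠ l) (a b : R) :
    eG hil b * eG hij a = eG hij a * eG hil b := Subtype.ext (el_comm_left hij hil a b)

lemma eG_comm_right {i j l : Fin 3} (hjl : j ≠ l) (hil : i ≠ l) (a b : R) :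
    eG hil b * eG hjl a = eG hjl a * eG hil b := Subtype.ext (el_comm_right hjl hil a b)

/-- root subgroup homomorphism -/
def xG {α : Type} [AddCommGroup α] {i j : Fin 3} (h : i ≠ j) (ι : α →+ R) :
    Multiplicative α →* EG R where
  toFun a := eG h (ι a.toAdd)
  map_one' := by
    rw [toAdd_one, map_zero, eG_zero]
  map_mul' a b := by
    rw [toAdd_mul, map_add, eG_add]

lemma xG_apply {α : Type} [AddCommGroup α] {i j : Fin 3} (h : i ≠ j) (ι : α →+ R)
    (a : Multiplicative α) : xG h ι a = eG h (ι a.toAdd) := rfl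

lemma d01 : (0 : Fin 3) ≠ 1 := by decide
lemma d12 : (1 : Fin 3) ≠ 2 := by decide
lemma d20 : (2 : Fin 3) ≠ 0 := by decide
lemma d02 : (0 : Fin 3) ≠ 2 := by decide
lemma d10 : (1 : Fin 3) ≠ 0 := by decide
lemma d21 : (2 : Fin 3) ≠ 1 := by decide

variable {k : Type} [Field k] [Algebra k R] {W : Type} [AddCommGroup W] [Module k W]
  (ι : W →ₗ[k] R)

/-- the constants -/
def cst (k R : Type) [Field k] [CommRing R] [Algebra k R] : k →+ R :=
  (algebraMap k R).toAddMonoidHom

lemma cst_apply (a : k) : cst k R a = algebraMap k R a := rfl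

include ι in
/-- a subgroup containing the three small root subgroups is everything -/
lemma EG_gen (hgen : Algebra.adjoin k (Set.range ι) = ⊤) (h1 : (1 : R) ∈ Set.range ι)
    (H : Subgroup (EG R))
    (h01 : ∀ a : k, eG d01 (algebraMap k R a) ∈ H)
    (h12 : ∀ a : k, eG d12 (algebraMap k R a) ∈ H)
    (h20 : ∀ w : W, eG d20 (ι w) ∈ H) (g : EG R) : g ∈ H := by
  have hcomm : ∀ {i j l : Fin 3} (hij : i ≠ j) (hjl : j ≠ l) (hil : i ≠ l) (a b : R),
      eG hij a ∈ H → eG hjl b ∈ H → eG hil (a * b) ∈ H := by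
    intro i j l hij hjl hil a b ha hb
    have := eG_comm hij hjl hil a b
    have h2 : eG hil (a * b) = eG hij a * eG hjl b * (eG hjl b * eG hij a)⁻¹ := by
      rw [this]; group
    rw [h2]
    exact H.mul_mem (H.mul_mem ha hb) (H.inv_mem (H.mul_mem hb ha))
  have o01 : eG d01 (1 : R) ∈ H := by simpa using h01 1
  have o12 : eG d12 (1 : R) ∈ H := by simpa using h12 1
  have o20 : eG d20 (1 : R) ∈ H := by
    obtain ⟨w, hw⟩ := h1
    rw [← hw]; exact h20 w
  have o02 : eG d02 (1 : R) ∈ H := by simpa using hcomm d01 d12 d02 _ _ o01 o12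
  have o10 : eG d10 (1 : R) ∈ H := by simpa using hcomm d12 d20 d10 _ _ o12 o20
  have o21 : eG d21 (1 : R) ∈ H := by simpa using hcomm d20 d01 d21 _ _ o20 o01
  -- all the sets are equal
  have key : ∀ r : R, (∃ (i j : Fin 3) (h : i ≠ j), eG h r ∈ H) →
      ∀ (i j : Fin 3) (h : i ≠ j), eG h r ∈ H := by
    have s1 : ∀ r : R, eG d01 r ∈ H → eG d02 r ∈ H := fun r hr => by
      simpa using hcomm d01 d12 d02 _ _ hr o12
    have s2 : ∀ r : R, eG d02 r ∈ H → eG d12 r ∈ H := fun r hr => by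
      simpa using hcomm d10 d02 d12 _ _ o10 hr
    have s3 : ∀ r : R, eG d12 r ∈ H → eG d10 r ∈ H := fun r hr => by
      simpa using hcomm d12 d20 d10 _ _ hr o20
    have s4 : ∀ r : R, eG d10 r ∈ H → eG d20 r ∈ H := fun r hr => by
      simpa using hcomm d21 d10 d20 _ _ o21 hr
    have s5 : ∀ r : R, eG d20 r ∈ H → eG d21 r ∈ H := fun r hr => by
      simpa using hcomm d20 d01 d21 _ _ hr o01
    have s6 : ∀ r : R, eG d21 r ∈ H → eG d01 r ∈ H := fun r hr => by
      simpa using hcomm d02 d21 d01 _ _ o02 hr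
    rintro r ⟨i, j, h, hr⟩ i' j' h'
    have h0 : eG d01 r ∈ H := by
      fin_cases i <;> fin_cases j <;> first
        | exact absurd rfl h
        | exact hr
        | exact s6 r hr
        | exact s6 r (s5 r hr)
        | exact s6 r (s5 r (s4 r hr))
        | exact s6 r (s5 r (s4 r (s3 r hr)))
        | exact s6 r (s5 r (s4 r (s3 r (s2 r hr))))
    fin_cases i' <;> fin_cases j' <;> first
      | exact absurd rfl h'
      | exact h0
      | exact s1 r h0
      | exact s2 r (s1 r h0)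
      | exact s3 r (s2 r (s1 r h0))
      | exact s4 r (s3 r (s2 r (s1 r h0)))
      | exact s5 r (s4 r (s3 r (s2 r (s1 r h0))))
  have hall : ∀ r : R, ∀ (i j : Fin 3) (h : i ≠ j), eG h r ∈ H := by
    intro r
    have hr : r ∈ Algebra.adjoin k (Set.range ι) := by rw [hgen]; trivial
    induction hr using Algebra.adjoin_induction with
    | mem x hx => obtain ⟨w, rfl⟩ := hx; exact key _ ⟨2, 0, d20, h20 w⟩
    | algebraMap a => exact key _ ⟨0, 1, d01, h01 a⟩
    | add x y _ _ hx hy => intro i j h; rw [eG_add]; exact H.mul_mem (hx i j h) (hy i j h)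
    | mul x y _ _ hx hy => exact key _ ⟨0, 2, d02, hcomm d01 d12 d02 _ _ (hx _ _ _) (hy _ _ _)⟩
  have hle : EG R ≤ H.map (EG R).subtype := by
    unfold EG
    rw [Subgroup.closure_le]
    rintro _ ⟨i, j, h, r, rfl⟩
    exact ⟨_, hall r i j h, rfl⟩
  obtain ⟨x, hx, hxg⟩ := hle g.2
  have : x = g := Subtype.ext hxg
  rwa [← this]

end gen

section tee

variable {R : Type} [CommRing R]
variable {k : Type} [Field k] [Fintype k] [Algebra k R] {W : Type} [AddCommGroup W] [Module k W]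
  [Fintype W] (ι : W →ₗ[k] R)
variable {E : Type} [NormedAddCommGroup E] [InnerProductSpace ℂ E] [CompleteSpace E]

/-- the three projections -/
noncomputable def PG (σ : EG R →* (E →L[ℂ] E)) : Fin 3 → (E →L[ℂ] E) :=
  ![av σ (xG d01 (cst k R)), av σ (xG d12 (cst k R)), av σ (xG d20 ι.toAddMonoidHom)]

lemma smul_bij {b : k} (hb : b ≠ 0) {V : Type} [AddCommGroup V] [Module k V] :
    Function.Bijective (fun a : V => b • a) :=
  (MulAction.bijective (Units.mk0 b hb) : Function.Bijective (fun a : V => (Units.mk0 b hb) • a))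

lemma PG_pair (σ : EG R →* (E →L[ℂ] E)) (hσ : ∀ g, σ g ∈ unitary (E →L[ℂ] E))
    (hk : 7 ≤ Fintype.card k) : Pairwise' (PG ι σ) := by
  have hk' : 7 ≤ Fintype.card (Multiplicative k) := by
    rw [Fintype.card_multiplicative]; exact hk
  have p01 : ∀ v, 0 ≤ 2 * (⟪v - av σ (xG d01 (cst k R)) v, v - av σ (xG d12 (cst k R)) v⟫_ℂ).re +
      (2/5) * (‖v - av σ (xG d01 (cst k R)) v‖^2 + ‖v - av σ (xG d12 (cst k R)) v‖^2) := by
    intro v
    refine heis_ineq σ hσ (xG d01 (cst k R)) (xG d12 (cst k R)) (xG d02 (cst k R))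
      (fun a b => Multiplicative.ofAdd (b.toAdd • a.toAdd)) ?_ ?_ ?_ ?_ hk' v
    · intro a b
      simp only [xG_apply, cst_apply, toAdd_ofAdd, smul_eq_mul, map_mul]
      rw [mul_comm (algebraMap k R b.toAdd)]
      exact eG_comm d01 d12 d02 _ _
    · intro a b; exact eG_comm_left d01 d02 _ _
    · intro a b; exact eG_comm_right d12 d02 _ _
    · intro b hb
      have hb' : b.toAdd ≠ 0 := fun h => hb (by rw [← toAdd_eq_zero]; exact h)
      exact smul_bij hb' (V := k)
  have p20 : ∀ v, 0 ≤ 2 * (⟪v - av σ (xG d20 ι.toAddMonoidHom) v, v - av σ (xG d01 (cst k R)) v⟫_ℂ).re +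
      (2/5) * (‖v - av σ (xG d20 ι.toAddMonoidHom) v‖^2 + ‖v - av σ (xG d01 (cst k R)) v‖^2) := by
    intro v
    refine heis_ineq σ hσ (xG d20 ι.toAddMonoidHom) (xG d01 (cst k R)) (xG d21 ι.toAddMonoidHom)
      (fun a b => Multiplicative.ofAdd (b.toAdd • a.toAdd)) ?_ ?_ ?_ ?_ hk' v
    · intro a b
      simp only [xG_apply, cst_apply, toAdd_ofAdd, LinearMap.toAddMonoidHom_coe, map_smul]
      rw [Algebra.smul_def, mul_comm (algebraMap k R b.toAdd)]
      exact eG_comm d20 d01 d21 _ _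
    · intro a b; exact eG_comm_left d20 d21 _ _
    · intro a b; exact eG_comm_right d01 d21 _ _
    · intro b hb
      have hb' : b.toAdd ≠ 0 := fun h => hb (by rw [← toAdd_eq_zero]; exact h)
      exact smul_bij hb' (V := W)
  have p21 : ∀ v, 0 ≤ 2 * (⟪v - av σ (xG d20 ι.toAddMonoidHom) v, v - av σ (xG d12 (cst k R)) v⟫_ℂ).re +
      (2/5) * (‖v - av σ (xG d20 ι.toAddMonoidHom) v‖^2 + ‖v - av σ (xG d12 (cst k R)) v‖^2) := by
    intro v
    refine heis_ineq σ hσ (xG d20 ι.toAddMonoidHom) (xG d12 (cst k R)) (xG d10 ι.toAddMonoidHom)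
      (fun a b => Multiplicative.ofAdd (-(b.toAdd • a.toAdd)))
      ?_ ?_ ?_ ?_ hk' v
    · intro a b
      simp only [xG_apply, cst_apply, toAdd_ofAdd, LinearMap.toAddMonoidHom_coe, map_smul, map_neg]
      have h1 := eG_comm d12 d20 d10 (algebraMap k R b.toAdd) (ι a.toAdd)
      rw [h1, ← mul_assoc, Algebra.smul_def, eG_neg, inv_mul_cancel, one_mul]
    · intro a b; exact eG_comm_right d20 d10 _ _
    · intro a b; exact eG_comm_left d12 d10 _ _
    · intro b hb
      have hb' : b.toAdd ≠ 0 := fun h => hb (by rw [← toAdd_eq_zero]; exact h)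
      exact (Equiv.neg W).bijective.comp (smul_bij hb' (V := W))
  have hsymm : ∀ (P Q : E →L[ℂ] E), (∀ v, 0 ≤ 2 * (⟪v - P v, v - Q v⟫_ℂ).re +
      (2/5) * (‖v - P v‖^2 + ‖v - Q v‖^2)) → ∀ v, 0 ≤ 2 * (⟪v - Q v, v - P v⟫_ℂ).re +
      (2/5) * (‖v - Q v‖^2 + ‖v - P v‖^2) := by
    intro P Q h v
    have h1 := h v
    rw [← inner_conj_symm, Complex.conj_re]
    linarith
  intro i j hij
  fin_cases i <;> fin_cases j <;> first
    | exact absurd rfl hij
    | exact p01
    | exact p20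
    | exact p21
    | exact hsymm _ _ p01
    | exact hsymm _ _ p20
    | exact hsymm _ _ p21

/-- Strong property (T) for `EL_3(R)`, `|k| ≥ 7`. -/
theorem EG_inv (hgen : Algebra.adjoin k (Set.range ι) = ⊤) (h1 : (1 : R) ∈ Set.range ι)
    (σ : EG R →* (E →L[ℂ] E)) (hσ : ∀ g, σ g ∈ unitary (E →L[ℂ] E))
    (hk : 7 ≤ Fintype.card k) (v : E) (δ : ℝ)
    (h01 : ∀ a : k, ‖σ (eG d01 (algebraMap k R a)) v - v‖ ≤ δ)
    (h12 : ∀ a : k, ‖σ (eG d12 (algebraMap k R a)) v - v‖ ≤ δ)
    (h20 : ∀ w : W, ‖σ (eG d20 (ι w)) v - v‖ ≤ δ) :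
    ∃ w, (∀ g, σ g w = w) ∧ ‖v - w‖ ≤ 60 * δ := by
  have hδ : 0 ≤ δ := (norm_nonneg _).trans (h01 1)
  have hP : ∀ i, IsPr (PG ι σ i) := by
    intro i
    fin_cases i
    · exact av_isPr σ _ hσ
    · exact av_isPr σ _ hσ
    · exact av_isPr σ _ hσ
  obtain ⟨w, hw, hvw⟩ := descent hP (PG_pair ι σ hσ hk) v
  have hen : en (PG ι σ) v ≤ 3 * δ^2 := by
    simp only [en, Fin.sum_univ_three]
    have a0 : ‖v - PG ι σ 0 v‖ ≤ δ := av_sub_le σ _ hσ v δ (fun a => h01 _)
    have a1 : ‖v - PG ι σ 1 v‖ ≤ δ := av_sub_le σ _ hσ v δ (fun a => h12 _)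
    have a2 : ‖v - PG ι σ 2 v‖ ≤ δ := av_sub_le σ _ hσ v δ (fun a => h20 _)
    have b0 := pow_le_pow_left₀ (norm_nonneg _) a0 2
    have b1 := pow_le_pow_left₀ (norm_nonneg _) a1 2
    have b2 := pow_le_pow_left₀ (norm_nonneg _) a2 2
    linarith
  refine ⟨w, ?_, ?_⟩
  · intro g
    let H : Subgroup (EG R) :=
      { carrier := {g | σ g w = w}
        mul_mem' := by
          intro a b ha hb
          simp only [Set.mem_setOf_eq] at *
          rw [π_mul, hb, ha]
        one_mem' := by simp only [Set.mem_setOf_eq]; exact π_one σ w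
        inv_mem' := by
          intro a ha
          simp only [Set.mem_setOf_eq] at *
          conv_lhs => rw [← ha]
          rw [← π_mul, inv_mul_cancel, π_one] }
    have : g ∈ H := by
      apply EG_gen ι hgen h1
      · exact fun a => (av_fix_iff σ _ w).1 (hw 0) (Multiplicative.ofAdd a)
      · exact fun a => (av_fix_iff σ _ w).1 (hw 1) (Multiplicative.ofAdd a)
      · exact fun a => (av_fix_iff σ _ w).1 (hw 2) (Multiplicative.ofAdd a)
    exact this
  · refine hvw.trans ?_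
    have : √(en (PG ι σ) v) ≤ 2 * δ := by
      rw [show 2 * δ = √((2*δ)^2) by rw [Real.sqrt_sq (by positivity)]]
      apply Real.sqrt_le_sqrt
      nlinarith
    linarith

end tee

end Pool.Agent.W403.EP
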