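import Mathlib
import Pool.Agent.W403.EP.Grp

/-!
The ring `F_9[X][ε]` and the infinite central subgroup of `EL_3(F_9[X][ε])`.
-/

set_option autoImplicit false
set_option linter.unusedSectionVars false
set_option linter.unusedSimpArgs false

namespace Pool.Agent.W403.EP

open Pool.Agent.H197R3
open Polynomial

section wh
variable {R : Type} [CommRing R]

lemma wh3_01 (u v : R) (h : u * v = 1) :
    ((el d01 u * el d10 (-v) * el d01 u : SL3 R) : Matrix (Fin 3) (Fin 3) R) =
      !![0, u, 0; -v, 0, 0; 0, 0, 1] := by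
  simp only [Matrix.SpecialLinearGroup.coe_mul, el_coe]
  ext i j
  fin_cases i <;> fin_cases j <;>
    simp [Matrix.mul_apply, Fin.sum_univ_three, Matrix.single_apply, Matrix.one_apply] <;>
    first
      | ring1
      | linear_combination (-1 : R) * h
      | linear_combination (1 : R) * h
      | linear_combination (-u : R) * h

lemma wh3_12 (u v : R) (h : u * v = 1) :
    ((el d12 u * el d21 (-v) * el d12 u : SL3 R) : Matrix (Fin 3) (Fin 3) R) =
      !![1, 0, 0; 0, 0, u; 0, -v, 0] := by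
  simp only [Matrix.SpecialLinearGroup.coe_mul, el_coe]
  ext i j
  fin_cases i <;> fin_cases j <;>
    simp [Matrix.mul_apply, Fin.sum_univ_three, Matrix.single_apply, Matrix.one_apply] <;>
    first
      | ring1
      | linear_combination (-1 : R) * h
      | linear_combination (1 : R) * h
      | linear_combination (-u : R) * h

/-- the scalar matrix `1 + n` -/
lemma sc_exists (n : R) (h2 : n * n = 0) (h3 : (3 : R) = 0) :
    ∃ g : EG R, (g.1 : Matrix (Fin 3) (Fin 3) R) = (1 + n) • (1 : Matrix (Fin 3) (Fin 3) R) := by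
  have huv : (1 + n) * (1 - n) = 1 := by linear_combination -h2
  have hvu : (1 - n) * (1 + n) = 1 := by linear_combination -h2
  have h11 : (-1 : R) * (-1) = 1 := by ring
  refine ⟨(eG d01 (1 + n) * eG d10 (-(1 - n)) * eG d01 (1 + n)) *
    (eG d01 (-1) * eG d10 (-(-1)) * eG d01 (-1)) *
    ((eG d12 (1 - n) * eG d21 (-(1 + n)) * eG d12 (1 - n)) *
    (eG d12 (-1) * eG d21 (-(-1)) * eG d12 (-1))), ?_⟩
  have e : (((eG d01 (1 + n) * eG d10 (-(1 - n)) * eG d01 (1 + n)) *
    (eG d01 (-1) * eG d10 (-(-1)) * eG d01 (-1)) *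
    ((eG d12 (1 - n) * eG d21 (-(1 + n)) * eG d12 (1 - n)) *
    (eG d12 (-1) * eG d21 (-(-1)) * eG d12 (-1))) : EG R).1 : Matrix (Fin 3) (Fin 3) R) =
    ((el d01 (1 + n) * el d10 (-(1 - n)) * el d01 (1 + n) : SL3 R) : Matrix (Fin 3) (Fin 3) R) *
    ((el d01 (-1) * el d10 (-(-1)) * el d01 (-1) : SL3 R) : Matrix (Fin 3) (Fin 3) R) *
    (((el d12 (1 - n) * el d21 (-(1 + n)) * el d12 (1 - n) : SL3 R) : Matrix (Fin 3) (Fin 3) R) *
    ((el d12 (-1) * el d21 (-(-1)) * el d12 (-1) : SL3 R) : Matrix (Fin 3) (Fin 3) R)) := rfl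
  rw [e, wh3_01 _ _ huv, wh3_01 _ _ h11, wh3_12 _ _ hvu, wh3_12 _ _ h11]
  ext i j
  fin_cases i <;> fin_cases j <;>
    simp [Matrix.mul_apply, Fin.sum_univ_three, Matrix.one_apply] <;>
    linear_combination h2 - n * h3

end wh

/-- the field with nine elements -/
abbrev kk : Type := GaloisField 3 2

/-- the ring `F_9[X][ε]` -/
abbrev RR : Type := DualNumber kk[X]

/-- the group -/
abbrev Gam : Type := EG RR

instance : Finite kk := inferInstance

noncomputable instance fkk : Fintype kk := Fintype.ofFinite _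

lemma card_kk : Nat.card kk = 9 := by
  rw [GaloisField.card 3 2 (by norm_num)]; norm_num

lemma card_kk' : 7 ≤ Fintype.card kk := by
  rw [← Nat.card_eq_fintype_card, card_kk]; norm_num

instance ckX : Countable kk[X] := by
  have : Function.Injective (fun p : kk[X] => (p.toFinsupp.coeff : ℕ →₀ kk)) := by
    intro p q h
    apply Polynomial.toFinsupp_injective
    exact AddMonoidAlgebra.coeff_injective h
  exact this.countable

instance cRR : Countable RR := inferInstanceAs (Countable (kk[X] × kk[X]))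

instance cSL : Countable (SL3 RR) := by
  have : Countable (Matrix (Fin 3) (Fin 3) RR) :=
    inferInstanceAs (Countable (Fin 3 → Fin 3 → RR))
  exact Subtype.countable

instance cGam : Countable Gam := Subtype.countable

/-- the map defining the third root subgroup -/
noncomputable def iot : kk × kk × kk →ₗ[kk] RR where
  toFun p := TrivSqZeroExt.inl (C p.1 + C p.2.1 * X) + TrivSqZeroExt.inr (C p.2.2)
  map_add' p q := by
    apply TrivSqZeroExt.ext
    · simp only [Prod.fst_add, Prod.snd_add, map_add, TrivSqZeroExt.fst_add, TrivSqZeroExt.fst_inl,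
        TrivSqZeroExt.fst_inr, add_zero]
      ring
    · simp only [Prod.fst_add, Prod.snd_add, map_add, TrivSqZeroExt.snd_add, TrivSqZeroExt.snd_inl,
        TrivSqZeroExt.snd_inr, zero_add]
  map_smul' c p := by
    apply TrivSqZeroExt.ext
    · simp only [Prod.smul_fst, Prod.smul_snd, TrivSqZeroExt.fst_add, TrivSqZeroExt.fst_inl,
        TrivSqZeroExt.fst_inr, add_zero, RingHom.id_apply, TrivSqZeroExt.fst_smul,
        Polynomial.smul_eq_C_mul, smul_eq_mul, map_mul]
      ring
    · simp only [Prod.smul_fst, Prod.smul_snd, TrivSqZeroExt.snd_add, TrivSqZeroExt.snd_inl,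
        TrivSqZeroExt.snd_inr, zero_add, RingHom.id_apply, TrivSqZeroExt.snd_smul,
        Polynomial.smul_eq_C_mul, smul_eq_mul, map_mul]

lemma iot_one : (1 : RR) ∈ Set.range iot := by
  refine ⟨(1, 0, 0), ?_⟩
  simp [iot]

lemma iot_X : (TrivSqZeroExt.inl X : RR) ∈ Set.range iot := by
  refine ⟨(0, 1, 0), ?_⟩
  simp [iot]

lemma iot_eps : (TrivSqZeroExt.inr 1 : RR) ∈ Set.range iot := by
  refine ⟨(0, 0, 1), ?_⟩
  simp [iot]

lemma adj_inl (p : kk[X]) : (TrivSqZeroExt.inl p : RR) ∈ Algebra.adjoin kk (Set.range iot) := by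
  induction p using Polynomial.induction_on' with
  | add p q hp hq => rw [TrivSqZeroExt.inl_add]; exact add_mem hp hq
  | monomial n a =>
    have hpow : (TrivSqZeroExt.inl (X ^ n) : RR) = (TrivSqZeroExt.inl X : RR) ^ n :=
      map_pow (TrivSqZeroExt.inlHom kk[X] kk[X]) X n
    rw [← C_mul_X_pow_eq_monomial, TrivSqZeroExt.inl_mul, hpow]
    refine mul_mem ?_ (pow_mem (Algebra.subset_adjoin iot_X) n)
    have : (TrivSqZeroExt.inl (C a) : RR) = algebraMap kk RR a := rfl
    rw [this]
    exact Subalgebra.algebraMap_mem _ a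

lemma adj_top : Algebra.adjoin kk (Set.range iot) = ⊤ := by
  rw [eq_top_iff]
  intro r _
  have e : r = TrivSqZeroExt.inl r.fst + TrivSqZeroExt.inl r.snd * TrivSqZeroExt.inr 1 := by
    ext <;> simp
  rw [e]
  exact add_mem (adj_inl _) (mul_mem (adj_inl _) (Algebra.subset_adjoin iot_eps))

lemma three_zero : (3 : RR) = 0 := by
  have h0 : (3 : kk) = 0 := by
    have := CharP.cast_eq_zero kk 3
    exact_mod_cast this
  have h1 : (3 : RR) = algebraMap kk RR 3 := (map_ofNat (algebraMap kk RR) 3).symm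
  rw [h1, h0, map_zero]

/-- the central elements -/
noncomputable def nu (f : kk[X]) : Gam :=
  (sc_exists (TrivSqZeroExt.inr f : RR) (TrivSqZeroExt.inr_mul_inr _ f f) three_zero).choose

lemma nu_spec (f : kk[X]) : ((nu f).1 : Matrix (Fin 3) (Fin 3) RR) =
    (1 + (TrivSqZeroExt.inr f : RR)) • (1 : Matrix (Fin 3) (Fin 3) RR) :=
  (sc_exists (TrivSqZeroExt.inr f : RR) (TrivSqZeroExt.inr_mul_inr _ f f) three_zero).choose_spec

lemma gam_ext {g h : Gam} (H : (g.1 : Matrix (Fin 3) (Fin 3) RR) = (h.1 : Matrix (Fin 3) (Fin 3) RR)) :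
    g = h := Subtype.ext (Subtype.ext H)

lemma nu_add (f g : kk[X]) : nu (f + g) = nu f * nu g := by
  apply gam_ext
  show _ = ((nu f).1 : Matrix (Fin 3) (Fin 3) RR) * ((nu g).1 : Matrix (Fin 3) (Fin 3) RR)
  rw [nu_spec, nu_spec, nu_spec, smul_mul_smul_comm, mul_one]
  congr 1
  have : (TrivSqZeroExt.inr f : RR) * (TrivSqZeroExt.inr g : RR) = 0 :=
    TrivSqZeroExt.inr_mul_inr _ f g
  rw [TrivSqZeroExt.inr_add]
  linear_combination -this

lemma nu_zero : nu 0 = 1 := by
  have := nu_add 0 0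
  rw [add_zero] at this
  exact (mul_eq_left.1 this.symm)

lemma nu_comm (f : kk[X]) (g : Gam) : nu f * g = g * nu f := by
  apply gam_ext
  show ((nu f).1 : Matrix (Fin 3) (Fin 3) RR) * (g.1 : Matrix (Fin 3) (Fin 3) RR) =
    (g.1 : Matrix (Fin 3) (Fin 3) RR) * ((nu f).1 : Matrix (Fin 3) (Fin 3) RR)
  rw [nu_spec, smul_mul_assoc, one_mul, mul_smul_comm, mul_one]

lemma nu_inj : Function.Injective nu := by
  intro f g h
  have h1 : ((nu f).1 : Matrix (Fin 3) (Fin 3) RR) 0 0 = ((nu g).1 : Matrix (Fin 3) (Fin 3) RR) 0 0 := by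
    rw [h]
  rw [nu_spec, nu_spec] at h1
  simp only [Matrix.smul_apply, Matrix.one_apply_eq, smul_eq_mul, mul_one, add_right_inj] at h1
  exact TrivSqZeroExt.inr_injective h1

/-- the central homomorphism -/
noncomputable def nuH : Multiplicative kk[X] →* Gam where
  toFun f := nu f.toAdd
  map_one' := nu_zero
  map_mul' _ _ := nu_add _ _

lemma nu_cube (f : kk[X]) : nu f * nu f * nu f = 1 := by
  rw [← nu_add, ← nu_add, ← nu_zero]
  congr 1
  have h0 : (3 : kk[X]) = 0 := by
    have : (3 : kk) = 0 := by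
      have := CharP.cast_eq_zero kk 3
      exact_mod_cast this
    have h1 : (3 : kk[X]) = C 3 := (map_ofNat (C : kk →+* kk[X]) 3).symm
    rw [h1, this, map_zero]
  linear_combination f * h0

end Pool.Agent.W403.EP
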