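import Mathlib
import Pool.Agent.W403.EP.GrpR

/-!
The group `Gam` is contained in a countable ICC group.
-/

set_option autoImplicit false
set_option linter.unusedSectionVars false

namespace Pool.Agent.W403.EP

open Pool.Agent.H197R3
open Polynomial

/-- the module -/
abbrev V3 : Type := Fin 3 → RR

/-- the action on the module -/
noncomputable def actA (g : Gam) : V3 ≃+ V3 where
  toFun v := (g.1 : Matrix (Fin 3) (Fin 3) RR).mulVec v
  invFun v := ((g⁻¹).1 : Matrix (Fin 3) (Fin 3) RR).mulVec v
  left_inv v := by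
    have h1 : ((g⁻¹).1 : Matrix (Fin 3) (Fin 3) RR) * (g.1 : Matrix (Fin 3) (Fin 3) RR) = 1 := by
      have : ((g⁻¹ * g : Gam).1 : Matrix (Fin 3) (Fin 3) RR) = 1 := by
        rw [inv_mul_cancel]; rfl
      exact this
    show ((g⁻¹).1 : Matrix (Fin 3) (Fin 3) RR).mulVec
      ((g.1 : Matrix (Fin 3) (Fin 3) RR).mulVec v) = v
    rw [Matrix.mulVec_mulVec, h1, Matrix.one_mulVec]
  right_inv v := by
    have h1 : (g.1 : Matrix (Fin 3) (Fin 3) RR) * ((g⁻¹).1 : Matrix (Fin 3) (Fin 3) RR) = 1 := by
      have : ((g * g⁻¹ : Gam).1 : Matrix (Fin 3) (Fin 3) RR) = 1 := by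
        rw [mul_inv_cancel]; rfl
      exact this
    show (g.1 : Matrix (Fin 3) (Fin 3) RR).mulVec
      (((g⁻¹).1 : Matrix (Fin 3) (Fin 3) RR).mulVec v) = v
    rw [Matrix.mulVec_mulVec, h1, Matrix.one_mulVec]
  map_add' v w := Matrix.mulVec_add _ _ _

theorem actA_mul (g h : Gam) (v : V3) : actA (g * h) v = actA g (actA h v) := by
  show ((g * h : Gam).1 : Matrix (Fin 3) (Fin 3) RR).mulVec v =
    (g.1 : Matrix (Fin 3) (Fin 3) RR).mulVec ((h.1 : Matrix (Fin 3) (Fin 3) RR).mulVec v)
  rw [Matrix.mulVec_mulVec]
  rfl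

theorem actA_one (v : V3) : actA 1 v = v := by
  show ((1 : Gam).1 : Matrix (Fin 3) (Fin 3) RR).mulVec v = v
  have : ((1 : Gam).1 : Matrix (Fin 3) (Fin 3) RR) = 1 := rfl
  rw [this, Matrix.one_mulVec]

/-- the action as a homomorphism -/
noncomputable def actH : Gam →* MulAut (Multiplicative V3) where
  toFun g := AddEquiv.toMultiplicative (actA g)
  map_one' := MulEquiv.ext fun v => congrArg Multiplicative.ofAdd (actA_one v.toAdd)
  map_mul' g h := MulEquiv.ext fun v => congrArg Multiplicative.ofAdd (actA_mul g h v.toAdd)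

/-- the ICC group -/
abbrev LL : Type := Multiplicative V3 ⋊[actH] Gam

instance cLL : Countable LL := by
  have : Countable (Multiplicative V3) := inferInstanceAs (Countable (Fin 3 → RR))
  have h : Function.Injective (fun x : LL => (x.left, x.right)) := by
    intro x y h
    exact SemidirectProduct.ext (congrArg Prod.fst h) (congrArg Prod.snd h)
  exact h.countable

theorem inl_mul_inj {u : RR} (hu : u ≠ 0) :
    Function.Injective (fun p : kk[X] => (TrivSqZeroExt.inl p : RR) * u) := by
  intro p q h
  simp only at h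
  have h1 := congrArg TrivSqZeroExt.fst h
  have h2 := congrArg TrivSqZeroExt.snd h
  simp only [TrivSqZeroExt.fst_mul, TrivSqZeroExt.fst_inl] at h1
  simp only [TrivSqZeroExt.snd_mul, TrivSqZeroExt.fst_inl, TrivSqZeroExt.snd_inl, smul_eq_mul,
    smul_zero, add_zero] at h2
  by_contra hpq
  apply hu
  apply TrivSqZeroExt.ext
  · by_contra h3
    exact hpq (mul_right_cancel₀ h3 h1)
  · by_contra h3
    exact hpq (mul_right_cancel₀ h3 h2)

theorem actA_eG {i j : Fin 3} (h : i ≠ j) (r : RR) (v : V3) :
    actA (eG h r) v i = v i + r * v j := by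
  show ((el h r : SL3 RR) : Matrix (Fin 3) (Fin 3) RR).mulVec v i = _
  rw [el_coe, Matrix.add_mulVec, Matrix.one_mulVec, Pi.add_apply]
  congr 1
  rw [Matrix.mulVec, dotProduct, Finset.sum_eq_single j]
  · rw [Matrix.single_apply_same]
  · intro k _ hk
    rw [Matrix.single_apply, if_neg (fun h => hk h.2.symm), zero_mul]
  · simp

theorem LL_icc (l : LL) (hl : l ≠ 1) : (Set.range fun g : LL => g * l * g⁻¹).Infinite := by
  have hinf : Infinite kk[X] := inferInstance
  by_cases hr : l.right = 1
  · have hv : l.left ≠ 1 := fun h => hl (SemidirectProduct.ext h hr)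
    obtain ⟨j, hj⟩ : ∃ j, (Multiplicative.toAdd l.left) j ≠ 0 := by
      by_contra hcon
      push Not at hcon
      exact hv (congrArg Multiplicative.ofAdd (funext hcon : Multiplicative.toAdd l.left = 0))
    obtain ⟨i, hij⟩ : ∃ i : Fin 3, i ≠ j := exists_ne j
    refine Set.infinite_of_injective_forall_mem
      (f := fun p : kk[X] => (SemidirectProduct.inr (eG hij (TrivSqZeroExt.inl p)) : LL) * l *
        (SemidirectProduct.inr (eG hij (TrivSqZeroExt.inl p)) : LL)⁻¹) ?_ (fun p => ⟨_, rfl⟩)
    have key : ∀ p : kk[X], Multiplicative.toAdd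
        ((SemidirectProduct.inr (eG hij (TrivSqZeroExt.inl p)) : LL) * l *
        (SemidirectProduct.inr (eG hij (TrivSqZeroExt.inl p)) : LL)⁻¹).left i =
        (Multiplicative.toAdd l.left) i + (TrivSqZeroExt.inl p : RR) *
          (Multiplicative.toAdd l.left) j := by
      intro p
      rw [← actA_eG hij]
      simp only [SemidirectProduct.mul_left, SemidirectProduct.left_inr, one_mul,
        SemidirectProduct.inv_left, inv_one, map_one, mul_one, SemidirectProduct.right_inr,
        SemidirectProduct.mul_right]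
      rfl
    intro p q hpq
    have h1 := key p
    have h2 := key q
    simp only at hpq
    rw [hpq, h2] at h1
    exact (inl_mul_inj hj (add_left_cancel h1)).symm
  · obtain ⟨i, j, hij⟩ : ∃ i j, (l.right.1 : Matrix (Fin 3) (Fin 3) RR) i j ≠
        (1 : Matrix (Fin 3) (Fin 3) RR) i j := by
      by_contra hcon
      push Not at hcon
      apply hr
      apply gam_ext
      exact Matrix.ext hcon
    refine Set.infinite_of_injective_forall_mem
      (f := fun p : kk[X] => (SemidirectProduct.inl
        (Multiplicative.ofAdd (Pi.single j (TrivSqZeroExt.inl p) : V3)) : LL) * l *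
        (SemidirectProduct.inl
        (Multiplicative.ofAdd (Pi.single j (TrivSqZeroExt.inl p) : V3)) : LL)⁻¹) ?_
        (fun p => ⟨_, rfl⟩)
    have key : ∀ p : kk[X], Multiplicative.toAdd
        ((SemidirectProduct.inl
        (Multiplicative.ofAdd (Pi.single j (TrivSqZeroExt.inl p) : V3)) : LL) * l *
        (SemidirectProduct.inl
        (Multiplicative.ofAdd (Pi.single j (TrivSqZeroExt.inl p) : V3)) : LL)⁻¹).left i =
        (Multiplicative.toAdd l.left) i + (TrivSqZeroExt.inl p : RR) *
          ((1 : Matrix (Fin 3) (Fin 3) RR) i j - (l.right.1 : Matrix (Fin 3) (Fin 3) RR) i j) := by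
      intro p
      have e1 : Multiplicative.toAdd
        ((SemidirectProduct.inl
        (Multiplicative.ofAdd (Pi.single j (TrivSqZeroExt.inl p) : V3)) : LL) * l *
        (SemidirectProduct.inl
        (Multiplicative.ofAdd (Pi.single j (TrivSqZeroExt.inl p) : V3)) : LL)⁻¹).left =
        (Pi.single j (TrivSqZeroExt.inl p) : V3) + Multiplicative.toAdd l.left +
          actA l.right (-(Pi.single j (TrivSqZeroExt.inl p) : V3)) := by
        simp only [SemidirectProduct.mul_left, SemidirectProduct.left_inl,
          SemidirectProduct.inv_left, inv_one, map_one, SemidirectProduct.right_inl,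
          SemidirectProduct.mul_right, one_mul, MulAut.one_apply]
        rfl
      have e2 : (actA l.right (Pi.single j (TrivSqZeroExt.inl p) : V3)) i =
          (l.right.1 : Matrix (Fin 3) (Fin 3) RR) i j * (TrivSqZeroExt.inl p : RR) := by
        show (l.right.1 : Matrix (Fin 3) (Fin 3) RR).mulVec
          (Pi.single j (TrivSqZeroExt.inl p) : V3) i = _
        rw [Matrix.mulVec_single]
        simp
      have e3 : (Pi.single j (TrivSqZeroExt.inl p) : V3) i =
          (1 : Matrix (Fin 3) (Fin 3) RR) i j * (TrivSqZeroExt.inl p : RR) := by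
        rw [Matrix.one_apply, Pi.single_apply]
        split_ifs <;> simp
      rw [e1, map_neg, Pi.add_apply, Pi.add_apply, Pi.neg_apply, e2, e3]
      ring
    intro p q hpq
    have h1 := key p
    have h2 := key q
    simp only at hpq
    rw [hpq, h2] at h1
    exact (inl_mul_inj (sub_ne_zero.2 (Ne.symm hij)) (add_left_cancel h1)).symm

end Pool.Agent.W403.EP
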