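import Mathlib

/-!
Star homomorphisms from the `2 × 2` matrices given by two anticommuting symmetries.
-/

set_option autoImplicit false

namespace Pool.Agent.W403.EP

variable {A : Type} [Ring A] [StarRing A] [Algebra ℂ A] [StarModule ℂ A] (X Z : A)

/-- the linear combination of `1, Z, X, X * Z` that corresponds to a matrix -/
noncomputable def mxf (m : Matrix (Fin 2) (Fin 2) ℂ) : A :=
  ((m 0 0 + m 1 1) / 2) • (1 : A) + ((m 0 0 - m 1 1) / 2) • Z + ((m 0 1 + m 1 0) / 2) • X +
    ((m 1 0 - m 0 1) / 2) • (X * Z)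

/-- a star homomorphism from the `2 × 2` matrices given by two anticommuting symmetries -/
noncomputable def muXZ (hX : star X = X) (hZ : star Z = Z) (hXX : X * X = 1) (hZZ : Z * Z = 1)
    (hXZ : Z * X = - (X * Z)) : Matrix (Fin 2) (Fin 2) ℂ →⋆ₐ[ℂ] A where
  toFun m := mxf X Z m
  map_one' := by
    unfold mxf
    simp
  map_mul' m n := by
    have t1 : Z * (X * Z) = -X := by rw [← mul_assoc, hXZ, neg_mul, mul_assoc, hZZ, mul_one]
    have t2 : X * (X * Z) = Z := by rw [← mul_assoc, hXX, one_mul]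
    have t3 : X * Z * Z = X := by rw [mul_assoc, hZZ, mul_one]
    have t4 : X * Z * X = -Z := by rw [mul_assoc, hXZ, mul_neg, t2]
    have t5 : X * Z * (X * Z) = -1 := by rw [← mul_assoc, t4, neg_mul, hZZ]
    unfold mxf
    simp only [add_mul, mul_add, smul_mul_smul_comm, mul_one, one_mul, hXX, hZZ, hXZ, t1, t2, t3,
      t4, t5, Matrix.mul_apply, Fin.sum_univ_two]
    module
  map_zero' := by unfold mxf; simp
  map_add' m n := by
    unfold mxf
    simp only [Matrix.add_apply]
    module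
  commutes' c := by
    unfold mxf
    simp [Algebra.algebraMap_eq_smul_one]
  map_star' m := by
    have t6 : star (X * Z) = - (X * Z) := by rw [star_mul, hX, hZ, hXZ]
    unfold mxf
    simp only [star_add, star_smul, star_one, hX, hZ, t6, Matrix.star_apply, star_div₀, star_sub]
    have h2 : star (2 : ℂ) = 2 := by simp
    rw [h2]
    module

theorem muXZ_apply (hX : star X = X) (hZ : star Z = Z) (hXX : X * X = 1) (hZZ : Z * Z = 1)
    (hXZ : Z * X = - (X * Z)) (m : Matrix (Fin 2) (Fin 2) ℂ) :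
    muXZ X Z hX hZ hXX hZZ hXZ m = mxf X Z m := rfl

theorem muXZ_X (hX : star X = X) (hZ : star Z = Z) (hXX : X * X = 1) (hZZ : Z * Z = 1)
    (hXZ : Z * X = - (X * Z)) : muXZ X Z hX hZ hXX hZZ hXZ !![0, 1; 1, 0] = X := by
  rw [muXZ_apply]
  unfold mxf
  simp

theorem muXZ_Z (hX : star X = X) (hZ : star Z = Z) (hXX : X * X = 1) (hZZ : Z * Z = 1)
    (hXZ : Z * X = - (X * Z)) : muXZ X Z hX hZ hXX hZZ hXZ !![1, 0; 0, -1] = Z := by
  rw [muXZ_apply]
  unfold mxf
  simp

/-- elements that commute with the generators commute with the range -/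
theorem muXZ_comm (hX : star X = X) (hZ : star Z = Z) (hXX : X * X = 1) (hZZ : Z * Z = 1)
    (hXZ : Z * X = - (X * Z)) (c : A) (h1 : c * X = X * c) (h2 : c * Z = Z * c)
    (m : Matrix (Fin 2) (Fin 2) ℂ) :
    c * muXZ X Z hX hZ hXX hZZ hXZ m = muXZ X Z hX hZ hXX hZZ hXZ m * c := by
  have h3 : c * (X * Z) = X * Z * c := by rw [← mul_assoc, h1, mul_assoc, h2, mul_assoc]
  rw [muXZ_apply]
  unfold mxf
  simp only [mul_add, add_mul, mul_smul_comm, smul_mul_assoc, mul_one, one_mul, h1, h2, h3]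

end Pool.Agent.W403.EP
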