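import Pool.Agent.W403.EP.NE

/-!
Existence of the isomorphism `σ : M ⊗ R → M` with `σ ∘ (id ⊗ 1) ∼ id`.
-/

set_option autoImplicit false

open scoped ComplexOrder Topology
open Filter

namespace Pool.Agent.W403.EP

open Pool.Agent.H504R3 (TVN)
open Pool.Agent.Helper234.Brown (PTr IsVN)

variable {M R : TVN}

section prod

variable (ι : R.E →⋆ₐ[ℂ] M.E) (hι : ∀ y, M.τ (ι y) = R.τ y)
  (j : ℕ → (Matrix (Fin 2) (Fin 2) ℂ →⋆ₐ[ℂ] R.E))
  (hj : ∀ k l, k ≠ l → ∀ a b, j k a * j l b = j l b * j k a)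
  (hd : ∀ (x : R.E) (ε : ℝ), 0 < ε →
    ∃ y ∈ Algebra.adjoin ℂ (⋃ k, Set.range (j k)), R.norm2 (x - y) < ε)

include hι in
theorem n2_ι (y : R.E) : M.norm2 (ι y) = R.norm2 y := by
  unfold TVN.norm2
  rw [← map_star, ← map_mul, hι]

include hι hd in
theorem comm_all (c : M.E) (hc : ∀ k x, c * ι (j k x) = ι (j k x) * c) (y : R.E) :
    c * ι y = ι y * c := by
  have h1 : ∀ a ∈ Algebra.adjoin ℂ (⋃ k, Set.range (j k)), c * ι a = ι a * c := by
    intro a ha
    induction ha using Algebra.adjoin_induction with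
    | mem a ha =>
      obtain ⟨k, y, rfl⟩ := Set.mem_iUnion.mp ha
      exact hc _ _
    | algebraMap r => rw [AlgHomClass.commutes, Algebra.commutes]
    | add a b _ _ ha hb => rw [map_add, mul_add, add_mul, ha, hb]
    | mul a b _ _ ha hb => rw [map_mul, ← mul_assoc, ha, mul_assoc, hb, mul_assoc]
  have hv := isVN M.tw
  have h2 : (ptr M.tw).n2 (c * ι y - ι y * c) = 0 := by
    apply le_antisymm _ ((ptr M.tw).n2_nonneg _)
    apply le_of_forall_pos_le_add
    intro ε hε
    have hpos : 0 < 2 * ‖c‖ + 1 := by positivity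
    obtain ⟨a, ha, hya⟩ := hd y (ε / (2 * ‖c‖ + 1)) (by positivity)
    have e : c * ι y - ι y * c = c * ι (y - a) - ι (y - a) * c := by
      rw [map_sub, mul_sub, sub_mul, h1 a ha]; abel
    rw [e, zero_add]
    refine ((ptr M.tw).n2_sub_le _ _).trans ?_
    have e1 := (ptr M.tw).n2_mul_le c (ι (y - a))
    have e2 := (ptr M.tw).n2_mul_le' (ι (y - a)) c
    have e4 : (ptr M.tw).n2 (ι (y - a)) = R.norm2 (y - a) := n2_ι ι hι _
    rw [e4] at e1 e2
    have e3 : R.norm2 (y - a) * (2 * ‖c‖ + 1) ≤ ε := by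
      rw [lt_div_iff₀ hpos] at hya; exact hya.le
    nlinarith [norm2_nonneg (M := R) (y - a)]
  exact sub_eq_zero.mp (hv.n2_eq_zero h2)

open Pool.Agent.Helper436.SM in
theorem exists_sf (t : VV) (ht : t ≠ 0) : ∃ s : VV, sg (sf s t) = -1 := by
  obtain ⟨i, hi⟩ : ∃ i, t i ≠ 0 := by
    by_contra hcon
    push Not at hcon
    exact ht (Finsupp.ext hcon)
  have key : ∀ a : ZMod 2 × ZMod 2, a ≠ 0 → ∃ c : ZMod 2 × ZMod 2,
      c.2 * a.1 + a.2 * c.1 = 1 := by decide
  obtain ⟨c, hc⟩ := key (t i) hi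
  refine ⟨Finsupp.single i c, ?_⟩
  have h1 : bf (Finsupp.single i c) t = c.2 * (t i).1 := by
    unfold bf
    rw [Finsupp.sum_single_index (by simp)]
  have h2 : bf t (Finsupp.single i c) = (t i).2 * c.1 := by
    classical
    unfold bf
    rw [Finsupp.sum, Finset.sum_eq_single i]
    · simp
    · intro k _ hk
      rw [Finsupp.single_apply, if_neg (Ne.symm hk)]
      simp
    · intro h
      rw [Finsupp.notMem_support_iff.1 h]
      simp
  unfold sf
  rw [h1, h2, hc]
  unfold sg
  rw [if_neg (by decide)]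

open Pool.Agent.Helper278 Pool.Agent.Helper436.SM Pool.Agent.H504R3 in
include hι hj hd in
/-- the trace of a product of `ι y` and an element that commutes with the range of `ι` -/
theorem tr_prod (c : M.E) (hc : ∀ k x, c * ι (j k x) = ι (j k x) * c) (y : R.E) :
    M.τ (c * ι y) = M.τ c * R.τ y := by
  have hP := pauliSys (A := R.E) (j := j) hj R.trAlg
  have hcW : ∀ t, c * ι (Ws j t) = ι (Ws j t) * c := fun t =>
    comm_all ι hι j hd c hc _
  have h0 : ∀ t, t ≠ 0 → M.τ (c * ι (Ws j t)) = 0 := by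
    intro t ht
    obtain ⟨s, hs⟩ := exists_sf t ht
    have h1 : Ws j s * Ws j t = - (Ws j t * Ws j s) := by
      rw [PauliSys.comm hP, hs, neg_one_smul]
    have h2 : star (ι (Ws j s)) * ι (Ws j s) = 1 := by
      rw [← map_star, ← map_mul, PauliSys.star_mul_self hP, map_one]
    have h3 : ι (Ws j s) * star (ι (Ws j s)) = 1 := by
      rw [← map_star, ← map_mul, PauliSys.mul_star_self hP, map_one]
    have h5 : ι (Ws j s) * ι (Ws j t) = - (ι (Ws j t) * ι (Ws j s)) := by
      rw [← map_mul ι, h1, map_neg ι, map_mul ι]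
    have h4 : M.τ (c * ι (Ws j t)) = - M.τ (c * ι (Ws j t)) := by
      calc M.τ (c * ι (Ws j t))
          = M.τ (star (ι (Ws j s)) * (ι (Ws j s) * (c * ι (Ws j t)))) := by
            rw [← mul_assoc, h2, one_mul]
        _ = M.τ (ι (Ws j s) * (c * ι (Ws j t)) * star (ι (Ws j s))) := M.tracial _ _
        _ = M.τ (c * (ι (Ws j s) * ι (Ws j t)) * star (ι (Ws j s))) := by
            rw [← mul_assoc, ← hcW, mul_assoc c]
        _ = M.τ (- (c * ι (Ws j t))) := by
            rw [h5]
            congr 1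
            rw [mul_neg, neg_mul, mul_assoc, mul_assoc, h3, mul_one]
        _ = _ := map_neg _ _
    linear_combination h4 / 2
  have h1 : ∀ a ∈ Algebra.adjoin ℂ (⋃ k, Set.range (j k)), M.τ (c * ι a) = M.τ c * R.τ a := by
    intro a ha
    obtain ⟨F, d, rfl⟩ := adjoin_le hj a ha
    rw [map_sum, map_sum, Finset.mul_sum, Finset.mul_sum, map_sum]
    refine Finset.sum_congr rfl fun t _ => ?_
    rw [map_smul, map_smul, mul_smul_comm, map_smul, hP.trace]
    by_cases ht : t = 0
    · rw [if_pos ht, ht, hP.zero, map_one, mul_one]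
      simp only [smul_eq_mul]
      ring
    · rw [if_neg ht, h0 t ht]
      simp
  have hpos : 0 ≤ M.norm2 c := norm2_nonneg c
  have h2 : ‖M.τ (c * ι y) - M.τ c * R.τ y‖ = 0 := by
    apply le_antisymm _ (norm_nonneg _)
    apply le_of_forall_pos_le_add
    intro ε hε
    obtain ⟨a, ha, hya⟩ := hd y (ε / (2 * M.norm2 c + 1)) (by positivity)
    have e : M.τ (c * ι y) - M.τ c * R.τ y =
        M.τ (c * ι (y - a)) - M.τ c * R.τ (y - a) := by
      rw [map_sub, mul_sub, map_sub, map_sub, mul_sub, h1 a ha]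
      ring
    rw [e, zero_add]
    refine (norm_sub_le _ _).trans ?_
    have e1 : ‖M.τ (c * ι (y - a))‖ ≤ M.norm2 c * M.norm2 (ι (y - a)) :=
      abs_trace_le M.trAlg c _
    have e2 : ‖M.τ c‖ ≤ M.norm2 c := (ptr M.tw).norm_tr_le_n2 c
    have e3 : ‖R.τ (y - a)‖ ≤ R.norm2 (y - a) := (ptr R.tw).norm_tr_le_n2 _
    rw [n2_ι ι hι] at e1
    rw [norm_mul]
    have e4 : ‖M.τ c‖ * ‖R.τ (y - a)‖ ≤ M.norm2 c * R.norm2 (y - a) :=
      mul_le_mul e2 e3 (norm_nonneg _) hpos
    rw [lt_div_iff₀ (by positivity)] at hya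
    nlinarith [norm2_nonneg (M := R) (y - a)]
  exact sub_eq_zero.1 (norm_eq_zero.1 h2)

include hι hj hd in
/-- Existence of `σ`. -/
theorem exists_sig (D : Set M.E) (hD : ∀ d ∈ D, ∀ k x, d * ι (j k x) = ι (j k x) * d)
    (hdD : ∀ (x : M.E) (ε : ℝ), 0 < ε →
      ∃ y ∈ Algebra.adjoin ℂ (D ∪ ⋃ k, Set.range (ι.comp (j k))), M.norm2 (x - y) < ε) :
    Nonempty (Sig M R) := by
  set J : ℕ → (Matrix (Fin 2) (Fin 2) ℂ →⋆ₐ[ℂ] M.E) := fun k => ι.comp (j k) with hJ
  have hJc : ∀ k l, k ≠ l → ∀ x y, J k x * J l y = J l y * J k x := by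
    intro k l hkl x y
    show ι (j k x) * ι (j l y) = ι (j l y) * ι (j k x)
    rw [← map_mul, ← map_mul, hj k l hkl]
  have hv := isVN M.tw
  obtain ⟨w, S, hS⟩ := exists_sh (t := ptr M.tw) (D := D) (σ := fun k => 2 * k) hv hJc
    hD hdD (fun a b h => by simpa using h)
  obtain ⟨w', T, hT⟩ := exists_sh (t := ptr M.tw) (D := D) (σ := fun k => 2 * k + 1) hv hJc
    hD hdD (fun a b h => by simpa using h)
  have hTι : ∀ y, M.τ (T.comp ι y) = R.τ y := fun y => (hT.tr_eq (ι y)).trans (hι y)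
  have hTj : ∀ k x, T.comp ι (j k x) = J (2 * k + 1) x := fun k x => hT.apply_j hv k x
  have hSc : ∀ x k a, S x * T.comp ι (j k a) = T.comp ι (j k a) * S x := by
    intro x k a
    rw [hTj]
    refine (hS.comm_of hv _ (fun d hd => ?_) (fun l b => ?_) x).symm
    · exact (hD d hd _ _).symm
    · exact hJc _ _ (by omega) _ _
  refine ⟨{ α := S, β := T.comp ι, comm := fun x y => comm_all (T.comp ι) hTι j hd _ (hSc x) y,
            trace := fun x y => ?_, dense := ?_, wae := ?_ }⟩
  · rw [tr_prod (T.comp ι) hTι j hj hd _ (hSc x) y]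
    congr 1
    exact hS.tr_eq x
  · intro z ε hε
    obtain ⟨y, hy, hzy⟩ := hdD z ε hε
    refine ⟨y, ?_, hzy⟩
    clear hzy
    have hcm := fun x y => comm_all (T.comp ι) hTι j hd _ (hSc x) y
    set P := Submodule.span ℂ {w : M.E | ∃ x y, w = S x * T.comp ι y} with hP
    have hone : (1 : M.E) ∈ P := Submodule.subset_span ⟨1, 1, by rw [map_one, map_one, mul_one]⟩
    have hmul : ∀ x ∈ P, ∀ y ∈ P, x * y ∈ P := by
      intro x hx y hy
      induction hx using Submodule.span_induction with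
      | mem x hx =>
        obtain ⟨a, b, rfl⟩ := hx
        induction hy using Submodule.span_induction with
        | mem y hy =>
          obtain ⟨c, d, rfl⟩ := hy
          refine Submodule.subset_span ⟨a * c, b * d, ?_⟩
          rw [map_mul, map_mul]
          calc S a * T.comp ι b * (S c * T.comp ι d) = S a * (T.comp ι b * S c) * T.comp ι d := by
                simp only [mul_assoc]
            _ = S a * (S c * T.comp ι b) * T.comp ι d := by rw [hcm]
            _ = _ := by simp only [mul_assoc]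
        | zero => rw [mul_zero]; exact zero_mem _
        | add a b _ _ ha hb => rw [mul_add]; exact add_mem ha hb
        | smul r a _ ha => rw [mul_smul_comm]; exact Submodule.smul_mem _ _ ha
      | zero => rw [zero_mul]; exact zero_mem _
      | add a b _ _ ha hb => rw [add_mul]; exact add_mem ha hb
      | smul r a _ ha => rw [smul_mul_assoc]; exact Submodule.smul_mem _ _ ha
    induction hy using Algebra.adjoin_induction with
    | mem a ha =>
      rcases ha with ha | ha
      · refine Submodule.subset_span ⟨a, 1, ?_⟩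
        rw [hS.apply_D hv a ha, map_one, mul_one]
      · obtain ⟨k, y, rfl⟩ := Set.mem_iUnion.mp ha
        rcases Nat.even_or_odd' k with ⟨l, rfl | rfl⟩
        · refine Submodule.subset_span ⟨J l y, 1, ?_⟩
          rw [hS.apply_j hv, map_one, mul_one]
        · refine Submodule.subset_span ⟨1, j l y, ?_⟩
          rw [map_one, one_mul, hTj]
    | algebraMap r =>
      rw [Algebra.algebraMap_eq_smul_one]
      exact Submodule.smul_mem _ _ hone
    | add a b _ _ ha hb => exact add_mem ha hb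
    | mul a b _ _ ha hb => exact hmul _ ha _ hb
  · refine ⟨w, fun m => Unitary.mem_iff.2 ⟨hS.w1 m, hS.w2 m⟩, fun x => ?_⟩
    refine (hS.lim x).congr fun m => ?_
    exact (ptr M.tw).n2_sub_comm _ _

end prod

end Pool.Agent.W403.EP
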