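import Pool.Agent.W403.EP.TWA
import Pool.Agent.W403.EP.MX
import Pool.Agent.W403.EP.Sg

/-!
The tensor product of the group von Neumann algebra of an ICC group and the hyperfinite factor, as a
twisted group von Neumann algebra.
-/

set_option autoImplicit false

open scoped ComplexOrder Topology
open Filter

namespace Pool.Agent.W403.EP

open Pool.Agent.H504R3 (TVN)
open Pool.Agent.Helper436.SM (VV bf sf sg bf_add_left bf_add_right bf_zero_left bf_zero_right
  sg_mul_self sg_add vv_add_self)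

section dense

variable {G : Type} [Group G] (β : Bi G)

/-- density of a subalgebra that contains the canonical unitaries -/
theorem dense_S (K : Subgroup G) (S : Subalgebra ℂ (TK β (K : Set G)).E)
    (hS : ∀ g (hg : g ∈ (K : Set G)), LK β g hg ∈ S) (x : (TK β (K : Set G)).E) (ε : ℝ)
    (hε : 0 < ε) : ∃ y ∈ S, (TK β (K : Set G)).norm2 (x - y) < ε := by
  obtain ⟨y, hy, hxy⟩ := dense_K β K (opK β x) (opK_mem β x) ε hε
  have key : ∀ y ∈ Submodule.span ℂ (Lo β '' (K : Set G)), ∃ y' ∈ S, opK β y' = y := by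
    intro y hy
    induction hy using Submodule.span_induction with
    | mem y hy =>
      obtain ⟨g, hg, rfl⟩ := hy
      exact ⟨LK β g hg, hS g hg, rfl⟩
    | zero => exact ⟨0, zero_mem _, rfl⟩
    | add a b _ _ ha hb =>
      obtain ⟨a', ha, rfl⟩ := ha
      obtain ⟨b', hb, rfl⟩ := hb
      exact ⟨a' + b', add_mem ha hb, rfl⟩
    | smul c a _ ha =>
      obtain ⟨a', ha, rfl⟩ := ha
      exact ⟨c • a', Subalgebra.smul_mem _ ha _, rfl⟩
  obtain ⟨y', hy', rfl⟩ := key y hy
  refine ⟨y', hy', ?_⟩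
  rw [TK_norm2]
  exact hxy

end dense

section model

variable (L : Type) [Group L]

/-- the group -/
abbrev GV : Type := L × Multiplicative VV

/-- the cocycle -/
noncomputable def bV : Bi (GV L) where
  b x y := bf x.2.toAdd y.2.toAdd
  left _ _ _ := bf_add_left _ _ _
  right _ _ _ := bf_add_right _ _ _

/-- the subgroup of the Pauli strings -/
def K0 : Subgroup (GV L) where
  carrier := {x | x.1 = 1}
  one_mem' := rfl
  mul_mem' := by
    intro a b ha hb
    show a.1 * b.1 = 1
    rw [show a.1 = 1 from ha, show b.1 = 1 from hb, one_mul]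
  inv_mem' := by
    intro a ha
    show a.1⁻¹ = 1
    rw [show a.1 = 1 from ha, inv_one]

/-- the factor -/
noncomputable def MM : TVN := TK (bV L) ((⊤ : Subgroup (GV L)) : Set (GV L))

/-- the hyperfinite factor -/
noncomputable def NN : TVN := TK (bV L) (K0 L : Set (GV L))

/-- the inclusion -/
noncomputable def iN : (NN L).E →⋆ₐ[ℂ] (MM L).E :=
  StarSubalgebra.inclusion (S₁ := (NN L).N.toStarSubalgebra) (S₂ := (MM L).N.toStarSubalgebra)
    (fun x hx => NK_mono (bV L) (K := (K0 L : Set (GV L)))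
      (L := ((⊤ : Subgroup (GV L)) : Set (GV L))) (Set.subset_univ _) x hx)

theorem iN_tr (y : (NN L).E) : (MM L).τ (iN L y) = (NN L).τ y := rfl

/-- the Pauli strings -/
noncomputable def WV (v : VV) : (NN L).E :=
  LK (bV L) (1, Multiplicative.ofAdd v) (show ((1, Multiplicative.ofAdd v) : GV L) ∈ K0 L from rfl)

/-- the unitaries of the group -/
noncomputable def uL (l : L) : (MM L).E :=
  LK (bV L) (l, 1) (Set.mem_univ _)

theorem WV_zero : WV L 0 = 1 := LK_one (bV L) _

theorem WV_mul (v w : VV) : WV L v * WV L w = sg (bf v w) • WV L (v + w) := by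
  have h := LK_mul (bV L) (K := (K0 L : Set (GV L))) (1, Multiplicative.ofAdd v)
    (1, Multiplicative.ofAdd w) rfl rfl
    (show ((1, Multiplicative.ofAdd v) * (1, Multiplicative.ofAdd w) : GV L) ∈ K0 L from
      one_mul (1 : L))
  refine h.trans ?_
  congr 1
  exact Subtype.ext (congrArg (Lo (bV L)) (Prod.ext (one_mul (1 : L)) rfl))

theorem WV_star (v : VV) : star (WV L v) = sg (bf v v) • WV L v := by
  have h := star_LK (bV L) (K := (K0 L : Set (GV L))) (1, Multiplicative.ofAdd v) rfl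
    (show ((1, Multiplicative.ofAdd v)⁻¹ : GV L) ∈ K0 L from inv_one)
  refine h.trans ?_
  congr 1
  refine Subtype.ext (congrArg (Lo (bV L)) (Prod.ext inv_one ?_))
  show -v = v
  exact neg_eq_of_add_eq_zero_left (vv_add_self v)

theorem uL_mul (l m : L) : uL L l * uL L m = uL L (l * m) := by
  have h := LK_mul (bV L) (K := ((⊤ : Subgroup (GV L)) : Set (GV L))) (l, 1) (m, 1)
    (Set.mem_univ _) (Set.mem_univ _) (Set.mem_univ _)
  refine h.trans ?_
  have h2 : (bV L).b (l, 1) (m, 1) = 0 := bf_zero_left (0 : VV)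
  rw [h2, sg_zero, one_smul]
  exact Subtype.ext (congrArg (Lo (bV L)) (Prod.ext rfl (one_mul _)))

theorem uL_one : uL L 1 = 1 := LK_one (bV L) _

theorem uL_star (l : L) : star (uL L l) = uL L l⁻¹ := by
  have h := star_LK (bV L) (K := ((⊤ : Subgroup (GV L)) : Set (GV L))) (l, 1) (Set.mem_univ _)
    (Set.mem_univ _)
  refine h.trans ?_
  have h2 : (bV L).b (l, 1) (l, 1) = 0 := bf_zero_left (0 : VV)
  rw [h2, sg_zero, one_smul]
  exact Subtype.ext (congrArg (Lo (bV L)) (Prod.ext rfl inv_one))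

theorem uL_tr (l : L) (hl : l ≠ 1) : (MM L).τ (uL L l) = 0 := by
  classical
  have h := tr_LK (bV L) (K := ((⊤ : Subgroup (GV L)) : Set (GV L))) (l, 1) (Set.mem_univ _)
  refine h.trans (if_neg ?_)
  intro h1
  exact hl (congrArg Prod.fst h1)

/-- commutation, and the canonical unitaries as products -/
theorem uL_WV (l : L) (v : VV) : uL L l * iN L (WV L v) = iN L (WV L v) * uL L l ∧
    uL L l * iN L (WV L v) = LK (bV L) (K := ((⊤ : Subgroup (GV L)) : Set (GV L)))
      (l, Multiplicative.ofAdd v) (Set.mem_univ _) := by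
  have h1 := LK_mul (bV L) (K := ((⊤ : Subgroup (GV L)) : Set (GV L))) (l, 1)
    (1, Multiplicative.ofAdd v) (Set.mem_univ _) (Set.mem_univ _) (Set.mem_univ _)
  have h2 := LK_mul (bV L) (K := ((⊤ : Subgroup (GV L)) : Set (GV L)))
    (1, Multiplicative.ofAdd v) (l, 1) (Set.mem_univ _) (Set.mem_univ _) (Set.mem_univ _)
  have e1 : (bV L).b (l, 1) (1, Multiplicative.ofAdd v) = 0 := bf_zero_left v
  have e2 : (bV L).b (1, Multiplicative.ofAdd v) (l, 1) = 0 := bf_zero_right v
  rw [e1, sg_zero, one_smul] at h1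
  rw [e2, sg_zero, one_smul] at h2
  have e3 : ((l, 1) * (1, Multiplicative.ofAdd v) : GV L) = (l, Multiplicative.ofAdd v) :=
    Prod.ext (mul_one _) (one_mul _)
  have e4 : ((1, Multiplicative.ofAdd v) * (l, 1) : GV L) = (l, Multiplicative.ofAdd v) :=
    Prod.ext (one_mul _) (mul_one _)
  have h3 : uL L l * iN L (WV L v) = LK (bV L) (K := ((⊤ : Subgroup (GV L)) : Set (GV L)))
      (l, Multiplicative.ofAdd v) (Set.mem_univ _) :=
    h1.trans (Subtype.ext (congrArg (Lo (bV L)) e3))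
  have h4 : iN L (WV L v) * uL L l = LK (bV L) (K := ((⊤ : Subgroup (GV L)) : Set (GV L)))
      (l, Multiplicative.ofAdd v) (Set.mem_univ _) :=
    h2.trans (Subtype.ext (congrArg (Lo (bV L)) e4))
  exact ⟨h3.trans h4.symm, h3⟩

theorem bf_single (k l : ℕ) (a b : ZMod 2 × ZMod 2) :
    bf (Finsupp.single k a) (Finsupp.single l b) = if k = l then a.2 * b.1 else 0 := by
  classical
  unfold bf
  rw [Finsupp.sum_single_index (by simp), Finsupp.single_apply]
  by_cases h : k = l
  · subst h; simp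
  · rw [if_neg (Ne.symm h), if_neg h]; simp

/-- the Pauli matrices of the `k`-th copy -/
noncomputable def pX (k : ℕ) : (NN L).E := WV L (Finsupp.single k (1, 0))
/-- the Pauli matrices of the `k`-th copy -/
noncomputable def pZ (k : ℕ) : (NN L).E := WV L (Finsupp.single k (0, 1))

theorem single_add_self (k : ℕ) (a : ZMod 2 × ZMod 2) :
    (Finsupp.single k a + Finsupp.single k a : VV) = 0 := vv_add_self _

theorem sg_one : sg (1 : ZMod 2) = -1 := by unfold sg; rw [if_neg (by decide)]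

theorem pXX (k : ℕ) : pX L k * pX L k = 1 := by
  unfold pX
  rw [WV_mul, single_add_self, WV_zero, bf_single, if_pos rfl, zero_mul, sg_zero, one_smul]

theorem pZZ (k : ℕ) : pZ L k * pZ L k = 1 := by
  unfold pZ
  rw [WV_mul, single_add_self, WV_zero, bf_single, if_pos rfl, mul_zero, sg_zero, one_smul]

theorem pXs (k : ℕ) : star (pX L k) = pX L k := by
  unfold pX
  rw [WV_star, bf_single, if_pos rfl, zero_mul, sg_zero, one_smul]

theorem pZs (k : ℕ) : star (pZ L k) = pZ L k := by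
  unfold pZ
  rw [WV_star, bf_single, if_pos rfl, mul_zero, sg_zero, one_smul]

theorem pZX (k : ℕ) : pZ L k * pX L k = - (pX L k * pZ L k) := by
  unfold pX pZ
  rw [WV_mul, WV_mul, bf_single, bf_single, if_pos rfl, if_pos rfl, mul_one, zero_mul, sg_zero,
    one_smul, sg_one, neg_one_smul, add_comm]

theorem WV_comm (k l : ℕ) (h : k ≠ l) (a b : ZMod 2 × ZMod 2) :
    WV L (Finsupp.single k a) * WV L (Finsupp.single l b) =
      WV L (Finsupp.single l b) * WV L (Finsupp.single k a) := by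
  rw [WV_mul, WV_mul, bf_single, bf_single, if_neg h, if_neg (Ne.symm h), add_comm]

/-- the matrix copies -/
noncomputable def jV (k : ℕ) : Matrix (Fin 2) (Fin 2) ℂ →⋆ₐ[ℂ] (NN L).E :=
  muXZ (pX L k) (pZ L k) (pXs L k) (pZs L k) (pXX L k) (pZZ L k) (pZX L k)

theorem jV_comm (k l : ℕ) (h : k ≠ l) (a b : Matrix (Fin 2) (Fin 2) ℂ) :
    jV L k a * jV L l b = jV L l b * jV L k a := by
  refine muXZ_comm _ _ _ _ _ _ _ _ ?_ ?_ b
  · exact (muXZ_comm _ _ _ _ _ _ _ _ (WV_comm L l k (Ne.symm h) _ _)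
      (WV_comm L l k (Ne.symm h) _ _) a).symm
  · exact (muXZ_comm _ _ _ _ _ _ _ _ (WV_comm L l k (Ne.symm h) _ _)
      (WV_comm L l k (Ne.symm h) _ _) a).symm

theorem WV_mem (S : Subalgebra ℂ (NN L).E) (hS : ∀ k x, jV L k x ∈ S) (v : VV) : WV L v ∈ S := by
  have hadd : ∀ v w, WV L v ∈ S → WV L w ∈ S → WV L (v + w) ∈ S := by
    intro v w hv hw
    have : WV L (v + w) = sg (bf v w) • (WV L v * WV L w) := by
      rw [WV_mul, smul_smul, sg_mul_self, one_smul]
    rw [this]
    exact Subalgebra.smul_mem _ (mul_mem hv hw) _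
  have h0 : WV L 0 ∈ S := by rw [WV_zero]; exact one_mem _
  have hX : ∀ k, pX L k ∈ S := fun k => by
    have := hS k !![0, 1; 1, 0]
    unfold jV at this
    rwa [muXZ_X] at this
  have hZ : ∀ k, pZ L k ∈ S := fun k => by
    have := hS k !![1, 0; 0, -1]
    unfold jV at this
    rwa [muXZ_Z] at this
  have hz : ∀ a : ZMod 2, a = 0 ∨ a = 1 := by decide
  induction v using Finsupp.induction_linear with
  | zero => exact h0
  | add f g hf hg => exact hadd _ _ hf hg
  | single i c =>
    have e : (Finsupp.single i c : VV) = Finsupp.single i (c.1, 0) + Finsupp.single i (0, c.2) := by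
      rw [← Finsupp.single_add]
      simp
    rw [e]
    apply hadd
    · rcases hz c.1 with h | h
      · rw [h, show ((0 : ZMod 2), (0 : ZMod 2)) = 0 from rfl, Finsupp.single_zero]
        exact h0
      · rw [h]; exact hX i
    · rcases hz c.2 with h | h
      · rw [h, show ((0 : ZMod 2), (0 : ZMod 2)) = 0 from rfl, Finsupp.single_zero]
        exact h0
      · rw [h]; exact hZ i

theorem NN_dense (x : (NN L).E) (ε : ℝ) (hε : 0 < ε) :
    ∃ y ∈ Algebra.adjoin ℂ (⋃ k, Set.range (jV L k)), (NN L).norm2 (x - y) < ε := by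
  refine dense_S (bV L) (K0 L) (Algebra.adjoin ℂ (⋃ k, Set.range (jV L k))) ?_ x ε hε
  intro g hg
  have h1 := WV_mem L (Algebra.adjoin ℂ (⋃ k, Set.range (jV L k)))
    (fun k x => Algebra.subset_adjoin (Set.mem_iUnion.2 ⟨k, x, rfl⟩)) g.2.toAdd
  have e : WV L g.2.toAdd = LK (bV L) g hg := by
    refine Subtype.ext (congrArg (Lo (bV L)) (Prod.ext ?_ rfl))
    exact (show g.1 = 1 from hg).symm
  rw [e] at h1
  exact h1

theorem NN_hyp : (NN L).IsHyperfinite := ⟨jV L, jV_comm L, NN_dense L⟩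

theorem MM_dense (x : (MM L).E) (ε : ℝ) (hε : 0 < ε) :
    ∃ y ∈ Algebra.adjoin ℂ (Set.range (uL L) ∪ ⋃ k, Set.range ((iN L).comp (jV L k))),
      (MM L).norm2 (x - y) < ε := by
  set S := Algebra.adjoin ℂ (Set.range (uL L) ∪ ⋃ k, Set.range ((iN L).comp (jV L k))) with hS
  refine dense_S (bV L) ⊤ S ?_ x ε hε
  intro g hg
  have h1 : uL L g.1 ∈ S := Algebra.subset_adjoin (Or.inl ⟨_, rfl⟩)
  have h2 : iN L (WV L g.2.toAdd) ∈ S := by
    have := WV_mem L (S.comap (iN L).toAlgHom)
      (fun k x => Algebra.subset_adjoin (Or.inr (Set.mem_iUnion.2 ⟨k, x, rfl⟩))) g.2.toAdd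
    exact this
  have h3 := mul_mem h1 h2
  rw [(uL_WV L g.1 g.2.toAdd).2] at h3
  exact h3

theorem uL_iN (l : L) (y : (NN L).E) : uL L l * iN L y = iN L y * uL L l := by
  refine comm_all (iN L) (iN_tr L) (jV L) (NN_dense L) _ (fun k x => ?_) y
  have hX : uL L l * iN L (pX L k) = iN L (pX L k) * uL L l := (uL_WV L l _).1
  have hZ : uL L l * iN L (pZ L k) = iN L (pZ L k) * uL L l := (uL_WV L l _).1
  have hXZ : uL L l * iN L (pX L k * pZ L k) = iN L (pX L k * pZ L k) * uL L l := by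
    rw [map_mul, ← mul_assoc, hX, mul_assoc, hZ, mul_assoc]
  show uL L l * iN L (mxf (pX L k) (pZ L k) x) = iN L (mxf (pX L k) (pZ L k) x) * uL L l
  unfold mxf
  simp only [map_add, map_smul, map_one, mul_add, add_mul, mul_smul_comm, smul_mul_assoc, mul_one,
    one_mul, hX, hZ, hXZ]

theorem MM_factor (hL : ∀ l : L, l ≠ 1 → (Set.range fun g : L => g * l * g⁻¹).Infinite) :
    (MM L).IsIIOneFactor := by
  have : Infinite (GV L) := by
    have : Infinite (Multiplicative VV) := inferInstanceAs (Infinite VV)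
    infer_instance
  refine TK_factor (bV L) ?_
  intro k hk
  by_cases h : k.1 = 1
  · right
    have h2 : k.2.toAdd ≠ 0 := by
      intro h3
      exact hk (Prod.ext h h3)
    obtain ⟨s, hs⟩ := exists_sf _ h2
    refine ⟨(1, Multiplicative.ofAdd s), ?_, ?_⟩
    · refine Prod.ext ?_ ?_
      · show 1 * k.1 * 1⁻¹ = k.1
        rw [one_mul, inv_one, mul_one]
      · show Multiplicative.ofAdd s * k.2 * (Multiplicative.ofAdd s)⁻¹ = k.2
        rw [mul_comm (Multiplicative.ofAdd s) k.2, mul_inv_cancel_right]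
    · show bf k.2.toAdd s ≠ bf s k.2.toAdd
      intro h3
      unfold sf at hs
      rw [h3] at hs
      have : ∀ a : ZMod 2, a + a = 0 := by decide
      rw [this, sg_zero] at hs
      norm_num at hs
  · left
    have h1 := hL k.1 h
    intro hfin
    apply h1
    refine (hfin.image Prod.fst).subset ?_
    rintro _ ⟨g, rfl⟩
    exact ⟨_, ⟨(g, 1), rfl⟩, rfl⟩

/-- The model. -/
theorem exists_model [Countable L]
    (hL : ∀ l : L, l ≠ 1 → (Set.range fun g : L => g * l * g⁻¹).Infinite) :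
    ∃ (M R : TVN) (ι : R.E →⋆ₐ[ℂ] M.E) (u : L → M.E), M.IsIIOneFactor ∧ M.IsSeparable ∧
      R.IsHyperfinite ∧ Nonempty (Sig M R) ∧ (∀ y, M.τ (ι y) = R.τ y) ∧
      (∀ c : M.E, (∀ y, c * ι y = ι y * c) → ∀ y, M.τ (c * ι y) = M.τ c * R.τ y) ∧
      u 1 = 1 ∧ (∀ l m, u l * u m = u (l * m)) ∧ (∀ l, star (u l) = u l⁻¹) ∧
      (∀ l, l ≠ 1 → M.τ (u l) = 0) ∧ (∀ l y, u l * ι y = ι y * u l) := by
  have : Countable (GV L) := by
    have : Countable (Multiplicative VV) := inferInstanceAs (Countable VV)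
    infer_instance
  refine ⟨MM L, NN L, iN L, uL L, MM_factor L hL, TK_sep (bV L) _, NN_hyp L, ?_, iN_tr L, ?_,
    uL_one L, uL_mul L, uL_star L, uL_tr L, uL_iN L⟩
  · refine exists_sig (iN L) (iN_tr L) (jV L) (jV_comm L) (NN_dense L) (Set.range (uL L)) ?_
      (MM_dense L)
    rintro _ ⟨l, rfl⟩ k x
    exact uL_iN L l _
  · intro c hc y
    exact tr_prod (iN L) (iN_tr L) (jV L) (jV_comm L) (NN_dense L) c (fun k x => hc _) y

end model

end Pool.Agent.W403.EP
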