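import Pool.Agent.W403.EP.RHO
import Pool.Agent.W403.EP.ALG
import Pool.Agent.W403.EP.TWB
import Pool.Agent.W403.EP.GrpA

/-!
The main theorem: a separable C*-algebra `A` and a separable McDuff II_1 factor `M` such that
`Hom_w(A, M)` is nonempty and has no extreme point.
-/

set_option autoImplicit false
set_option linter.unusedSectionVars false

open scoped ComplexOrder Topology
open Filter

namespace Pool.Agent.W403.EP

open Pool.Agent.H504R3 (TVN)
open Pool.Agent.H518R4.UG (IsPrj)
open Polynomial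

section cube

/-- a primitive cube root of unity -/
noncomputable def om : ℂ := ⟨-1 / 2, Real.sqrt 3 / 2⟩

theorem om_star : star om = om * om := by
  have h3 : Real.sqrt 3 * Real.sqrt 3 = 3 := Real.mul_self_sqrt (by norm_num)
  apply Complex.ext
  · show (-1 / 2 : ℝ) = (-1 / 2) * (-1 / 2) - Real.sqrt 3 / 2 * (Real.sqrt 3 / 2)
    nlinarith
  · show -(Real.sqrt 3 / 2) = (-1 / 2) * (Real.sqrt 3 / 2) + Real.sqrt 3 / 2 * (-1 / 2)
    ring

theorem om_sum : 1 + om + om * om = 0 := by
  rw [← om_star]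
  apply Complex.ext
  · show (1 : ℝ) + -1 / 2 + -1 / 2 = 0
    norm_num
  · show (0 : ℝ) + Real.sqrt 3 / 2 + -(Real.sqrt 3 / 2) = 0
    ring

theorem om_cube : om * om * om = 1 := by
  have h := om_sum
  linear_combination (om - 1) * h

variable {A : Type} [Ring A] [StarRing A] [Algebra ℂ A] [StarModule ℂ A]

theorem cube_prj (v : A) (h3 : v * v * v = 1) (hs : star v = v * v) :
    IsStarProjection ((1 / 3 : ℂ) • (1 + v + v * v)) := by
  have h4 : v * (v * v) = 1 := by rw [← mul_assoc, h3]
  have h5 : v * v * (v * v) = v := by rw [← mul_assoc, h3, one_mul]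
  constructor
  · show (1 / 3 : ℂ) • (1 + v + v * v) * (1 / 3 : ℂ) • (1 + v + v * v) = _
    rw [smul_mul_smul_comm]
    have e : (1 + v + v * v) * (1 + v + v * v) = (3 : ℂ) • (1 + v + v * v) := by
      simp only [add_mul, mul_add, mul_one, one_mul, h3, h4, h5]
      module
    rw [e, smul_smul]
    norm_num
  · show star ((1 / 3 : ℂ) • (1 + v + v * v)) = _
    rw [star_smul, star_add, star_add, star_mul, star_one, hs, h5]
    have : star (1 / 3 : ℂ) = 1 / 3 := by simp
    rw [this, add_right_comm]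

variable {B : Type} [Ring B] [StarRing B] [Algebra ℂ B] [StarModule ℂ B]

/-- A nonscalar element of order three gives a projection. -/
theorem central_prj (π : A →⋆ₐ[ℂ] B) (v : A) (h3 : v * v * v = 1) (hs : star v = v * v)
    (hc : ∀ a, v * a = a * v) (hn : ∀ c : ℂ, π v ≠ c • (1 : B)) :
    ∃ a0, IsStarProjection (π a0) ∧ (∀ a, π a0 * π a = π a * π a0) ∧ π a0 ≠ 0 ∧ π a0 ≠ 1 := by
  set P : ℂ → A := fun c => (1 / 3 : ℂ) • (1 + c • v + (c • v) * (c • v)) with hP
  have hPp : ∀ c : ℂ, c * c * c = 1 → star c = c * c → IsStarProjection (P c) := by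
    intro c h1 h2
    refine cube_prj (c • v) ?_ ?_
    · rw [smul_mul_smul_comm, smul_mul_smul_comm, h1, h3, one_smul]
    · rw [star_smul, hs, h2, smul_mul_smul_comm]
  have hPc : ∀ c a, P c * a = a * P c := by
    intro c a
    have k1 : c • v * a = a * (c • v) := by rw [smul_mul_assoc, mul_smul_comm, hc]
    simp only [hP]
    generalize c • v = w at k1 ⊢
    have k2 : w * w * a = a * (w * w) := by rw [mul_assoc, k1, ← mul_assoc, k1, mul_assoc]
    rw [smul_mul_assoc, mul_smul_comm, add_mul, add_mul, mul_add, mul_add, one_mul, mul_one, k1,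
      k2]
  have key : ∀ c : ℂ, c * c * c = 1 → star c = c * c →
      (π (P c) = 0 ∨ π (P c) = 1) ∨
      ∃ a0, IsStarProjection (π a0) ∧ (∀ a, π a0 * π a = π a * π a0) ∧ π a0 ≠ 0 ∧ π a0 ≠ 1 := by
    intro c h1 h2
    by_cases h : π (P c) = 0 ∨ π (P c) = 1
    · exact Or.inl h
    · right
      push Not at h
      refine ⟨P c, (hPp c h1 h2).map π, fun a => ?_, h.1, h.2⟩
      rw [← map_mul, ← map_mul, hPc]
  rcases key 1 (by norm_num) (by simp) with h0 | h0
  swap
  · exact h0
  rcases key om om_cube om_star with h1 | h1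
  swap
  · exact h1
  rcases key (om * om) (by linear_combination (om * om * om + 1) * om_cube)
    (by rw [star_mul', om_star]) with h2 | h2
  swap
  · exact h2
  exfalso
  have hsc : ∀ x : B, x = 0 ∨ x = 1 → ∃ d : ℂ, x = d • (1 : B) := by
    rintro x (rfl | rfl)
    · exact ⟨0, by rw [zero_smul]⟩
    · exact ⟨1, by rw [one_smul]⟩
  obtain ⟨d0, hd0⟩ := hsc _ h0
  obtain ⟨d1, hd1⟩ := hsc _ h1
  obtain ⟨d2, hd2⟩ := hsc _ h2
  have hv : v = P 1 + (om * om) • P om + om • P (om * om) := by
    have e1 : P 1 + (om * om) • P om + om • P (om * om) =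
        ((1 / 3) * (1 + om + om * om)) • (1 : A) +
        ((1 / 3) * (1 + om * om * om + om * om * om)) • v +
        ((1 / 3) * (1 + (om * om * om) * om + (om * om * om) * (om * om))) • (v * v) := by
      simp only [hP, smul_mul_smul_comm]
      module
    rw [e1, om_cube, one_mul, one_mul, om_sum]
    norm_num
  apply hn (d0 + om * om * d1 + om * d2)
  clear_value P
  rw [hv, map_add, map_add, map_smul, map_smul, hd0, hd1, hd2]
  module

end cube

/-- **Main theorem.** -/
theorem main : ∃ (A : Type) (_ : CStarAlgebra A) (_ : TopologicalSpace.SeparableSpace A) (M : TVN),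
    IsMcDuff M ∧ Nonempty (HomW A M) ∧
    ∀ (R : TVN) (s : Sig M R), R.IsHyperfinite →
      Nonempty (Choice R) ∧ ∀ (c : Choice R) (x : HomW A M), ¬ s.IsExt c x := by
  obtain ⟨M, R, ι, u, hM, hsep, hR, hsig, hιt, htr, u1, um, us, ut, uc⟩ :=
    exists_model LL LL_icc
  -- the sequence of characters
  obtain ⟨x, hx1, hx2⟩ : ∃ x : ℕ → kk[X] → ℂ, (∀ i, IsCh (x i)) ∧ ∀ y ∈ Bad M, ∃ i, y = x i := by
    have hc : (insert (fun _ => (1 : ℂ)) (Bad M)).Countable := (bad_countable hsep).insert _
    obtain ⟨x, hx⟩ := hc.exists_eq_range ⟨_, Set.mem_insert _ _⟩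
    refine ⟨x, fun i => ?_, fun y hy => ?_⟩
    · have : x i ∈ insert (fun _ => (1 : ℂ)) (Bad M) := by rw [hx]; exact ⟨i, rfl⟩
      rcases this with h | h
      · rw [h]; exact one_isCh
      · exact bad_isCh h
    · have : y ∈ Set.range x := by rw [← hx]; exact Set.mem_insert_of_mem _ hy
      obtain ⟨i, hi⟩ := this
      exact ⟨i, hi.symm⟩
  obtain ⟨ρ, hρ⟩ := exists_rho hM (hyp_factor hR) ι htr
    (fun g => u (SemidirectProduct.inr g)) (by rw [map_one, u1]) (fun g h => by rw [um, map_mul])
    (fun g => by rw [us, map_inv])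
    (fun g hg => ut _ (fun h => hg (SemidirectProduct.inr_injective (h.trans (map_one _).symm))))
    (fun g y => uc _ _) x hx1
  obtain ⟨A, iA, iS, inc, v, hinc, hv, hcen⟩ :=
    exists_alg (B := Pool.Agent.H467F.Elt M.N) ρ
  refine ⟨A, iA, iS, M, ⟨hM, hsep, R, hR, hsig⟩, ⟨HomW.mk inc⟩, fun R' s hR' => ⟨?_, ?_⟩⟩
  · choose P hP1 hP2 using fun t : Set.Icc (0 : ℝ) 1 =>
      exists_prj (hyp_factor hR') t.1 t.2.1 t.2.2
    exact ⟨⟨P, hP1, hP2⟩⟩
  · intro c y
    refine no_ext hM ?_ hR' s c y
    intro π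
    have vm : ∀ g h, v g * v h = v (g * h) := by
      intro g h
      apply hinc
      rw [map_mul, hv, hv, hv, map_mul]
      rfl
    have v1 : v 1 = 1 := by
      apply hinc
      rw [hv, map_one, map_one]
      rfl
    have vs : ∀ g, star (v g) = v g⁻¹ := by
      intro g
      apply hinc
      rw [map_star, hv, hv, map_inv]
      rfl
    by_contra hcon
    -- all the central elements are scalars
    have hsc : ∀ f : kk[X], ∃ d : ℂ, π (v (nu f)) = d • (1 : M.E) := by
      intro f
      by_contra hn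
      push Not at hn
      apply hcon
      refine central_prj (B := Pool.Agent.H467F.Elt M.N) π (v (nu f)) ?_ ?_ ?_ hn
      · rw [vm, vm, nu_cube, v1]
      · rw [vs, vm]
        congr 1
        rw [inv_eq_iff_mul_eq_one, ← mul_assoc, nu_cube]
      · exact hcen _ fun g => by rw [vm, vm, nu_comm]
    choose d hd using hsc
    have hbad : d ∈ Bad M := by
      refine ⟨{ toFun := fun g => ⟨π (v g), ?_⟩, map_one' := ?_, map_mul' := ?_ }, hd⟩
      · rw [Unitary.mem_iff, ← map_star, ← map_mul, ← map_mul, vs, vm, vm, inv_mul_cancel,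
          mul_inv_cancel, v1, map_one]
        exact ⟨rfl, rfl⟩
      · apply Subtype.ext
        show π (v 1) = 1
        rw [v1, map_one]
      · intro g h
        apply Subtype.ext
        show π (v (g * h)) = π (v g) * π (v h)
        rw [← map_mul, vm]
    obtain ⟨i, hi⟩ := hx2 d hbad
    have h0 : ∑ f : degreeLT kk (i + 1), star (x i (f : kk[X])) • v (nu (f : kk[X])) = 0 := by
      apply hinc
      rw [map_sum, map_zero]
      simp only [map_smul, hv]
      exact hρ i
    have h1 := congrArg π h0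
    rw [map_sum, map_zero] at h1
    have h2 : ∀ f : degreeLT kk (i + 1), π (star (x i (f : kk[X])) • v (nu (f : kk[X]))) =
        (1 : M.E) := by
      intro f
      rw [map_smul, hd, hi, smul_smul, (hx1 i).nrm, one_smul]
    rw [Finset.sum_congr rfl fun f _ => h2 f, Finset.sum_const, Finset.card_univ,
      ← Nat.cast_smul_eq_nsmul ℂ] at h1
    have h3 := congrArg M.τ h1
    rw [map_smul, M.map_one, map_zero, smul_eq_mul, mul_one] at h3
    exact Fintype.card_ne_zero (Nat.cast_eq_zero.1 h3)

end Pool.Agent.W403.EP
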