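import Mathlib
import Pool.Agent.H504R3.SDefs

/-!
# Homomorphisms of a C*-algebra into a tracial von Neumann algebra: definitions

Unital star homomorphisms of a C*-algebra into a tracial von Neumann algebra, weak approximate
unitary equivalence, isomorphisms `σ` of the tensor product of `M` and `R` onto `M` with
`σ ∘ (id ⊗ 1) ∼ id`, McDuff factors.
-/

set_option autoImplicit false

namespace Pool.Agent.W403.EP.S

open Pool.Agent.H504R3.S (Str)

/-- `π` is a unital `*`-homomorphism from the C*-algebra `A` to `M`. -/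
structure IsRep {A : Type} [CStarAlgebra A] (M : Str) (π : A → M.carrier) : Prop where
  one : π 1 = M.one
  add : ∀ a b, π (a + b) = M.add (π a) (π b)
  mul : ∀ a b, π (a * b) = M.mul (π a) (π b)
  adj : ∀ a, π (star a) = M.adj (π a)
  scal : ∀ (c : ℂ) (a : A), π (c • a) = M.scal c (π a)

/-- Weak approximate unitary equivalence of maps from a set to `M`: there are unitaries `u n` of `M`
with `‖π(a) - u_n ρ(a) u_n^*‖₂ → 0` for all `a`. -/
def WAE {X : Type} (M : Str) (π ρ : X → M.carrier) : Prop :=
  ∃ u : ℕ → M.carrier, (∀ n, M.IsUnitary (u n)) ∧ ∀ (a : X) (ε : ℝ), 0 < ε → ∃ k, ∀ n, k ≤ n →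
    M.norm2 (M.sub (π a) (M.mul (M.mul (u n) (ρ a)) (M.adj (u n)))) < ε

/-- `M` and `R` are tracial von Neumann algebras and `σ(x ⊗ y) = α(x) β(y)` is an isomorphism of
their von Neumann algebra tensor product onto `M` (`α` and `β` are commuting copies of `M` and `R`
in `M` which generate `M`, and the trace of `M` is the product trace on them), such that
`σ ∘ (id ⊗ 1) = α` is weakly approximately unitarily equivalent to the identity of `M`. -/
structure Sig (M R : Str) where
  /-- `x ↦ σ(x ⊗ 1)` -/
  α : M.carrier → M.carrier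
  /-- `y ↦ σ(1 ⊗ y)` -/
  β : R.carrier → M.carrier
  tvnM : M.IsTVN
  tvnR : R.IsTVN
  homα : Str.IsHom M M α
  homβ : Str.IsHom R M β
  comm : ∀ x y, M.mul (α x) (β y) = M.mul (β y) (α x)
  trace : ∀ x y, M.tr (M.mul (α x) (β y)) = M.tr x * R.tr y
  gen : M.Generates (Sum.elim α β)
  wae : WAE M α id

/-- A separable McDuff II_1 factor: a separable II_1 factor `M` which is isomorphic to the tensor
product of `M` and the hyperfinite II_1 factor `R` (with an isomorphism as above). -/
structure IsMcDuff (M : Str) : Prop where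
  factor : M.IsIIOneFactor
  sep : M.IsSeparable
  mcduff : ∃ R : Str, R.IsHyperfinite ∧ Nonempty (Sig M R)

/-- `p` is a projection of `R`. -/
structure IsProj (R : Str) (p : R.carrier) : Prop where
  idem : R.mul p p = p
  adj : R.adj p = p

/-- The set of unital `*`-homomorphisms from the C*-algebra `A` to `M`. -/
def Rep (A : Type) [CStarAlgebra A] (M : Str) : Type := {π : A → M.carrier // IsRep M π}

/-- The map `a ↦ σ(π₁(a) ⊗ p + π₂(a) ⊗ (1 - p))`. -/
def Sig.combFun {A : Type} {M R : Str} (s : Sig M R) (p : R.carrier) (π₁ π₂ : A → M.carrier)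
    (a : A) : M.carrier :=
  M.add (M.mul (s.α (π₁ a)) (s.β p)) (M.mul (s.α (π₂ a)) (s.β (R.sub R.one p)))

end Pool.Agent.W403.EP.S
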