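import Mathlib
import Pool.Agent.H504R3.Tens

/-!
# Extreme points of weak approximate equivalence classes of homomorphisms: definitions

`HomW A M` is the set of classes of unital star homomorphisms of `A` into the tracial von Neumann
algebra `M` modulo weak approximate unitary equivalence; `Sig M R` is an isomorphism `σ` of the
tensor product of `M` and `R` onto `M` with `σ ∘ (id ⊗ 1) ∼ id`; `Sig.op` is the convex structure
on `HomW A M` given by `σ` and a choice of projections of `R`; `IsExt` says that a point is extreme.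
-/

set_option autoImplicit false

open Filter Topology

namespace Pool.Agent.W403.EP

open Pool.Agent.H504R3 (TVN)

section defs

variable {A : Type} [Ring A] [StarRing A] [Algebra ℂ A] {M R : TVN}

/-- Weak approximate unitary equivalence: there are unitaries `u n` of `M` with
`‖π(a) - u_n ρ(a) u_n^*‖₂ → 0` for all `a`. -/
def WAE (π ρ : A →⋆ₐ[ℂ] M.E) : Prop :=
  ∃ u : ℕ → M.E, (∀ n, u n ∈ unitary M.E) ∧
    ∀ a, Tendsto (fun n => M.norm2 (π a - u n * ρ a * star (u n))) atTop (𝓝 0)

/-- `σ(x ⊗ y) = α x * β y` is an isomorphism of the von Neumann algebra tensor product of `M` and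
`R` onto `M` (`α` and `β` are commuting copies of `M` and `R` in `M`, the trace of `M` is the product
trace on them, and the linear combinations of the products are dense in the 2-norm), and
`σ ∘ (id ⊗ 1) = α` is weakly approximately unitarily equivalent to the identity of `M`. -/
structure Sig (M R : TVN) where
  α : M.E →⋆ₐ[ℂ] M.E
  β : R.E →⋆ₐ[ℂ] M.E
  comm : ∀ x y, α x * β y = β y * α x
  trace : ∀ x y, M.τ (α x * β y) = M.τ x * R.τ y
  dense : ∀ (z : M.E) (ε : ℝ), 0 < ε →
    ∃ w ∈ Submodule.span ℂ {w : M.E | ∃ x y, w = α x * β y}, M.norm2 (z - w) < ε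
  wae : WAE α (StarAlgHom.id ℂ M.E)

/-- A separable McDuff II_1 factor: a separable II_1 factor `M` which is isomorphic to the tensor
product of `M` and the hyperfinite II_1 factor `R` (with an isomorphism as above). -/
structure IsMcDuff (M : TVN) : Prop where
  factor : M.IsIIOneFactor
  sep : M.IsSeparable
  mcduff : ∃ R : TVN, R.IsHyperfinite ∧ Nonempty (Sig M R)

/-- The homomorphism `a ↦ σ(π₁(a) ⊗ p + π₂(a) ⊗ (1 - p))`, for a projection `p` of `R`. -/
noncomputable def Sig.comb (s : Sig M R) (p : R.E) (hp : IsStarProjection p)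
    (π₁ π₂ : A →⋆ₐ[ℂ] M.E) : A →⋆ₐ[ℂ] M.E where
  toFun a := s.α (π₁ a) * s.β p + s.α (π₂ a) * s.β (1 - p)
  map_one' := by
    rw [map_one π₁, map_one π₂, map_one s.α, one_mul, one_mul, ← map_add, add_sub_cancel, map_one]
  map_mul' a b := by
    have h1 : s.β p * s.β p = s.β p := by rw [← map_mul, hp.isIdempotentElem.eq]
    have h2 : s.β (1 - p) * s.β (1 - p) = s.β (1 - p) := by
      rw [← map_mul, hp.isIdempotentElem.one_sub.eq]
    have h3 : s.β p * s.β (1 - p) = 0 := by
      rw [← map_mul, mul_sub, mul_one, hp.isIdempotentElem.eq, sub_self, map_zero]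
    have h4 : s.β (1 - p) * s.β p = 0 := by
      rw [← map_mul, sub_mul, one_mul, hp.isIdempotentElem.eq, sub_self, map_zero]
    have e : ∀ (x y : M.E) (c d : R.E), s.α x * s.β c * (s.α y * s.β d) =
        s.α (x * y) * (s.β c * s.β d) := by
      intro x y c d
      rw [map_mul, mul_assoc, ← mul_assoc (s.β c), ← s.comm y c]
      simp only [mul_assoc]
    rw [map_mul π₁, map_mul π₂, add_mul, mul_add, mul_add, e, e, e, e, h1, h2, h3, h4, mul_zero,
      mul_zero, add_zero, zero_add]
  map_zero' := by simp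
  map_add' a b := by
    rw [map_add, map_add, map_add, map_add, add_mul, add_mul]
    abel
  commutes' r := by
    simp only [AlgHomClass.commutes]
    rw [← mul_add, ← map_add, add_sub_cancel, map_one, mul_one]
  map_star' a := by
    have h1 : star (s.β p) = s.β p := by rw [← map_star, hp.isSelfAdjoint.star_eq]
    have h2 : star (s.β (1 - p)) = s.β (1 - p) := by
      rw [← map_star, star_sub, star_one, hp.isSelfAdjoint.star_eq]
    rw [star_add, star_mul, star_mul, h1, h2, ← map_star, ← map_star, ← map_star, ← map_star,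
      s.comm, s.comm]

theorem Sig.comb_apply (s : Sig M R) (p : R.E) (hp : IsStarProjection p)
    (π₁ π₂ : A →⋆ₐ[ℂ] M.E) (a : A) :
    s.comb p hp π₁ π₂ a = s.α (π₁ a) * s.β p + s.α (π₂ a) * s.β (1 - p) := rfl

open Pool.Agent.Helper278 in
theorem norm2_conj {u : M.E} (hu : u ∈ unitary M.E) (x : M.E) :
    M.norm2 (u * x * star u) = M.norm2 x := by
  rw [M.norm2_eq, M.norm2_eq]
  rw [Pool.Agent.H504R3.n2_isom_right M.trAlg (by
      rw [star_star]; exact (Unitary.mem_iff.1 hu).1),
    Pool.Agent.H504R3.n2_isom_left (Unitary.mem_iff.1 hu).1]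

theorem norm2_nonneg (x : M.E) : 0 ≤ M.norm2 x := Real.sqrt_nonneg _

theorem norm2_add_le (x y : M.E) : M.norm2 (x + y) ≤ M.norm2 x + M.norm2 y :=
  M.trAlg.n2_add_le x y

theorem norm2_sub_comm (x y : M.E) : M.norm2 (x - y) = M.norm2 (y - x) :=
  M.trAlg.n2_sub_comm x y

theorem norm2_zero : M.norm2 0 = 0 := M.trAlg.n2_zero

theorem WAE.refl (π : A →⋆ₐ[ℂ] M.E) : WAE π π :=
  ⟨fun _ => 1, fun _ => one_mem _, fun a => by simp [norm2_zero]⟩

theorem WAE.of_unitary {π ρ : A →⋆ₐ[ℂ] M.E} (u : M.E) (hu : u ∈ unitary M.E)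
    (h : ∀ a, π a = u * ρ a * star u) : WAE π ρ :=
  ⟨fun _ => u, fun _ => hu, fun a => by simp [h, norm2_zero]⟩

theorem WAE.symm {π ρ : A →⋆ₐ[ℂ] M.E} (h : WAE π ρ) : WAE ρ π := by
  obtain ⟨u, hu, h⟩ := h
  refine ⟨fun n => star (u n), fun n => Unitary.star_mem (hu n), fun a => ?_⟩
  refine (h a).congr fun n => ?_
  have h1 := (Unitary.mem_iff.1 (hu n)).1
  have e : ρ a - star (u n) * π a * star (star (u n)) =
      star (u n) * (u n * ρ a * star (u n) - π a) * star (star (u n)) := by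
    rw [star_star, mul_sub, sub_mul]
    congr 1
    calc ρ a = (star (u n) * u n) * ρ a * (star (u n) * u n) := by rw [h1, one_mul, mul_one]
      _ = _ := by simp only [mul_assoc]
  rw [e, norm2_conj (Unitary.star_mem (hu n)), norm2_sub_comm]

theorem WAE.trans {π ρ κ : A →⋆ₐ[ℂ] M.E} (h : WAE π ρ) (h' : WAE ρ κ) : WAE π κ := by
  obtain ⟨u, hu, h⟩ := h
  obtain ⟨v, hv, h'⟩ := h'
  refine ⟨fun n => u n * v n, fun n => mul_mem (hu n) (hv n), fun a => ?_⟩
  have h2 := (h a).add (h' a)
  rw [add_zero] at h2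
  refine squeeze_zero (fun n => norm2_nonneg _) (fun n => ?_) h2
  have e : π a - u n * v n * κ a * star (u n * v n) = (π a - u n * ρ a * star (u n)) +
      u n * (ρ a - v n * κ a * star (v n)) * star (u n) := by
    rw [star_mul]
    simp only [mul_sub, sub_mul, mul_assoc]
    abel
  rw [e]
  refine (norm2_add_le _ _).trans ?_
  rw [norm2_conj (hu n)]

end defs

/-- The setoid of weak approximate unitary equivalence. -/
def waeSetoid (A : Type) [Ring A] [StarRing A] [Algebra ℂ A] (M : TVN) :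
    Setoid (A →⋆ₐ[ℂ] M.E) where
  r := WAE
  iseqv := ⟨WAE.refl, WAE.symm, WAE.trans⟩

/-- `Hom_w(A, M)`: unital star homomorphisms modulo weak approximate unitary equivalence. -/
def HomW (A : Type) [Ring A] [StarRing A] [Algebra ℂ A] (M : TVN) : Type :=
  Quotient (waeSetoid A M)

section defs2

variable {A : Type} [Ring A] [StarRing A] [Algebra ℂ A] {M R : TVN}

/-- The class of a homomorphism. -/
def HomW.mk (π : A →⋆ₐ[ℂ] M.E) : HomW A M := Quotient.mk (waeSetoid A M) π

theorem HomW.mk_eq {π ρ : A →⋆ₐ[ℂ] M.E} : HomW.mk π = HomW.mk ρ ↔ WAE π ρ :=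
  Quotient.eq (r := waeSetoid A M)

theorem norm2_mul_le (x y : M.E) : M.norm2 (x * y) ≤ ‖x‖ * M.norm2 y := (M.n2_mul_le x y).1

theorem norm2_mul_le' (x y : M.E) : M.norm2 (x * y) ≤ M.norm2 x * ‖y‖ := (M.n2_mul_le y x).2

/-- the trace is preserved -/
theorem Sig.trα (s : Sig M R) (x : M.E) : M.τ (s.α x) = M.τ x := by
  have := s.trace x 1
  rwa [map_one, mul_one, R.map_one, mul_one] at this

theorem Sig.trβ (s : Sig M R) (y : R.E) : M.τ (s.β y) = R.τ y := by
  have := s.trace 1 y
  rwa [map_one, one_mul, M.map_one, one_mul] at this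

theorem Sig.n2α (s : Sig M R) (x : M.E) : M.norm2 (s.α x) = M.norm2 x := by
  unfold TVN.norm2
  rw [← map_star, ← map_mul, s.trα]

theorem Sig.n2β (s : Sig M R) (y : R.E) : M.norm2 (s.β y) = R.norm2 y := by
  unfold TVN.norm2
  rw [← map_star, ← map_mul, s.trβ]

theorem Sig.comb_congr (s : Sig M R) (p : R.E) (hp : IsStarProjection p)
    {π₁ π₂ ρ₁ ρ₂ : A →⋆ₐ[ℂ] M.E} (h1 : WAE π₁ ρ₁) (h2 : WAE π₂ ρ₂) :
    WAE (s.comb p hp π₁ π₂) (s.comb p hp ρ₁ ρ₂) := by
  obtain ⟨u, hu, h1⟩ := h1
  obtain ⟨v, hv, h2⟩ := h2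
  have q1 : s.β p * s.β p = s.β p := by rw [← map_mul, hp.isIdempotentElem.eq]
  have q2 : s.β (1 - p) * s.β (1 - p) = s.β (1 - p) := by
    rw [← map_mul, hp.isIdempotentElem.one_sub.eq]
  have q3 : s.β p * s.β (1 - p) = 0 := by
    rw [← map_mul, mul_sub, mul_one, hp.isIdempotentElem.eq, sub_self, map_zero]
  have q4 : s.β (1 - p) * s.β p = 0 := by
    rw [← map_mul, sub_mul, one_mul, hp.isIdempotentElem.eq, sub_self, map_zero]
  have q5 : star (s.β p) = s.β p := by rw [← map_star, hp.isSelfAdjoint.star_eq]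
  have q6 : star (s.β (1 - p)) = s.β (1 - p) := by
    rw [← map_star, star_sub, star_one, hp.isSelfAdjoint.star_eq]
  have q7 : s.β p + s.β (1 - p) = 1 := by rw [← map_add, add_sub_cancel, map_one]
  have e : ∀ (x y : M.E) (c d : R.E), s.α x * s.β c * (s.α y * s.β d) =
      s.α (x * y) * (s.β c * s.β d) := by
    intro x y c d
    rw [map_mul, mul_assoc, ← mul_assoc (s.β c), ← s.comm y c]
    simp only [mul_assoc]
  -- the unitaries
  have key : ∀ x y x' y' : M.E, (s.α x * s.β p + s.α y * s.β (1 - p)) *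
      (s.α x' * s.β p + s.α y' * s.β (1 - p)) =
      s.α (x * x') * s.β p + s.α (y * y') * s.β (1 - p) := by
    intro x y x' y'
    rw [add_mul, mul_add, mul_add, e, e, e, e, q1, q2, q3, q4, mul_zero, mul_zero, add_zero,
      zero_add]
  have kst : ∀ x y : M.E, star (s.α x * s.β p + s.α y * s.β (1 - p)) =
      s.α (star x) * s.β p + s.α (star y) * s.β (1 - p) := by
    intro x y
    rw [star_add, star_mul, star_mul, q5, q6, ← map_star, ← map_star, s.comm, s.comm]
  refine ⟨fun n => s.α (u n) * s.β p + s.α (v n) * s.β (1 - p), fun n => ?_, fun a => ?_⟩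
  · have a1 := Unitary.mem_iff.1 (hu n)
    have a2 := Unitary.mem_iff.1 (hv n)
    rw [Unitary.mem_iff, kst, key, key, a1.1, a1.2, a2.1, a2.2, map_one, one_mul, one_mul, q7]
    exact ⟨rfl, rfl⟩
  · have h3 := ((h1 a).mul_const ‖s.β p‖).add ((h2 a).mul_const ‖s.β (1 - p)‖)
    rw [zero_mul, zero_mul, add_zero] at h3
    refine squeeze_zero (fun n => norm2_nonneg _) (fun n => ?_) h3
    rw [kst, s.comb_apply, s.comb_apply, key, key]
    have e2 : s.α (π₁ a) * s.β p + s.α (π₂ a) * s.β (1 - p) -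
        (s.α (u n * ρ₁ a * star (u n)) * s.β p + s.α (v n * ρ₂ a * star (v n)) * s.β (1 - p)) =
        s.α (π₁ a - u n * ρ₁ a * star (u n)) * s.β p +
        s.α (π₂ a - v n * ρ₂ a * star (v n)) * s.β (1 - p) := by
      rw [map_sub s.α, map_sub s.α, sub_mul, sub_mul]
      abel
    rw [e2]
    refine (norm2_add_le _ _).trans (add_le_add ?_ ?_)
    · exact (norm2_mul_le' _ _).trans (by rw [s.n2α])
    · exact (norm2_mul_le' _ _).trans (by rw [s.n2α])

/-- The convex combination of classes given by the projection `p`: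
`τ(p) [π₁] + (1 - τ(p)) [π₂] = [a ↦ σ(π₁(a) ⊗ p + π₂(a) ⊗ (1 - p))]`. -/
noncomputable def Sig.cc (s : Sig M R) (p : R.E) (hp : IsStarProjection p)
    (y z : HomW A M) : HomW A M :=
  Quotient.map₂ (sa := waeSetoid A M) (sb := waeSetoid A M) (sc := waeSetoid A M)
    (s.comb p hp) (fun _ _ h1 _ _ h2 => s.comb_congr p hp h1 h2) y z

/-- A choice of a projection `P t` of trace `t` for every `t ∈ [0, 1]`. -/
structure Choice (R : TVN) where
  P : Set.Icc (0 : ℝ) 1 → R.E
  prj : ∀ t, IsStarProjection (P t)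
  tr : ∀ t, R.τ (P t) = ((t : ℝ) : ℂ)

/-- The convex structure on `HomW A M`: `s.op c t y z` is `t y + (1 - t) z`. -/
noncomputable def Sig.op (s : Sig M R) (c : Choice R) (t : Set.Icc (0 : ℝ) 1) (y z : HomW A M) :
    HomW A M := s.cc (c.P t) (c.prj t) y z

/-- `x` is extreme: `x = t y + (1 - t) z` with `0 < t < 1` forces `y = z = x`. -/
def Sig.IsExt (s : Sig M R) (c : Choice R) (x : HomW A M) : Prop :=
  ∀ t : Set.Icc (0 : ℝ) 1, 0 < (t : ℝ) → (t : ℝ) < 1 → ∀ y z : HomW A M, x = s.op c t y z →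
    y = x ∧ z = x

end defs2

end Pool.Agent.W403.EP
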