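import Mathlib
import Pool.Agent.H504R3.Bridge
import Pool.Agent.W403.EP.Defs
import Pool.Agent.W403.EP.SD

/-!
From the structures to the bundled tracial von Neumann algebras.
-/

set_option autoImplicit false
set_option linter.unusedSectionVars false

open Filter Topology

namespace Pool.Agent.W403.EP.S

open Pool.Agent.H504R3 (TVN)
open Pool.Agent.H504R3.S (Str str exists_tvn isTVN homOf hyp_of factor_of sub_eq norm2_eq Tm tval
  val_mem)

section bridge

variable {A : Type} [CStarAlgebra A]

/-- unital star homomorphisms, bundled -/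
noncomputable def repOf (T : TVN) (π : A → T.E) (h : IsRep (str T) π) : A →⋆ₐ[ℂ] T.E where
  toFun := π
  map_one' := h.one
  map_mul' := h.mul
  map_zero' := by
    have h2 : π ((0 : ℂ) • (0 : A)) = (0 : ℂ) • π (0 : A) := h.scal 0 (0 : A)
    rw [zero_smul, zero_smul] at h2
    exact h2
  map_add' := h.add
  commutes' c := by
    rw [Algebra.algebraMap_eq_smul_one, Algebra.algebraMap_eq_smul_one]
    have h2 : π (c • (1 : A)) = c • π (1 : A) := h.scal c (1 : A)
    have h3 : π (1 : A) = 1 := h.one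
    rw [h2, h3]
  map_star' := h.adj

theorem isRep (T : TVN) (π : A →⋆ₐ[ℂ] T.E) : IsRep (str T) (fun a => π a) where
  one := map_one π
  add := map_add π
  mul := map_mul π
  adj := map_star π
  scal := map_smul π

theorem isHom (N T : TVN) (α : N.E →⋆ₐ[ℂ] T.E) : Str.IsHom (str N) (str T) (fun a => α a) where
  one := map_one α
  add := map_add α
  mul := map_mul α
  adj := map_star α
  scal := map_smul α

theorem uni_iff (T : TVN) (u : T.E) : (str T).IsUnitary u ↔ u ∈ unitary T.E := by
  rw [Unitary.mem_iff]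
  exact Iff.rfl

theorem wae_iff {X : Type} [Ring X] [StarRing X] [Algebra ℂ X] (T : TVN) (π ρ : X →⋆ₐ[ℂ] T.E) :
    WAE (str T) (fun a => π a) (fun a => ρ a) ↔ Pool.Agent.W403.EP.WAE π ρ := by
  have key : ∀ (u : ℕ → T.E) (a : X), (∀ ε : ℝ, 0 < ε → ∃ k, ∀ n, k ≤ n →
      (str T).norm2 ((str T).sub (π a) ((str T).mul ((str T).mul (u n) (ρ a))
        ((str T).adj (u n)))) < ε) ↔
      Tendsto (fun n => T.norm2 (π a - u n * ρ a * star (u n))) atTop (𝓝 0) := by
    intro u a
    rw [Metric.tendsto_atTop]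
    refine forall_congr' fun ε => forall_congr' fun hε => exists_congr fun k =>
      forall_congr' fun n => forall_congr' fun hn => ?_
    rw [Real.dist_eq, sub_zero, abs_of_nonneg (norm2_nonneg _)]
    have e : (str T).norm2 ((str T).sub (π a) ((str T).mul ((str T).mul (u n) (ρ a))
        ((str T).adj (u n)))) = T.norm2 (π a - u n * ρ a * star (u n)) :=
      congrArg T.norm2 (sub_eq T (π a) (u n * ρ a * star (u n)))
    exact e ▸ Iff.rfl
  constructor
  · rintro ⟨u, hu, h⟩
    exact ⟨u, fun n => (uni_iff T _).1 (hu n), fun a => (key u a).1 (h a)⟩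
  · rintro ⟨u, hu, h⟩
    exact ⟨u, fun n => (uni_iff T _).2 (hu n), fun a => (key u a).2 (h a)⟩

theorem prj_iff (T : TVN) (p : T.E) : IsProj (str T) p ↔ IsStarProjection p :=
  ⟨fun h => ⟨h.1, h.2⟩, fun h => ⟨h.1, h.2⟩⟩

/-- the isomorphism, bundled -/
noncomputable def sigOf (T R : TVN) (s : Sig (str T) (str R)) : Pool.Agent.W403.EP.Sig T R where
  α := homOf T T s.α s.homα
  β := homOf R T s.β s.homβ
  comm := s.comm
  trace := s.trace
  dense := by
    set A := homOf T T s.α s.homα with hA
    set B := homOf R T s.β s.homβ with hB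
    have hcom : ∀ x y, A x * B y = B y * A x := s.comm
    intro z ε hε
    obtain ⟨t, h1⟩ := s.gen z ε hε
    have e : (str T).norm2 ((str T).sub z (t.val (str T) (Sum.elim s.α s.β))) =
        T.norm2 (z - tval T (Sum.elim s.α s.β) t) :=
      congrArg T.norm2 (sub_eq T z (tval T (Sum.elim s.α s.β) t))
    rw [e] at h1
    refine ⟨_, ?_, h1⟩
    set P := Submodule.span ℂ {w : T.E | ∃ x y, w = A x * B y} with hP
    have hone : (1 : T.E) ∈ P := Submodule.subset_span ⟨1, 1, by rw [map_one, map_one, mul_one]⟩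
    have hmul : ∀ x ∈ P, ∀ y ∈ P, x * y ∈ P := by
      intro x hx y hy
      induction hx using Submodule.span_induction with
      | mem x hx =>
        obtain ⟨a, b, rfl⟩ := hx
        induction hy using Submodule.span_induction with
        | mem y hy =>
          obtain ⟨c, d, rfl⟩ := hy
          refine Submodule.subset_span ⟨a * c, b * d, ?_⟩
          rw [map_mul, map_mul]
          calc A a * B b * (A c * B d) = A a * (B b * A c) * B d := by simp only [mul_assoc]
            _ = A a * (A c * B b) * B d := by rw [hcom]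
            _ = _ := by simp only [mul_assoc]
        | zero => rw [mul_zero]; exact zero_mem _
        | add a b _ _ ha hb => rw [mul_add]; exact add_mem ha hb
        | smul r a _ ha => rw [mul_smul_comm]; exact Submodule.smul_mem _ _ ha
      | zero => rw [zero_mul]; exact zero_mem _
      | add a b _ _ ha hb => rw [add_mul]; exact add_mem ha hb
      | smul r a _ ha => rw [smul_mul_assoc]; exact Submodule.smul_mem _ _ ha
    have hstar : ∀ x ∈ P, star x ∈ P := by
      intro x hx
      induction hx using Submodule.span_induction with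
      | mem x hx =>
        obtain ⟨a, b, rfl⟩ := hx
        refine Submodule.subset_span ⟨star a, star b, ?_⟩
        rw [star_mul, ← map_star, ← map_star, hcom]
      | zero => rw [star_zero]; exact zero_mem _
      | add a b _ _ ha hb => rw [star_add]; exact add_mem ha hb
      | smul r a _ ha => rw [star_smul]; exact Submodule.smul_mem _ _ ha
    refine val_mem T (Sum.elim s.α s.β) P hone hmul hstar (fun v => ?_) t
    cases v with
    | inl x => exact Submodule.subset_span ⟨x, 1, by rw [map_one, mul_one]; rfl⟩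
    | inr y => exact Submodule.subset_span ⟨1, y, by rw [map_one, one_mul]; rfl⟩
  wae := (wae_iff T _ (StarAlgHom.id ℂ T.E)).1 s.wae

theorem sigOf_comb (T R : TVN) (s : Sig (str T) (str R)) (p : R.E)
    (hp : IsProj (str R) p) (π₁ π₂ : A → T.E) (h1 : IsRep (str T) π₁) (h2 : IsRep (str T) π₂) :
    s.combFun p π₁ π₂ = fun a => (sigOf T R s).comb p ((prj_iff R p).1 hp) (repOf T π₁ h1) (repOf T π₂ h2) a := by
  funext a
  rw [Sig.comb_apply]
  have e : (str R).sub (str R).one p = (1 : R.E) - p := sub_eq R 1 p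
  exact congrArg (fun q => (str T).add ((str T).mul (s.α (π₁ a)) (s.β p))
      ((str T).mul (s.α (π₂ a)) (s.β q))) e

end bridge

section comb

variable {A : Type} [CStarAlgebra A] {M R : Str}

/-- the map `a ↦ σ(π₁(a) ⊗ p + π₂(a) ⊗ (1 - p))` is a homomorphism -/
theorem Sig.comb_isRep (s : Sig M R) (p : R.carrier) (hp : IsProj R p) (π₁ π₂ : Rep A M) :
    IsRep M (s.combFun p π₁.1 π₂.1) := by
  have hM := s.tvnM
  have hR := s.tvnR
  obtain ⟨T, rfl⟩ := exists_tvn M hM
  obtain ⟨T', rfl⟩ := exists_tvn R hR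
  rw [sigOf_comb T T' s p hp π₁.1 π₂.1 π₁.2 π₂.2]
  exact isRep T _

/-- convex combinations are compatible with weak approximate unitary equivalence -/
theorem Sig.comb_congr (s : Sig M R) (p : R.carrier) (hp : IsProj R p) (π₁ π₂ ρ₁ ρ₂ : Rep A M)
    (h1 : WAE M π₁.1 ρ₁.1) (h2 : WAE M π₂.1 ρ₂.1) :
    WAE M (s.combFun p π₁.1 π₂.1) (s.combFun p ρ₁.1 ρ₂.1) := by
  have hM := s.tvnM
  have hR := s.tvnR
  obtain ⟨T, rfl⟩ := exists_tvn M hM
  obtain ⟨T', rfl⟩ := exists_tvn R hR
  rw [sigOf_comb T T' s p hp π₁.1 π₂.1 π₁.2 π₂.2, sigOf_comb T T' s p hp ρ₁.1 ρ₂.1 ρ₁.2 ρ₂.2,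
    wae_iff]
  exact (sigOf T T' s).comb_congr p _ ((wae_iff T (repOf T _ π₁.2) (repOf T _ ρ₁.2)).1 h1)
    ((wae_iff T (repOf T _ π₂.2) (repOf T _ ρ₂.2)).1 h2)

theorem wae_refl (hM : M.IsTVN) (π : Rep A M) : WAE M π.1 π.1 := by
  obtain ⟨T, rfl⟩ := exists_tvn M hM
  exact (wae_iff T (repOf T _ π.2) (repOf T _ π.2)).2 (WAE.refl _)

/-- weak approximate unitary equivalence is an equivalence relation -/
theorem wae_equivalence (hM : M.IsTVN) : Equivalence (fun π ρ : Rep A M => WAE M π.1 ρ.1) := by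
  obtain ⟨T, rfl⟩ := exists_tvn M hM
  refine ⟨fun π => wae_refl (isTVN T) π, fun {π ρ} h => ?_, fun {π ρ κ} h h' => ?_⟩
  · exact (wae_iff T (repOf T _ ρ.2) (repOf T _ π.2)).2
      ((wae_iff T (repOf T _ π.2) (repOf T _ ρ.2)).1 h).symm
  · exact (wae_iff T (repOf T _ π.2) (repOf T _ κ.2)).2
      (((wae_iff T (repOf T _ π.2) (repOf T _ ρ.2)).1 h).trans
        ((wae_iff T (repOf T _ ρ.2) (repOf T _ κ.2)).1 h'))

end comb

end Pool.Agent.W403.EP.S
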