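import Mathlib
import Pool.Agent.W403.EP.SD
import Pool.Agent.W403.EP.SL

/-!
# Extreme points of weak approximate equivalence classes of homomorphisms: definitions

`HomW A M` is the set of classes of unital star homomorphisms of the C*-algebra `A` into the tracial
von Neumann algebra `M` modulo weak approximate unitary equivalence; `Sig.op` is the convex
structure on `HomW A M` given by `σ` and a choice of projections of `R`; `IsExt` says that a point
is extreme.
-/

set_option autoImplicit false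

namespace Pool.Agent.W403.EP.S

open Pool.Agent.H504R3.S (Str)

variable {A : Type} [CStarAlgebra A] {M R : Str}

/-- `Hom_w(A, M)`: unital `*`-homomorphisms modulo weak approximate unitary equivalence (it is an
equivalence relation if `M` is a tracial von Neumann algebra). -/
def HomW (A : Type) [CStarAlgebra A] (M : Str) : Type :=
  Quot (fun π ρ : Rep A M => WAE M π.1 ρ.1)

/-- The homomorphism `a ↦ σ(π₁(a) ⊗ p + π₂(a) ⊗ (1 - p))`, for a projection `p` of `R`. -/
def Sig.comb (s : Sig M R) (p : R.carrier) (hp : IsProj R p) (π₁ π₂ : Rep A M) : Rep A M :=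
  ⟨s.combFun p π₁.1 π₂.1, s.comb_isRep p hp π₁ π₂⟩

/-- The convex combination of classes given by the projection `p`:
`τ(p) [π₁] + (1 - τ(p)) [π₂] = [a ↦ σ(π₁(a) ⊗ p + π₂(a) ⊗ (1 - p))]`. -/
def Sig.cc (s : Sig M R) (p : R.carrier) (hp : IsProj R p) : HomW A M → HomW A M → HomW A M :=
  Quot.map₂ (s.comb p hp)
    (fun π ρ₁ ρ₂ h => s.comb_congr p hp π ρ₁ π ρ₂ (wae_refl s.tvnM π) h)
    (fun ρ₁ ρ₂ π h => s.comb_congr p hp ρ₁ π ρ₂ π h (wae_refl s.tvnM π))

/-- A choice of a projection `P t` of trace `t` for every `t ∈ [0, 1]`. -/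
structure Choice (R : Str) where
  /-- the projections -/
  P : Set.Icc (0 : ℝ) 1 → R.carrier
  prj : ∀ t, IsProj R (P t)
  tr : ∀ t, R.tr (P t) = ((t : ℝ) : ℂ)

/-- The convex structure on `HomW A M`: `s.op c t y z` is `t y + (1 - t) z`. -/
def Sig.op (s : Sig M R) (c : Choice R) (t : Set.Icc (0 : ℝ) 1) (y z : HomW A M) :
    HomW A M := s.cc (c.P t) (c.prj t) y z

/-- `x` is extreme: `x = t y + (1 - t) z` with `0 < t < 1` forces `y = z = x`. -/
def Sig.IsExt (s : Sig M R) (c : Choice R) (x : HomW A M) : Prop :=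
  ∀ t : Set.Icc (0 : ℝ) 1, 0 < (t : ℝ) → (t : ℝ) < 1 → ∀ y z : HomW A M, x = s.op c t y z →
    y = x ∧ z = x

end Pool.Agent.W403.EP.S
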