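import Mathlib
import Pool.Agent.W403.EP.SX
import Pool.Agent.W403.EP.Main

/-!
# The main theorem, for the structures
-/

set_option autoImplicit false
set_option linter.unusedSectionVars false

open Filter Topology

namespace Pool.Agent.W403.EP.S

open Pool.Agent.H504R3 (TVN)
open Pool.Agent.H504R3.S (Str str exists_tvn isTVN homOf hyp_of factor_of sub_eq norm2_eq Tm tval
  val_mem)

theorem exists_ortho (T : TVN) (h : ¬ FiniteDimensional ℂ T.E) (n : ℕ) :
    ∃ x : Fin n → T.E, ∀ i k, T.τ (star (x i) * x k) = if i = k then 1 else 0 := by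
  induction n with
  | zero => exact ⟨Fin.elim0, fun i => i.elim0⟩
  | succ n ih =>
    obtain ⟨x, hx⟩ := ih
    obtain ⟨y, hy⟩ : ∃ y : T.E, y ∉ Submodule.span ℂ (Set.range x) := by
      by_contra hcon
      push Not at hcon
      apply h
      have htop : Submodule.span ℂ (Set.range x) = ⊤ := by
        rw [eq_top_iff]
        intro y _
        exact hcon y
      exact Module.Finite.of_fg_top ⟨(Set.finite_range x).toFinset, by
        rw [Set.Finite.coe_toFinset]; exact htop⟩
    have hstar : ∀ a : T.E, T.τ (star a) = star (T.τ a) := fun a => T.trAlg.conj a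
    set z : T.E := y - ∑ i, T.τ (star (x i) * y) • x i with hz
    have hz1 : ∀ i, T.τ (star (x i) * z) = 0 := by
      intro i
      rw [hz, mul_sub, map_sub, Finset.mul_sum, map_sum, Finset.sum_eq_single i]
      · rw [mul_smul_comm, map_smul, hx, if_pos rfl, smul_eq_mul, mul_one, sub_self]
      · intro k _ hk
        rw [mul_smul_comm, map_smul, hx, if_neg (Ne.symm hk), smul_zero]
      · intro hi
        exact absurd (Finset.mem_univ i) hi
    have hz2 : ∀ i, T.τ (star z * x i) = 0 := by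
      intro i
      have := hstar (star (x i) * z)
      rw [star_mul, star_star, hz1, star_zero] at this
      exact this
    have hz0 : z ≠ 0 := by
      intro h0
      apply hy
      rw [hz, sub_eq_zero] at h0
      rw [h0]
      exact Submodule.sum_mem _ fun i _ => Submodule.smul_mem _ _
        (Submodule.subset_span ⟨i, rfl⟩)
    have hz3 : T.τ (star z * z) ≠ 0 := fun h0 => hz0 (T.faithful z h0)
    have hz4 : ((T.τ (star z * z)).re : ℂ) = T.τ (star z * z) := by
      have h1 := hstar (star z * z)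
      rw [star_mul, star_star] at h1
      exact Complex.conj_eq_iff_re.1 h1.symm
    have hz5 : 0 ≤ (T.τ (star z * z)).re := (Complex.le_def.1 (T.trAlg.nonneg z)).1
    have hz6 : 0 < (T.τ (star z * z)).re := by
      refine lt_of_le_of_ne hz5 fun h0 => hz3 ?_
      rw [← hz4, ← h0, Complex.ofReal_zero]
    set r : ℝ := Real.sqrt (T.τ (star z * z)).re with hr
    have hr0 : 0 < r := Real.sqrt_pos.2 hz6
    have hrr : ((r⁻¹ : ℝ) : ℂ) * ((r⁻¹ : ℝ) : ℂ) * T.τ (star z * z) = 1 := by
      rw [← hz4, ← Complex.ofReal_mul, ← Complex.ofReal_mul, ← mul_inv, hr,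
        Real.mul_self_sqrt hz5, inv_mul_cancel₀ (ne_of_gt hz6), Complex.ofReal_one]
    have hsr : star ((r⁻¹ : ℝ) : ℂ) = ((r⁻¹ : ℝ) : ℂ) := Complex.conj_ofReal _
    refine ⟨Fin.cons (((r⁻¹ : ℝ) : ℂ) • z) x, fun i k => ?_⟩
    refine Fin.cases ?_ (fun i => ?_) i <;> refine Fin.cases ?_ (fun k => ?_) k
    · simp only [Fin.cons_zero]
      rw [star_smul, smul_mul_smul_comm, map_smul, hsr, smul_eq_mul, hrr]
      simp
    · simp only [Fin.cons_zero, Fin.cons_succ]
      rw [star_smul, smul_mul_assoc, map_smul, hz2, smul_zero, if_neg (Fin.succ_ne_zero k).symm]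
    · simp only [Fin.cons_zero, Fin.cons_succ]
      rw [mul_smul_comm, map_smul, hz1, smul_zero, if_neg (Fin.succ_ne_zero i)]
    · simp only [Fin.cons_succ]
      rw [hx]
      simp only [Fin.succ_inj]

theorem isFactor (T : TVN) (h : T.IsIIOneFactor) : (str T).IsIIOneFactor where
  tvn := isTVN T
  center := h.center
  infinite := exists_ortho T h.infinite

theorem isSep (T : TVN) (h : T.IsSeparable) : (str T).IsSeparable := by
  obtain ⟨S, hS, h⟩ := h
  refine ⟨S, hS, fun x ε hε => ?_⟩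
  obtain ⟨y, hy, hxy⟩ := h x ε hε
  exact ⟨y, hy, lt_of_eq_of_lt (congrArg T.norm2 (sub_eq T x y)) hxy⟩

theorem isHyp (T : TVN) (h : T.IsHyperfinite) : (str T).IsHyperfinite := by
  obtain ⟨j, hj, hd⟩ := h
  have hmul : ∀ k (a b c d : Fin 2), j k (Matrix.single a b 1) * j k (Matrix.single c d 1) =
      if b = c then j k (Matrix.single a d 1) else 0 := by
    intro k a b c d
    rw [← map_mul]
    split_ifs with hbc
    · subst hbc
      rw [Matrix.single_mul_single_same, one_mul]
    · rw [Matrix.single_mul_single_of_ne (h := hbc), map_zero]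
  have hadj : ∀ k (a b : Fin 2), star (j k (Matrix.single a b 1)) =
      j k (Matrix.single b a 1) := by
    intro k a b
    rw [← map_star, Matrix.star_eq_conjTranspose, Matrix.conjTranspose_single, star_one]
  have hone : ∀ k, j k (Matrix.single 0 0 1) + j k (Matrix.single 1 1 1) = 1 := by
    intro k
    rw [← map_add, ← map_one (j k)]
    congr 1
    ext a b
    fin_cases a <;> fin_cases b <;> simp [Matrix.single]
  have hz : (str T).zero = (0 : T.E) := zero_smul ℂ (1 : T.E)
  refine ⟨isTVN T, fun k a b => j k (Matrix.single a b 1), fun k => ⟨?_, hadj k, hone k⟩,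
    fun k l hkl a b c d => hj k l hkl _ _, fun x ε hε => ?_⟩
  · intro a b c d
    refine (hmul k a b c d).trans ?_
    rw [hz]
    rfl
  · obtain ⟨y, hy, hxy⟩ := hd x ε hε
    set V := fun v : ℕ × Fin 2 × Fin 2 => j v.1 (Matrix.single v.2.1 v.2.2 1) with hV
    have key : ∃ t : Pool.Agent.H504R3.S.Tm (ℕ × Fin 2 × Fin 2), tval T V t = y := by
      clear hxy
      induction hy using Algebra.adjoin_induction with
      | mem a ha =>
        obtain ⟨k, m, rfl⟩ := Set.mem_iUnion.mp ha
        refine ⟨.add (.add (.scal (m 0 0) (.var (k, 0, 0))) (.scal (m 0 1) (.var (k, 0, 1))))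
          (.add (.scal (m 1 0) (.var (k, 1, 0))) (.scal (m 1 1) (.var (k, 1, 1)))), ?_⟩
        show m 0 0 • j k (Matrix.single 0 0 1) + m 0 1 • j k (Matrix.single 0 1 1) +
          (m 1 0 • j k (Matrix.single 1 0 1) + m 1 1 • j k (Matrix.single 1 1 1)) = j k m
        rw [← map_smul, ← map_smul, ← map_smul, ← map_smul, ← map_add, ← map_add, ← map_add]
        congr 1
        ext a b
        fin_cases a <;> fin_cases b <;> simp [Matrix.single]
      | algebraMap r =>
        refine ⟨.scal r .one, ?_⟩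
        rw [Algebra.algebraMap_eq_smul_one]
        rfl
      | add a b _ _ ha hb =>
        obtain ⟨s, hs⟩ := ha
        obtain ⟨t, ht⟩ := hb
        refine ⟨.add s t, ?_⟩
        rw [← hs, ← ht]
        rfl
      | mul a b _ _ ha hb =>
        obtain ⟨s, hs⟩ := ha
        obtain ⟨t, ht⟩ := hb
        refine ⟨.mul s t, ?_⟩
        rw [← hs, ← ht]
        rfl
    obtain ⟨t, ht⟩ := key
    refine ⟨t, ?_⟩
    refine lt_of_eq_of_lt (congrArg T.norm2 (sub_eq T x (tval T V t))) ?_
    rw [ht]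
    exact hxy

/-- the isomorphism of the structures -/
noncomputable def sigTo (T R : TVN) (s : Pool.Agent.W403.EP.Sig T R) : Sig (str T) (str R) where
  α := fun x => s.α x
  β := fun y => s.β y
  tvnM := isTVN T
  tvnR := isTVN R
  homα := isHom T T s.α
  homβ := isHom R T s.β
  comm := s.comm
  trace := s.trace
  gen := by
    intro z ε hε
    obtain ⟨w, hw, hzw⟩ := s.dense z ε hε
    set V : T.E ⊕ R.E → T.E := Sum.elim (fun x => s.α x) (fun y => s.β y) with hV
    have key : ∃ t : Pool.Agent.H504R3.S.Tm (T.E ⊕ R.E), tval T V t = w := by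
      clear hzw
      induction hw using Submodule.span_induction with
      | mem a ha =>
        obtain ⟨x, y, rfl⟩ := ha
        exact ⟨.mul (.var (.inl x)) (.var (.inr y)), rfl⟩
      | zero =>
        exact ⟨.scal 0 .one, zero_smul ℂ (1 : T.E)⟩
      | add a b _ _ ha hb =>
        obtain ⟨s, hs⟩ := ha
        obtain ⟨t, ht⟩ := hb
        refine ⟨.add s t, ?_⟩
        rw [← hs, ← ht]
        rfl
      | smul r a _ ha =>
        obtain ⟨s, hs⟩ := ha
        refine ⟨.scal r s, ?_⟩
        rw [← hs]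
        rfl
    obtain ⟨t, ht⟩ := key
    refine ⟨t, ?_⟩
    refine lt_of_eq_of_lt (congrArg T.norm2 (sub_eq T z (tval T V t))) ?_
    rw [ht]
    exact hzw
  wae := (wae_iff T s.α (StarAlgHom.id ℂ T.E)).2 s.wae

theorem isMcDuff (T : TVN) (h : Pool.Agent.W403.EP.IsMcDuff T) : IsMcDuff (str T) := by
  obtain ⟨h1, h2, R, hR, ⟨s⟩⟩ := h
  exact ⟨isFactor T h1, isSep T h2, str R, isHyp R hR, ⟨sigTo T R s⟩⟩

/-- **Main theorem**, for the structures. -/
theorem main : ∃ (A : Type) (_ : CStarAlgebra A) (_ : TopologicalSpace.SeparableSpace A) (M : Str),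
    IsMcDuff M ∧ Nonempty (HomW A M) ∧
    ∀ (R : Str) (s : Sig M R), R.IsHyperfinite →
      Nonempty (Choice R) ∧ ∀ (c : Choice R) (x : HomW A M), ¬ s.IsExt c x := by
  obtain ⟨A, iA, iS, T, h1, ⟨h2⟩, h3⟩ := Pool.Agent.W403.EP.main
  refine ⟨A, iA, iS, str T, isMcDuff T h1, ?_, fun R s hR => ?_⟩
  · induction h2 using Quotient.ind with
    | _ π => exact ⟨Quot.mk _ ⟨fun a => π a, isRep T π⟩⟩
  · have hR0 := s.tvnR
    obtain ⟨R, rfl⟩ := exists_tvn R hR0
    obtain ⟨⟨c0⟩, h4⟩ := h3 R (sigOf T R s) (hyp_of R hR)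
    refine ⟨⟨⟨c0.P, fun t => (prj_iff R _).2 (c0.prj t), c0.tr⟩⟩, fun c x hx => ?_⟩
    induction x using Quot.ind with
    | mk π =>
      refine h4 ⟨c.P, fun t => (prj_iff R _).1 (c.prj t), c.tr⟩
        (Pool.Agent.W403.EP.HomW.mk (repOf T π.1 π.2)) ?_
      intro t ht0 ht1 y z hyz
      induction y using Quotient.ind with
      | _ π₁ =>
      induction z using Quotient.ind with
      | _ π₂ =>
      have hw : Pool.Agent.W403.EP.WAE (repOf T π.1 π.2)
          ((sigOf T R s).comb (c.P t) ((prj_iff R _).1 (c.prj t)) π₁ π₂) :=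
        Pool.Agent.W403.EP.HomW.mk_eq.1 hyz
      set ρ₁ : Rep A (str T) := ⟨fun a => π₁ a, isRep T π₁⟩ with hρ₁
      set ρ₂ : Rep A (str T) := ⟨fun a => π₂ a, isRep T π₂⟩ with hρ₂
      have e := sigOf_comb T R s (c.P t) (c.prj t) ρ₁.1 ρ₂.1 ρ₁.2 ρ₂.2
      have hw2 : WAE (str T) π.1 (s.comb (c.P t) (c.prj t) ρ₁ ρ₂).1 := by
        have : (s.comb (c.P t) (c.prj t) ρ₁ ρ₂).1 = _ := e
        rw [this]
        exact (wae_iff T (repOf T π.1 π.2) _).2 hw
      have h5 := hx t ht0 ht1 (Quot.mk _ ρ₁) (Quot.mk _ ρ₂) (Quot.sound hw2)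
      have conv : ∀ κ : A →⋆ₐ[ℂ] T.E, (Quot.mk (fun π ρ : Rep A (str T) => WAE (str T) π.1 ρ.1)
          ⟨fun a => κ a, isRep T κ⟩ = Quot.mk (fun π ρ : Rep A (str T) => WAE (str T) π.1 ρ.1) π) →
          Pool.Agent.W403.EP.HomW.mk κ = Pool.Agent.W403.EP.HomW.mk (repOf T π.1 π.2) := by
        intro κ hκ
        have := congrArg (Quot.lift
          (fun ρ : Rep A (str T) => Pool.Agent.W403.EP.HomW.mk (repOf T ρ.1 ρ.2))
          (fun ρ ρ' h => Pool.Agent.W403.EP.HomW.mk_eq.2
            ((wae_iff T (repOf T ρ.1 ρ.2) (repOf T ρ'.1 ρ'.2)).1 h))) hκ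
        exact this
      exact ⟨conv π₁ h5.1, conv π₂ h5.2⟩

end Pool.Agent.W403.EP.S
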