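import Pool.Agent.Helper234.BrownF

/-!
Shift endomorphisms of a tracial von Neumann algebra generated by a sequence of commuting copies of
the `2 × 2` matrices and a set of elements that commute with them.
-/

set_option autoImplicit false

open scoped BoundedContinuousFunction ComplexOrder Topology InnerProductSpace
open Filter

namespace Pool.Agent.W403.EP

open Pool.Agent.Helper234.Brown

variable {R : Type} [CStarAlgebra R] {t : PTr R}

section flips

variable (j : ℕ → (Matrix (Fin 2) (Fin 2) ℂ →⋆ₐ[ℂ] R))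
variable (hj : ∀ k l, k ≠ l → ∀ x y, j k x * j l y = j l y * j k x)
include hj

lemma exists_flip (a b : ℕ) : ∃ F : R, star F = F ∧ F * F = 1 ∧ (∀ x, F * j a x = j b x * F) ∧
    (∀ x, F * j b x = j a x * F) ∧ (∀ l, l ≠ a → l ≠ b → ∀ x, F * j l x = j l x * F) ∧
    (∀ d, (∀ k x, d * j k x = j k x * d) → F * d = d * F) := by
  by_cases hab : a = b
  · subst hab
    exact ⟨1, star_one _, one_mul _, fun x => by rw [one_mul, mul_one],
      fun x => by rw [one_mul, mul_one], fun l _ _ x => by rw [one_mul, mul_one],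
      fun d _ => by rw [one_mul, mul_one]⟩
  · obtain ⟨e, he0, he1⟩ : ∃ e : Equiv.Perm ℕ, e 0 = a ∧ e 1 = b := by
      set c := Equiv.swap 0 a 1 with hc
      have hca : a ≠ c := by
        intro h
        have h1 : Equiv.swap 0 a 0 = Equiv.swap 0 a 1 := by
          rw [Equiv.swap_apply_left]; exact h
        exact absurd ((Equiv.swap 0 a).injective h1) (by norm_num)
      refine ⟨(Equiv.swap 0 a).trans (Equiv.swap c b), ?_, ?_⟩
      · rw [Equiv.trans_apply, Equiv.swap_apply_left]
        exact Equiv.swap_apply_of_ne_of_ne hca hab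
      · rw [Equiv.trans_apply, ← hc, Equiv.swap_apply_left]
    have hj' : ∀ k l, k ≠ l → ∀ x y, (fun n => j (e n)) k x * (fun n => j (e n)) l y =
        (fun n => j (e n)) l y * (fun n => j (e n)) k x := fun k l hkl x y =>
      hj (e k) (e l) (fun h => hkl (e.injective h)) x y
    refine ⟨Pool.Agent.Helper234.Brown.flip (fun n => j (e n)) 0, flip_star _ hj' 0, flip_sq _ hj' 0, ?_, ?_, ?_, ?_⟩
    · intro x
      have := flip_mul_j _ hj' 0 x
      simp only [zero_add] at this
      rw [he0, he1] at this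
      exact this
    · intro x
      have h1 := flip_mul_j _ hj' 0 x
      have h2 := flip_sq _ hj' 0
      simp only [zero_add] at h1
      rw [he0, he1] at h1
      set F := Pool.Agent.Helper234.Brown.flip (fun n => j (e n)) 0
      calc F * j b x = F * (j b x * F) * F := by rw [mul_assoc, mul_assoc, h2, mul_one]
        _ = F * (F * j a x) * F := by rw [h1]
        _ = j a x * F := by rw [← mul_assoc F F, h2, one_mul]
    · intro l hla hlb x
      have h1 := flip_comm _ hj' 0 (e.symm l)
        (fun h => hla (by rw [← he0, ← h, Equiv.apply_symm_apply]))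
        (fun h => hlb (by
          rw [zero_add] at h
          rw [← he1, ← h, Equiv.apply_symm_apply])) x
      simp only [Equiv.apply_symm_apply] at h1
      exact h1
    · intro d hd
      unfold Pool.Agent.Helper234.Brown.flip
      rw [Finset.sum_mul, Finset.mul_sum]
      refine Finset.sum_congr rfl fun c _ => ?_
      rw [Finset.sum_mul, Finset.mul_sum]
      refine Finset.sum_congr rfl fun c' _ => ?_
      rw [mul_assoc, ← hd, ← mul_assoc, ← hd, mul_assoc]

lemma exists_w (σ : ℕ → ℕ) (hσ : Function.Injective σ) (m : ℕ) :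
    ∃ (w : R) (π : Equiv.Perm ℕ), star w * w = 1 ∧ w * star w = 1 ∧
      (∀ k x, w * j k x = j (π k) x * w) ∧ (∀ k, k < m → π k = σ k) ∧
      (∀ d, (∀ k x, d * j k x = j k x * d) → w * d = d * w) := by
  induction m with
  | zero =>
    exact ⟨1, 1, by simp, by simp, fun k x => by simp, fun k hk => absurd hk (Nat.not_lt_zero _),
      fun d _ => by simp⟩
  | succ m ih =>
    obtain ⟨w, π, h1, h2, h3, h4, h5⟩ := ih
    obtain ⟨F, f1, f2, f3, f4, f5, f6⟩ := exists_flip j hj (π m) (σ m)
    refine ⟨F * w, π.trans (Equiv.swap (π m) (σ m)), ?_, ?_, ?_, ?_, ?_⟩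
    · rw [star_mul, f1]
      calc star w * F * (F * w) = star w * (F * F) * w := by simp only [mul_assoc]
        _ = 1 := by rw [f2, mul_one, h1]
    · rw [star_mul, f1]
      calc F * w * (star w * F) = F * (w * star w) * F := by simp only [mul_assoc]
        _ = 1 := by rw [h2, mul_one, f2]
    · intro k x
      rw [mul_assoc, h3, ← mul_assoc, Equiv.trans_apply]
      by_cases ha : π k = π m
      · rw [ha, f3, Equiv.swap_apply_left, mul_assoc]
      · by_cases hb : π k = σ m
        · rw [hb, f4, Equiv.swap_apply_right, mul_assoc]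
        · rw [f5 _ ha hb, Equiv.swap_apply_of_ne_of_ne ha hb, mul_assoc]
    · intro k hk
      rw [Equiv.trans_apply]
      rcases Nat.lt_succ_iff_lt_or_eq.mp hk with hk | hk
      · rw [h4 k hk, Equiv.swap_apply_of_ne_of_ne]
        · intro h
          rw [← h4 k hk] at h
          exact absurd (π.injective h) hk.ne
        · intro h
          exact absurd (hσ h) hk.ne
      · subst hk
        rw [Equiv.swap_apply_left]
    · intro d hd
      rw [mul_assoc, h5 d hd, ← mul_assoc, f6 d hd, mul_assoc]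

end flips

/-- shift data -/
structure IsSh (t : PTr R) (j : ℕ → (Matrix (Fin 2) (Fin 2) ℂ →⋆ₐ[ℂ] R)) (D : Set R) (σ : ℕ → ℕ)
    (w : ℕ → R) (S : R →⋆ₐ[ℂ] R) : Prop where
  hj : ∀ k l, k ≠ l → ∀ x y, j k x * j l y = j l y * j k x
  hD : ∀ d ∈ D, ∀ k x, d * j k x = j k x * d
  hd : ∀ x, ∀ ε : ℝ, 0 < ε →
    ∃ y ∈ Algebra.adjoin ℂ (D ∪ ⋃ k, Set.range (j k)), t.n2 (x - y) < ε
  w1 : ∀ m, star (w m) * w m = 1
  w2 : ∀ m, w m * star (w m) = 1
  wj : ∀ m k, k < m → ∀ x, w m * j k x = j (σ k) x * w m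
  wd : ∀ m, ∀ d, (∀ k x, d * j k x = j k x * d) → w m * d = d * w m
  lim : ∀ x, Tendsto (fun m => t.n2 (w m * x * star (w m) - S x)) atTop (𝓝 0)
  tr_eq : ∀ x, t.tr (S x) = t.tr x

section exist

variable {j : ℕ → (Matrix (Fin 2) (Fin 2) ℂ →⋆ₐ[ℂ] R)} {D : Set R} {σ : ℕ → ℕ}

/-- Existence of shifts. -/
theorem exists_sh (hv : IsVN t)
    (hj : ∀ k l, k ≠ l → ∀ x y, j k x * j l y = j l y * j k x)
    (hD : ∀ d ∈ D, ∀ k x, d * j k x = j k x * d)
    (hd : ∀ x, ∀ ε : ℝ, 0 < ε →
      ∃ y ∈ Algebra.adjoin ℂ (D ∪ ⋃ k, Set.range (j k)), t.n2 (x - y) < ε)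
    (hσ : Function.Injective σ) : ∃ w S, IsSh t j D σ w S := by
  choose w π h1 h2 h3 h4 h5 using exists_w j hj σ hσ
  have hwj : ∀ m k, k < m → ∀ x, w m * j k x = j (σ k) x * w m := fun m k hk x => by
    rw [h3, h4 m k hk]
  have hev : ∀ a ∈ Algebra.adjoin ℂ (D ∪ ⋃ k, Set.range (j k)),
      ∃ m₀ b, ∀ m ≥ m₀, w m * a * star (w m) = b := by
    intro a ha
    induction ha using Algebra.adjoin_induction with
    | mem x hx =>
      rcases hx with hx | hx
      · refine ⟨0, x, fun m _ => ?_⟩
        rw [h5 m x (hD x hx), mul_assoc, h2, mul_one]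
      · obtain ⟨k, y, rfl⟩ := Set.mem_iUnion.mp hx
        refine ⟨k + 1, j (σ k) y, fun m hm => ?_⟩
        rw [hwj m k (by omega), mul_assoc, h2, mul_one]
    | algebraMap r =>
      refine ⟨0, algebraMap ℂ R r, fun m _ => ?_⟩
      rw [← Algebra.commutes, mul_assoc, h2, mul_one]
    | add x y _ _ hx hy =>
      obtain ⟨m1, b1, k1⟩ := hx
      obtain ⟨m2, b2, k2⟩ := hy
      refine ⟨max m1 m2, b1 + b2, fun m hm => ?_⟩
      rw [mul_add, add_mul, k1 m (le_trans (le_max_left _ _) hm),
        k2 m (le_trans (le_max_right _ _) hm)]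
    | mul x y _ _ hx hy =>
      obtain ⟨m1, b1, k1⟩ := hx
      obtain ⟨m2, b2, k2⟩ := hy
      refine ⟨max m1 m2, b1 * b2, fun m hm => ?_⟩
      rw [← k1 m (le_trans (le_max_left _ _) hm), ← k2 m (le_trans (le_max_right _ _) hm)]
      rw [show w m * x * star (w m) * (w m * y * star (w m)) =
        w m * x * (star (w m) * w m) * y * star (w m) by simp only [mul_assoc],
        h1, mul_one, ← mul_assoc]
  obtain ⟨S, hS1, hS2⟩ := exists_limit_hom hv (fun m => conjHom (w m) (h1 m) (h2 m))
    (fun m x => tr_conj t _ (h1 m) x) (by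
      intro x ε hε
      obtain ⟨y, hy, hxy⟩ := hd x (ε / 2) (by positivity)
      obtain ⟨m₀, b, hb⟩ := hev y hy
      refine ⟨m₀, fun m hm n hn => ?_⟩
      simp only [conjHom_apply]
      have e : w m * x * star (w m) - w n * x * star (w n) =
          w m * (x - y) * star (w m) - w n * (x - y) * star (w n) := by
        simp only [mul_sub, sub_mul, hb m hm, hb n hn]; abel
      rw [e]
      refine (t.n2_sub_le _ _).trans_lt ?_
      rw [n2_conj t _ (h1 m), n2_conj t _ (h1 n)]
      linarith)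
  exact ⟨w, S, hj, hD, hd, h1, h2, hwj, h5, hS1, hS2⟩

end exist

namespace IsSh

variable {j : ℕ → (Matrix (Fin 2) (Fin 2) ℂ →⋆ₐ[ℂ] R)} {D : Set R} {σ : ℕ → ℕ} {w : ℕ → R}
  {S : R →⋆ₐ[ℂ] R}

lemma n2_eq (h : IsSh t j D σ w S) (x : R) : t.n2 (S x) = t.n2 x := by
  rw [PTr.n2, PTr.n2, ← map_star, ← map_mul, h.tr_eq]

lemma inj (h : IsSh t j D σ w S) (hv : IsVN t) {x y : R} (hxy : S x = S y) : x = y := by
  have h1 : t.n2 (x - y) = 0 := by rw [← h.n2_eq, map_sub, hxy, sub_self, t.n2_zero]
  exact sub_eq_zero.mp (hv.n2_eq_zero h1)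

lemma apply_j (h : IsSh t j D σ w S) (hv : IsVN t) (k : ℕ) (x : Matrix (Fin 2) (Fin 2) ℂ) :
    S (j k x) = j (σ k) x := by
  refine hv.lim_unique (h.lim (j k x)) ?_
  refine tendsto_const_nhds.congr' ?_
  filter_upwards [eventually_ge_atTop (k+1)] with m hm
  rw [h.wj m k (by omega), mul_assoc, h.w2, mul_one, sub_self, t.n2_zero]

lemma apply_c (h : IsSh t j D σ w S) (hv : IsVN t) (d : R) (hd : ∀ k x, d * j k x = j k x * d) :
    S d = d := by
  refine hv.lim_unique (h.lim d) ?_
  refine tendsto_const_nhds.congr fun m => ?_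
  rw [h.wd m d hd, mul_assoc, h.w2, mul_one, sub_self, t.n2_zero]

lemma apply_D (h : IsSh t j D σ w S) (hv : IsVN t) (d : R) (hd : d ∈ D) : S d = d :=
  h.apply_c hv d (h.hD d hd)

/-- Elements that commute with `S D` and the `j (σ k)` commute with the range of `S`. -/
lemma comm_of (h : IsSh t j D σ w S) (hv : IsVN t) (c : R) (hc1 : ∀ d ∈ D, c * d = d * c)
    (hc2 : ∀ k x, c * j (σ k) x = j (σ k) x * c) (y : R) : c * S y = S y * c := by
  have h1 : ∀ a ∈ Algebra.adjoin ℂ (D ∪ ⋃ k, Set.range (j k)), c * S a = S a * c := by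
    intro a ha
    induction ha using Algebra.adjoin_induction with
    | mem a ha =>
      rcases ha with ha | ha
      · rw [h.apply_D hv a ha, hc1 a ha]
      · obtain ⟨k, y, rfl⟩ := Set.mem_iUnion.mp ha
        rw [h.apply_j hv, hc2]
    | algebraMap r => rw [AlgHomClass.commutes, Algebra.commutes]
    | add a b _ _ ha hb => rw [map_add, mul_add, add_mul, ha, hb]
    | mul a b _ _ ha hb => rw [map_mul, ← mul_assoc, ha, mul_assoc, hb, mul_assoc]
  have h2 : t.n2 (c * S y - S y * c) = 0 := by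
    apply le_antisymm _ (t.n2_nonneg _)
    apply le_of_forall_pos_le_add
    intro ε hε
    have hpos : 0 < 2 * ‖c‖ + 1 := by positivity
    obtain ⟨a, ha, hya⟩ := h.hd y (ε / (2 * ‖c‖ + 1)) (by positivity)
    have e : c * S y - S y * c = c * S (y - a) - S (y - a) * c := by
      rw [map_sub, mul_sub, sub_mul, h1 a ha]; abel
    rw [e, zero_add]
    refine (t.n2_sub_le _ _).trans ?_
    have e1 := t.n2_mul_le c (S (y - a))
    have e2 := t.n2_mul_le' (S (y - a)) c
    rw [h.n2_eq] at e1 e2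
    have e3 : t.n2 (y - a) * (2 * ‖c‖ + 1) ≤ ε := by
      rw [lt_div_iff₀ hpos] at hya; exact hya.le
    nlinarith [t.n2_nonneg (y - a)]
  exact sub_eq_zero.mp (hv.n2_eq_zero h2)

lemma comm (h : IsSh t j D (fun k => k + 1) w S) (hv : IsVN t) (x : Matrix (Fin 2) (Fin 2) ℂ)
    (y : R) : j 0 x * S y = S y * j 0 x :=
  h.comm_of hv _ (fun d hd => (h.hD d hd 0 x).symm) (fun k z => h.hj 0 (k + 1) (by omega) _ _) y

/-- elements of the algebraic part in the shifted form -/
lemma form (h : IsSh t j D (fun k => k + 1) w S) (hv : IsVN t) (a : R)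
    (ha : a ∈ Algebra.adjoin ℂ (D ∪ ⋃ k, Set.range (j k))) :
    ∃ f : Fin 2 → Fin 2 → R, a = ∑ p, ∑ q, j 0 (mu p q) * S (f p q) := by
  have hc := h.comm hv
  have hS : ∀ y, ∃ f : Fin 2 → Fin 2 → R, S y = ∑ p, ∑ q, j 0 (mu p q) * S (f p q) := by
    intro y
    refine ⟨fun p q => if p = q then y else 0, ?_⟩
    have : ∀ p q : Fin 2, j 0 (mu p q) * S (if p = q then y else 0) =
        if p = q then j 0 (mu p p) * S y else 0 := by
      intro p q
      split_ifs with h
      · subst h; rfl
      · simp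
    simp only [this, Finset.sum_ite_eq, Finset.mem_univ, if_true]
    rw [← Finset.sum_mul, ← map_sum, sum_mu, map_one, one_mul]
  induction ha using Algebra.adjoin_induction with
  | mem x hx =>
    rcases hx with hx | hx
    · rw [← h.apply_D hv x hx]
      exact hS _
    · obtain ⟨k, y, rfl⟩ := Set.mem_iUnion.mp hx
      rcases k with _ | k
      · refine ⟨fun p q => algebraMap ℂ R (y p q), ?_⟩
        conv_lhs => rw [mat_eq_sum y]
        simp only [map_sum, map_smul]
        refine Finset.sum_congr rfl fun c _ => Finset.sum_congr rfl fun d _ => ?_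
        rw [AlgHomClass.commutes, Algebra.algebraMap_eq_smul_one, mul_smul_comm, mul_one]
      · rw [← h.apply_j hv k y]
        exact hS _
  | algebraMap r =>
    have := hS (algebraMap ℂ R r)
    rwa [AlgHomClass.commutes] at this
  | add x y _ _ hx hy =>
    obtain ⟨f, rfl⟩ := hx
    obtain ⟨g, rfl⟩ := hy
    refine ⟨fun p q => f p q + g p q, ?_⟩
    simp only [map_add, mul_add, Finset.sum_add_distrib]
  | mul x y _ _ hx hy =>
    obtain ⟨f, rfl⟩ := hx
    obtain ⟨g, rfl⟩ := hy
    refine ⟨fun p q => ∑ r, f p r * g r q, ?_⟩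
    have key : ∀ p r r' q, j 0 (mu p r) * S (f p r) * (j 0 (mu r' q) * S (g r' q)) =
        if r = r' then j 0 (mu p q) * S (f p r * g r q) else 0 := by
      intro p r r' q
      rw [show j 0 (mu p r) * S (f p r) * (j 0 (mu r' q) * S (g r' q)) =
        j 0 (mu p r) * (S (f p r) * j 0 (mu r' q)) * S (g r' q) by simp only [mul_assoc], ← hc,
        show j 0 (mu p r) * (j 0 (mu r' q) * S (f p r)) * S (g r' q) =
        (j 0 (mu p r) * j 0 (mu r' q)) * (S (f p r) * S (g r' q)) by simp only [mul_assoc],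
        ← map_mul, mu_mul]
      split_ifs with h
      · subst h; rw [map_mul]
      · simp
    rw [Finset.sum_mul]
    refine Finset.sum_congr rfl fun p _ => ?_
    rw [Finset.sum_mul]
    have k2 : ∀ r : Fin 2, j 0 (mu p r) * S (f p r) * ∑ p', ∑ q, j 0 (mu p' q) * S (g p' q) =
        ∑ q, j 0 (mu p q) * S (f p r * g r q) := by
      intro r
      simp only [Finset.mul_sum, key]
      rw [Finset.sum_comm]
      refine Finset.sum_congr rfl fun q _ => ?_
      simp
    simp only [k2]
    rw [Finset.sum_comm]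
    refine Finset.sum_congr rfl fun q _ => ?_
    rw [map_sum, Finset.mul_sum]

lemma avg_form (h : IsSh t j D (fun k => k + 1) w S) (hv : IsVN t) (a : R)
    (ha : a ∈ Algebra.adjoin ℂ (D ∪ ⋃ k, Set.range (j k))) : ∃ b, IsShift.avg j a = S b := by
  obtain ⟨f, rfl⟩ := h.form hv a ha
  refine ⟨((1 : ℂ) / 2) • ∑ l, f l l, ?_⟩
  unfold IsShift.avg
  rw [map_smul]
  congr 1
  have key : ∀ p q : Fin 2, j 0 (mu p q) * (∑ c, ∑ d, j 0 (mu c d) * S (f c d)) * j 0 (mu q p) =
      j 0 (mu p p) * S (f q q) := by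
    intro p q
    have k2 : ∀ c d : Fin 2, j 0 (mu p q) * (j 0 (mu c d) * S (f c d)) * j 0 (mu q p) =
        if q = c then (if d = q then j 0 (mu p p) * S (f c d) else 0) else 0 := by
      intro c d
      rw [show j 0 (mu p q) * (j 0 (mu c d) * S (f c d)) * j 0 (mu q p) =
        (j 0 (mu p q) * j 0 (mu c d)) * (S (f c d) * j 0 (mu q p)) by simp only [mul_assoc],
        ← h.comm hv, ← mul_assoc, ← map_mul, ← map_mul, mu_mul]
      split_ifs with h1 h2
      · rw [mu_mul, if_pos h2]
      · rw [mu_mul, if_neg h2]; simp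
      · simp
    simp only [Finset.mul_sum, Finset.sum_mul, k2]
    simp
  simp only [key]
  simp only [← Finset.mul_sum, ← Finset.sum_mul, ← map_sum, sum_mu, map_one, one_mul]

lemma surj (h : IsSh t j D (fun k => k + 1) w S) (hv : IsVN t) (z : R)
    (hz : ∀ x, j 0 x * z = z * j 0 x) : ∃ c, S c = z := by
  have hu1 := h.w1
  have hu2 := h.w2
  -- conjugation of values of S converges
  have hconv : ∀ b, Tendsto (fun m => t.n2 (star (w m) * S b * w m - b)) atTop (𝓝 0) := by
    intro b
    refine (h.lim b).congr (fun m => ?_)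
    have e : w m * b * star (w m) - S b =
        -(w m * (star (w m) * S b * w m - b) * star (w m)) := by
      rw [mul_sub, sub_mul, show w m * (star (w m) * S b * w m) * star (w m) =
        (w m * star (w m)) * S b * (w m * star (w m)) by simp only [mul_assoc],
        hu2 m, one_mul, mul_one]
      abel
    rw [e, t.n2_neg, n2_conj t _ (hu1 m)]
  have happ : ∀ ε : ℝ, 0 < ε → ∃ b, t.n2 (z - S b) < ε := by
    intro ε hε
    obtain ⟨a, ha, hza⟩ := h.hd z (ε / 2) (by positivity)
    obtain ⟨b, hb⟩ := h.avg_form hv a ha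
    refine ⟨b, ?_⟩
    have e : z - S b = IsShift.avg j (z - a) := by
      have : IsShift.avg j (z - a) = IsShift.avg j z - IsShift.avg j a := by
        simp only [IsShift.avg, mul_sub, sub_mul, Finset.sum_sub_distrib, smul_sub]
      rw [this, hb, IsShift.avg_of_comm z hz]
    rw [e]
    have := IsShift.n2_avg_le t j (z - a)
    linarith
  have hn : ∀ m x, t.n2 (star (w m) * x * w m) = t.n2 x := by
    intro m x
    rw [t.n2_mul_unitary (hu2 m), t.n2_unitary_mul (by simpa using (hu2 m))]
  obtain ⟨c, -, hc⟩ := hv.complete' (fun m => star (w m) * z * w m) ‖z‖ (by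
    intro m
    have h1 : ‖w m‖ ≤ 1 := by
      rcases subsingleton_or_nontrivial R with hs | hs
      · rw [Subsingleton.elim (w m) 0]; simp
      · have : w m ∈ unitary R := Unitary.mem_iff.mpr ⟨hu1 m, hu2 m⟩
        rw [CStarRing.norm_of_mem_unitary this]
    calc ‖star (w m) * z * w m‖ ≤ ‖star (w m)‖ * ‖z‖ * ‖w m‖ := by
          refine (norm_mul_le _ _).trans ?_
          gcongr
          exact norm_mul_le _ _
      _ ≤ 1 * ‖z‖ * 1 := by
          rw [norm_star]; gcongr
      _ = ‖z‖ := by ring) (by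
    intro ε hε
    obtain ⟨b, hb⟩ := happ (ε / 4) (by positivity)
    have h1 := (tendsto_order.1 (hconv b)).2 (ε / 4) (by positivity)
    obtain ⟨N, hN⟩ := eventually_atTop.mp h1
    refine ⟨N, fun m hm n hn' => ?_⟩
    have e : star (w m) * z * w m - star (w n) * z * w n =
      (star (w m) * (z - S b) * w m - star (w n) * (z - S b) * w n) +
      ((star (w m) * S b * w m - b) - (star (w n) * S b * w n - b)) := by
      simp only [mul_sub, sub_mul]; abel
    rw [e]
    refine (t.n2_add_le _ _).trans_lt ?_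
    have e1 := t.n2_sub_le (star (w m) * (z - S b) * w m) (star (w n) * (z - S b) * w n)
    rw [hn, hn] at e1
    have e2 := t.n2_sub_le (star (w m) * S b * w m - b) (star (w n) * S b * w n - b)
    have e3 := hN m hm
    have e4 := hN n hn'
    linarith)
  refine ⟨c, ?_⟩
  refine hv.lim_unique (h.lim c) ?_
  refine hc.congr (fun m => ?_)
  have e : w m * c * star (w m) - z =
      -(w m * (star (w m) * z * w m - c) * star (w m)) := by
    rw [mul_sub, sub_mul, show w m * (star (w m) * z * w m) * star (w m) =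
      (w m * star (w m)) * z * (w m * star (w m)) by simp only [mul_assoc],
      hu2 m, one_mul, mul_one]
    abel
  rw [e, t.n2_neg, n2_conj t _ (hu1 m)]

/-- the trace of a corner -/
lemma tr_corner (h : IsSh t j D (fun k => k + 1) w S) (hv : IsVN t) (i : Fin 2) (x : R) :
    t.tr (j 0 (mu i i) * S x) = t.tr x / 2 := by
  have h1 : t.tr (j 0 (mu 0 0) * S x) = t.tr (j 0 (mu 1 1) * S x) := by
    have e0 : j 0 (mu 0 0) = j 0 (mu 0 1) * j 0 (mu 1 0) := by rw [← map_mul, mu_mul, if_pos rfl]
    have e1 : j 0 (mu 1 1) = j 0 (mu 1 0) * j 0 (mu 0 1) := by rw [← map_mul, mu_mul, if_pos rfl]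
    rw [e0, mul_assoc, t.tr_comm, h.comm hv, mul_assoc, ← e1, ← h.comm hv]
  have h2 : t.tr (j 0 (mu 0 0) * S x) + t.tr (j 0 (mu 1 1) * S x) = t.tr x := by
    rw [← map_add, ← add_mul, ← map_add, show mu 0 0 + mu 1 1 = 1 by
      rw [← sum_mu, Fin.sum_univ_two], map_one, one_mul, h.tr_eq]
  fin_cases i
  · show t.tr (j 0 (mu 0 0) * S x) = _
    rw [← h2, ← h1]; ring
  · show t.tr (j 0 (mu 1 1) * S x) = _
    rw [← h2, h1]; ring

end IsSh

end Pool.Agent.W403.EP
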