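import Pool.Agent.W403.EP.Defs
import Pool.Agent.W403.EP.Sh
import Pool.Agent.H518R4.UG.ALIGN
import Pool.Agent.H518R4.UG.LIMP
import Pool.Agent.Helper467.FP.P_lib_equiv
import Pool.Agent.Helper467.FP.P_lib_half
import Pool.Agent.Helper467.FP.P_tau_bounds

/-!
Basic facts: the bridge between the frameworks, the hyperfinite factor is a II_1 factor,
projections of any trace, unitaries between projections of the same trace.
-/

set_option autoImplicit false

open scoped ComplexOrder Topology
open Filter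

namespace Pool.Agent.W403.EP

open Pool.Agent.H504R3 (TVN)
open Pool.Agent.Helper234.Brown (PTr IsVN)
open Pool.Agent.H518R4.UG (IsPrj)

section bridge

variable {A : Type} [CStarAlgebra A] {τ : A →ₗ[ℂ] ℂ}

/-- the trace as a tracial state -/
noncomputable def ptr (h : Pool.Agent.H467F.TW τ) : PTr A where
  tr := τ
  tr_one := h.one
  tr_comm := h.comm
  tr_nonneg := h.nonneg

theorem ptr_n2 (h : Pool.Agent.H467F.TW τ) (x : A) : (ptr h).n2 x = Pool.Agent.H467F.n2 τ x := rfl

theorem isVN (h : Pool.Agent.H467F.TW τ) : IsVN (ptr h) where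
  faithful := h.faithful
  complete := by
    intro x hx hc
    choose N hN using fun k : ℕ => hc ((1 / 2) ^ k) (by positivity)
    set φ : ℕ → ℕ := fun k => ∑ i ∈ Finset.range (k + 1), N i with hφ
    have hφN : ∀ k i, i ≤ k → N i ≤ φ k := fun k i hi =>
      Finset.single_le_sum (f := N) (fun _ _ => Nat.zero_le _) (Finset.mem_range.2 (by omega))
    obtain ⟨y, hy1, hy2⟩ := h.complete (fun k => x (φ k)) (fun k => hx _) (fun k =>
      (hN k _ (hφN k k le_rfl) _ (hφN (k + 1) k (by omega))).le)
    refine ⟨y, hy1, ?_⟩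
    rw [Metric.tendsto_atTop]
    intro ε hε
    obtain ⟨K1, hK1⟩ := (Metric.tendsto_atTop.1 hy2) (ε / 2) (by positivity)
    obtain ⟨K2, hK2⟩ := exists_pow_lt_of_lt_one (show (0 : ℝ) < ε / 2 by positivity)
      (show (1 / 2 : ℝ) < 1 by norm_num)
    set k := max K1 K2 with hk
    refine ⟨φ k, fun n hn => ?_⟩
    have h1 := hK1 k (le_max_left _ _)
    rw [Real.dist_eq, sub_zero, abs_of_nonneg (Pool.Agent.H467F.n2_nonneg _ _)] at h1
    have h2 : (1 / 2 : ℝ) ^ k ≤ (1 / 2) ^ K2 :=
      pow_le_pow_of_le_one (by norm_num) (by norm_num) (le_max_right _ _)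
    have h3 := hN k n ((hφN k k le_rfl).trans hn) (φ k) (hφN k k le_rfl)
    have h4 := (ptr h).n2_sub_tri (x n) (x (φ k)) y
    rw [Real.dist_eq, sub_zero, abs_of_nonneg ((ptr h).n2_nonneg _)]
    change (ptr h).n2 (x (φ k) - y) < ε / 2 at h1
    linarith

end bridge

section tvn

variable {M R : TVN}

theorem pos_n2 (x : M.E) : M.norm2 x = (ptr M.tw).n2 x := rfl

theorem isPrj_iff {x : M.E} : IsPrj x ↔ IsStarProjection x :=
  ⟨fun h => ⟨h.2, h.1⟩, fun h => ⟨h.isSelfAdjoint, h.isIdempotentElem⟩⟩

/-- projections with the same trace are unitarily equivalent -/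
theorem exists_unitary (hM : M.IsIIOneFactor) {p q : M.E} (hp : IsPrj p) (hq : IsPrj q)
    (ht : M.τ p = M.τ q) : ∃ u ∈ unitary M.E, u * p * star u = q := by
  have hF := M.fct hM
  obtain ⟨b, hb1, hb2⟩ := Pool.Agent.H518R4.UG.al_eq (A := Pool.Agent.H467F.Elt M.N) hF hp hq ht
  have hp' := Pool.Agent.H518R4.UG.al_prj_sub (A := Pool.Agent.H467F.Elt M.N) hp
  have hq' := Pool.Agent.H518R4.UG.al_prj_sub (A := Pool.Agent.H467F.Elt M.N) hq
  obtain ⟨c, hc1, hc2⟩ := Pool.Agent.H518R4.UG.al_eq (A := Pool.Agent.H467F.Elt M.N) hF hp' hq'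
    (by rw [map_sub, map_sub, ht])
  have hbp : b * p = b := Pool.Agent.H518R4.UG.al_mul_dom (A := Pool.Agent.H467F.Elt M.N) hF.tw hp hb1
  have hcp : c * (1 - p) = c :=
    Pool.Agent.H518R4.UG.al_mul_dom (A := Pool.Agent.H467F.Elt M.N) hF.tw hp' hc1
  have hcp0 : c * p = 0 := by
    rw [mul_sub, mul_one] at hcp
    exact (sub_eq_self.1 hcp)
  have hqb : q * b = b := by
    rw [← hb2, mul_assoc, hb1, hbp]
  have hqc : q * c = 0 := by
    have h1 : (1 - q) * c = c := by
      rw [← hc2, mul_assoc, hc1, hcp]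
    rw [sub_mul, one_mul] at h1
    exact sub_eq_self.1 h1
  have hsb : star b * q = star b := by
    have := congrArg star hqb
    rwa [star_mul, hq.1] at this
  have hbc : star b * c = 0 := by rw [← hsb, mul_assoc, hqc, mul_zero]
  have hcb : star c * b = 0 := by
    have := congrArg star hbc
    rwa [star_mul, star_star, star_zero] at this
  have hbc2 : b * star c = 0 := by
    have : p * star c = 0 := by
      have := congrArg star hcp0
      rwa [star_mul, hp.1, star_zero] at this
    rw [← hbp, mul_assoc, this, mul_zero]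
  have hcb2 : c * star b = 0 := by
    have := congrArg star hbc2
    rwa [star_mul, star_star, star_zero] at this
  refine ⟨b + c, ?_, ?_⟩
  · rw [Unitary.mem_iff]
    constructor
    · rw [star_add, add_mul, mul_add, mul_add, hb1, hc1, hbc, hcb, add_zero, zero_add,
        add_sub_cancel]
    · rw [star_add, add_mul, mul_add, mul_add, hb2, hc2, hbc2, hcb2, add_zero, zero_add,
        add_sub_cancel]
  · rw [add_mul, hbp, hcp0, add_zero, star_add, mul_add, hb2, hbc2, add_zero]

open Pool.Agent.Helper278 Pool.Agent.Helper436.SM Pool.Agent.H504R3 in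
/-- The hyperfinite II_1 factor is a II_1 factor. -/
theorem hyp_factor (hR : R.IsHyperfinite) : R.IsIIOneFactor := by
  classical
  obtain ⟨j, hc, hd⟩ := hR
  have h := R.trAlg
  have hP := pauliSys (A := R.E) (j := j) hc h
  have hON := PauliSys.on hP
  constructor
  · intro z hz
    refine ⟨R.τ z, ?_⟩
    have key : ∀ ε : ℝ, 0 < ε → n2 R.τ (z - R.τ z • 1) ≤ ε := by
      intro ε hε
      obtain ⟨y, hy, hzy⟩ := hd z (ε / 6) (by positivity)
      obtain ⟨F, c, rfl⟩ := adjoin_le hc y hy
      rw [R.norm2_eq] at hzy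
      obtain ⟨w, _, hw⟩ := PauliSys.near_low hP h 0 F c
      set y := ∑ t ∈ F, c t • Ws j t with hyd
      set l := ∑ t ∈ F with (∀ i, 0 ≤ i → t i = 0), c t • Ws j t with hl
      obtain ⟨a, ha⟩ : ∃ a : ℂ, l = a • (1 : R.E) := by
        refine ⟨∑ t ∈ F with (∀ i, 0 ≤ i → t i = 0), c t, ?_⟩
        rw [hl, Finset.sum_smul]
        refine Finset.sum_congr rfl fun t ht => ?_
        rw [Finset.mem_filter] at ht
        have : t = 0 := by
          ext1 i
          exact ht.2 i (Nat.zero_le _)
        rw [this, hP.zero]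
      have h1 : n2 R.τ (Ws j w * y - y * Ws j w) ≤ 2 * n2 R.τ (z - y) := by
        have e : Ws j w * y - y * Ws j w =
            -(Ws j w * (z - y) - (z - y) * Ws j w) := by
          rw [mul_sub, sub_mul, hz (Ws j w)]
          abel
        rw [e, h.n2_neg]
        exact (PauliSys.ctr hP h w).comm_le h _
      have h2 : n2 R.τ (z - l) ≤ ε / 2 := by
        have := h.n2_tri z y l
        linarith
      have h3 : n2 R.τ (l - R.τ z • 1) ≤ ε / 2 := by
        have e : l - R.τ z • (1 : R.E) = (R.τ (l - z)) • (1 : R.E) := by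
          rw [map_sub, sub_smul, ha, map_smul, R.map_one, smul_eq_mul, mul_one]
        rw [e, n2_smul h, n2_one h, mul_one]
        have h4 := abs_trace_le h (l - z) 1
        rw [mul_one, n2_one h, mul_one] at h4
        rw [h.n2_sub_comm] at h2
        linarith
      have := h.n2_tri z l (R.τ z • 1)
      linarith
    have h0 : n2 R.τ (z - R.τ z • 1) = 0 :=
      le_antisymm (le_of_forall_pos_le_add fun ε hε => by rw [zero_add]; exact key ε hε)
        (n2_nonneg _ _)
    have h1 := h.faithful (z - R.τ z • 1) (by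
      have h2 := h.n2_sq (z - R.τ z • 1)
      rw [h0] at h2
      apply Complex.ext
      · rw [← h2]; simp
      · rw [h.im_zero]; rfl)
    exact sub_eq_zero.1 h1
  · intro hfin
    have hli : LinearIndependent ℂ (Ws (A := R.E) j) := by
      rw [linearIndependent_iff']
      intro s g hg i hi
      have h1 : R.τ (star (Ws j i) * ∑ k ∈ s, g k • Ws j k) = g i := by
        rw [Finset.mul_sum, map_sum, Finset.sum_eq_single i]
        · rw [mul_smul_comm, map_smul, hON i i, if_pos rfl, smul_eq_mul, mul_one]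
        · intro k _ hk
          rw [mul_smul_comm, map_smul, hON i k, if_neg (Ne.symm hk), smul_zero]
        · intro h; exact absurd hi h
      rw [hg, mul_zero, map_zero] at h1
      exact h1.symm
    have := hli.finite
    have hinf : Infinite VV := inferInstance
    exact not_finite VV

/-- shifted binary expansions -/
noncomputable def dcs (c : ℝ) : ℕ → ℝ
  | 0 => c
  | n + 1 => if (1 / 2 : ℝ) ≤ dcs c n then 2 * dcs c n - 1 else 2 * dcs c n

/-- In a II_1 factor there are projections of any trace. -/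
theorem exists_prj (hR : R.IsIIOneFactor) (c : ℝ) (h0 : 0 ≤ c) (h1 : c ≤ 1) :
    ∃ r : R.E, IsStarProjection r ∧ R.τ r = (c : ℂ) := by
  have hN : Pool.Agent.H467F.IsIIOneFactor R.N (R.τ : R.E → ℂ) :=
    { center := by
        intro z hz hc
        obtain ⟨c, hc'⟩ := hR.center ⟨z, hz⟩ (fun x => Subtype.ext (hc x.1 x.2))
        exact ⟨c, congrArg Subtype.val hc'⟩
      infinite := hR.infinite
      trace := ⟨R.map_one, R.tracial, R.faithful⟩
      normal := R.normal }
  choose half hf1 hf2 hf3 hf4 using fun p : {p : R.E // star p = p ∧ p * p = p} =>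
    Pool.Agent.H467F.lib_half R.N R.τ hN p.1 p.2.1 p.2.2
  let G : ℕ → {p : R.E // star p = p ∧ p * p = p} := fun k =>
    Nat.rec (⟨1, star_one _, mul_one _⟩) (fun _ p => ⟨half p, hf1 p, hf2 p⟩) k
  let g : ℕ → R.E := fun k => (G k).1
  have g0 : g 0 = 1 := rfl
  have gs : ∀ k, star (g k) = g k := fun k => (G k).2.1
  have gi : ∀ k, g k * g k = g k := fun k => (G k).2.2
  have gle : ∀ k, g k * g (k + 1) = g (k + 1) := fun k => hf3 (G k)
  have gle' : ∀ k, g (k + 1) * g k = g (k + 1) := fun k => by
    have := congrArg (fun x : R.E => star x) (gle k)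
    simp only [star_mul] at this
    rw [gs (k + 1), gs k] at this
    exact this
  have gt : ∀ k, R.τ (g k) = ((1 / 2 : ℂ)) ^ k := by
    intro k
    induction k with
    | zero => rw [g0, R.map_one, pow_zero]
    | succ k ih =>
      have : R.τ (g (k + 1)) = R.τ (g k) / 2 := hf4 (G k)
      rw [this, ih, pow_succ]
      ring
  clear_value g
  -- the digits
  obtain ⟨cs, cs0, css⟩ : ∃ cs : ℕ → ℝ, cs 0 = c ∧ ∀ n : ℕ, cs (n + 1) =
      if (1 / 2 : ℝ) ≤ cs n then 2 * cs n - 1 else 2 * cs n := ⟨dcs c, rfl, fun n => rfl⟩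
  have csb : ∀ n, 0 ≤ cs n ∧ cs n ≤ 1 := by
    intro n
    induction n with
    | zero => rw [cs0]; exact ⟨h0, h1⟩
    | succ n ih =>
      by_cases h : (1 / 2 : ℝ) ≤ cs n
      · rw [css, if_pos h]
        constructor <;> linarith [ih.1, ih.2]
      · rw [css, if_neg h]
        rw [not_le] at h
        constructor <;> linarith [ih.1, ih.2]
  let rs : ℕ → R.E := fun n => ∑ k ∈ Finset.range n, if (1 / 2 : ℝ) ≤ cs k then g k - g (k + 1) else 0
  have rs0 : rs 0 = 0 := by simp [rs]
  have rss : ∀ n, rs (n + 1) = rs n + if (1 / 2 : ℝ) ≤ cs n then g n - g (n + 1) else 0 := fun n => by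
    simp only [rs, Finset.sum_range_succ]
  clear_value rs
  have rg : ∀ n, rs n * g n = 0 := by
    intro n
    induction n with
    | zero => rw [rs0, zero_mul]
    | succ n ih =>
      have e1 : rs n * g (n + 1) = 0 := by rw [← gle, ← mul_assoc, ih, zero_mul]
      rw [rss, add_mul, e1, zero_add]
      split_ifs
      · rw [sub_mul, gle, gi, sub_self]
      · rw [zero_mul]
  have rst : ∀ n, star (rs n) = rs n := by
    intro n
    induction n with
    | zero => rw [rs0, star_zero]
    | succ n ih =>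
      rw [rss, star_add, ih]
      split_ifs
      · rw [star_sub, gs, gs]
      · rw [star_zero]
  have gr : ∀ n, g n * rs n = 0 := fun n => by
    have := congrArg star (rg n)
    rwa [star_mul, gs, rst, star_zero] at this
  have ri : ∀ n, rs n * rs n = rs n := by
    intro n
    induction n with
    | zero => rw [rs0, mul_zero]
    | succ n ih =>
      have e1 : rs n * g (n + 1) = 0 := by rw [← gle, ← mul_assoc, rg, zero_mul]
      have e2 : g (n + 1) * rs n = 0 := by rw [← gle', mul_assoc, gr, mul_zero]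
      rw [rss]
      split_ifs
      · simp only [add_mul, mul_add, sub_mul, mul_sub, ih, e1, e2, rg, gr, gi, gle, gle']
        abel
      · rw [add_zero, ih]
  have rt : ∀ n, R.τ (rs n) + ((1 / 2 : ℂ)) ^ n * (cs n : ℂ) = (c : ℂ) := by
    intro n
    induction n with
    | zero => rw [rs0, map_zero, pow_zero, one_mul, zero_add, cs0]
    | succ n ih =>
      rw [rss, css, map_add, ← ih]
      split_ifs
      · rw [map_sub, gt, gt, pow_succ]
        push_cast
        ring
      · rw [map_zero, pow_succ]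
        push_cast
        ring
  -- the decreasing sequence
  have hP : ∀ n, IsPrj (rs n + g n) := by
    intro n
    refine ⟨by rw [star_add, rst, gs], ?_⟩
    rw [add_mul, mul_add, mul_add, ri, rg, gr, gi, add_zero, zero_add]
  have hdec : ∀ n, (rs n + g n) * (rs (n + 1) + g (n + 1)) = rs (n + 1) + g (n + 1) := by
    intro n
    have e1 : rs n * g (n + 1) = 0 := by rw [← gle, ← mul_assoc, rg, zero_mul]
    rw [rss]
    split_ifs
    · simp only [add_mul, mul_add, mul_sub, ri, e1, rg, gr, gi, gle]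
      abel
    · simp only [add_zero, add_mul, mul_add, ri, e1, gr, gle]
      abel
  obtain ⟨e', he1, _, he3⟩ := Pool.Agent.H518R4.UG.p_LIMP (Pool.Agent.H467F.Elt R.N) R.τ R.tw
    (fun n => rs n + g n) hP hdec
  refine ⟨e', isPrj_iff.1 he1, ?_⟩
  have hb := (Pool.Agent.H467F.tau_bounds R.tw).1
  have h2 : Tendsto (fun n => R.τ (rs n + g n)) atTop (𝓝 (R.τ e')) := by
    rw [tendsto_iff_norm_sub_tendsto_zero]
    refine squeeze_zero (fun n => norm_nonneg _) (fun n => ?_) he3
    rw [← map_sub]
    exact hb _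
  have hp2 : Tendsto (fun n : ℕ => ((1 / 2 : ℂ)) ^ n) atTop (𝓝 0) :=
    tendsto_pow_atTop_nhds_zero_of_norm_lt_one (by norm_num)
  have h3 : Tendsto (fun n => R.τ (rs n + g n)) atTop (𝓝 (c : ℂ)) := by
    have e : ∀ n, R.τ (rs n + g n) = (c : ℂ) + ((1 / 2 : ℂ)) ^ n * (1 - (cs n : ℂ)) := by
      intro n
      rw [← rt n, map_add, gt]
      ring
    have h4 : Tendsto (fun n => ((1 / 2 : ℂ)) ^ n * (1 - (cs n : ℂ))) atTop (𝓝 0) := by
      refine squeeze_zero_norm (a := fun n => ‖((1 / 2 : ℂ)) ^ n‖) (fun n => ?_)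
        (tendsto_zero_iff_norm_tendsto_zero.1 hp2)
      rw [norm_mul]
      have : ‖(1 - (cs n : ℂ))‖ ≤ 1 := by
        have h5 := csb n
        have : (1 - (cs n : ℂ)) = ((1 - cs n : ℝ) : ℂ) := by push_cast; ring
        rw [this, Complex.norm_real, Real.norm_of_nonneg (by linarith [h5.2])]
        linarith [h5.1]
      nlinarith [norm_nonneg (((1 / 2 : ℂ)) ^ n)]
    have h5 := h4.const_add (c : ℂ)
    rw [add_zero] at h5
    exact h5.congr fun n => (e n).symm
  exact tendsto_nhds_unique h2 h3

end tvn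

end Pool.Agent.W403.EP
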