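import Pool.Agent.W403.EP.GrpR
import Pool.Agent.W403.EP.Defs

/-!
Only countably many characters of the central subgroup extend to homomorphisms of `Gam` to the
unitary group of a separable tracial von Neumann algebra that are scalar on the central subgroup.
-/

set_option autoImplicit false
set_option linter.unusedSectionVars false

open scoped InnerProductSpace ComplexOrder Topology
open Filter

namespace Pool.Agent.W403.EP

open Pool.Agent.H504R3 (TVN)
open Pool.Agent.Helper278 (n2 TrAlg)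
open Pool.Agent.Helper278.CE (exists_gns norm_j ext_j)
open Pool.Agent.H197R3
open Polynomial

variable {M : TVN}

section tm

variable {K : Type} [NormedAddCommGroup K] [InnerProductSpace ℂ K] [CompleteSpace K]
  (j : M.E →ₗ[ℂ] K)

/-- two-sided multiplication -/
noncomputable def Tm (a b : M.E) : K →L[ℂ] K :=
  (j ∘ₗ LinearMap.mulLeft ℂ a ∘ₗ LinearMap.mulRight ℂ b).extendOfNorm j

variable {j} (hd : DenseRange j) (hj : ∀ x y, ⟪j x, j y⟫_ℂ = M.τ (star x * y))

include hj hd in
theorem Tm_j (a b x : M.E) : Tm j a b (j x) = j (a * (x * b)) := by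
  unfold Tm
  rw [LinearMap.extendOfNorm_eq hd ⟨‖a‖ * ‖b‖, fun x => ?_⟩]
  · rfl
  · show ‖j (a * (x * b))‖ ≤ _
    rw [norm_j hj, norm_j hj]
    have h1 := norm2_mul_le (M := M) a (x * b)
    have h2 := norm2_mul_le' (M := M) x b
    change n2 M.τ (a * (x * b)) ≤ ‖a‖ * n2 M.τ (x * b) at h1
    change n2 M.τ (x * b) ≤ n2 M.τ x * ‖b‖ at h2
    have h3 := mul_le_mul_of_nonneg_left h2 (norm_nonneg a)
    linarith

include hj hd in
theorem star_Tm (a b : M.E) : star (Tm j a b) = Tm j (star a) (star b) := by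
  apply ext_j hd
  intro y
  refine hd.eq_of_inner_right ℂ ?_
  intro x
  rw [ContinuousLinearMap.star_eq_adjoint, ContinuousLinearMap.adjoint_inner_right,
    Tm_j hd hj, Tm_j hd hj, hj, hj, star_mul, star_mul]
  calc M.τ (star b * star x * star a * y) = M.τ (star b * (star x * star a * y)) := by
        simp only [mul_assoc]
    _ = M.τ (star x * star a * y * star b) := M.tracial _ _
    _ = _ := by simp only [mul_assoc]

end tm

theorem kt_key (ρ ρ' : Gam →* unitary M.E) (δ : ℝ) (hδ : 60 * δ < 1)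
    (h01 : ∀ a : kk, M.norm2 ((ρ (eG d01 (algebraMap kk RR a)) : M.E) -
      ρ' (eG d01 (algebraMap kk RR a))) ≤ δ)
    (h12 : ∀ a : kk, M.norm2 ((ρ (eG d12 (algebraMap kk RR a)) : M.E) -
      ρ' (eG d12 (algebraMap kk RR a))) ≤ δ)
    (h20 : ∀ w : kk × kk × kk, M.norm2 ((ρ (eG d20 (iot w)) : M.E) - ρ' (eG d20 (iot w))) ≤ δ)
    (x x' : kk[X] → ℂ) (hx : ∀ f, (ρ (nu f) : M.E) = x f • (1 : M.E))
    (hx' : ∀ f, (ρ' (nu f) : M.E) = x' f • (1 : M.E)) : x = x' := by
  obtain ⟨K, i1, i2, i3, j, hd, hj⟩ := exists_gns M.trAlg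
  have hr1 : ∀ g, star (ρ g : M.E) * ρ g = 1 := fun g => Unitary.coe_star_mul_self (ρ g)
  have hr2 : ∀ g, (ρ g : M.E) * star (ρ g : M.E) = 1 := fun g => Unitary.coe_mul_star_self (ρ g)
  have hr1' : ∀ g, star (ρ' g : M.E) * ρ' g = 1 := fun g => Unitary.coe_star_mul_self (ρ' g)
  have hr2' : ∀ g, (ρ' g : M.E) * star (ρ' g : M.E) = 1 := fun g => Unitary.coe_mul_star_self (ρ' g)
  have T1 : Tm j 1 1 = 1 := by
    apply ext_j hd
    intro x
    rw [Tm_j hd hj, mul_one, one_mul]
    rfl
  have TT : ∀ a b c d : M.E, Tm j a b * Tm j c d = Tm j (a * c) (d * b) := by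
    intro a b c d
    apply ext_j hd
    intro x
    show Tm j a b (Tm j c d (j x)) = _
    rw [Tm_j hd hj, Tm_j hd hj, Tm_j hd hj]
    simp only [mul_assoc]
  let σ : Gam →* (K →L[ℂ] K) :=
    { toFun := fun g => Tm j (ρ g : M.E) (star (ρ' g : M.E))
      map_one' := by
        rw [map_one, map_one]
        show Tm j (1 : M.E) (star (1 : M.E)) = 1
        rw [star_one, T1]
      map_mul' := fun g h => by
        rw [TT, map_mul, map_mul, Submonoid.coe_mul, Submonoid.coe_mul, star_mul] }
  have hσa : ∀ g, σ g = Tm j (ρ g : M.E) (star (ρ' g : M.E)) := fun g => rfl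
  have hσ : ∀ g, σ g ∈ unitary (K →L[ℂ] K) := by
    intro g
    rw [Unitary.mem_iff, hσa, star_Tm hd hj, TT, TT, star_star, hr1, hr2, hr1', hr2', T1]
    exact ⟨rfl, rfl⟩
  have hn : ∀ g, ‖σ g (j 1) - j 1‖ = M.norm2 ((ρ g : M.E) - ρ' g) := by
    intro g
    rw [hσa, Tm_j hd hj, one_mul, ← map_sub, norm_j hj]
    have e : (ρ g : M.E) * star (ρ' g : M.E) - 1 =
        ((ρ g : M.E) - ρ' g) * star (ρ' g : M.E) := by
      rw [sub_mul, hr2']
    rw [e]
    exact Pool.Agent.H504R3.n2_isom_right M.trAlg (by rw [star_star, hr1']) _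
  obtain ⟨w, hw, hw2⟩ := EG_inv iot adj_top iot_one σ hσ card_kk' (j 1) δ
    (fun a => by rw [hn]; exact h01 a) (fun a => by rw [hn]; exact h12 a)
    (fun a => by rw [hn]; exact h20 a)
  have hj1 : ‖j 1‖ = 1 := by
    rw [norm_j hj, Pool.Agent.H504R3.n2_one M.trAlg]
  have hw0 : w ≠ 0 := by
    rintro rfl
    rw [sub_zero, hj1] at hw2
    linarith
  funext f
  have h1 : σ (nu f) = (x f * star (x' f)) • (1 : K →L[ℂ] K) := by
    rw [hσa, hx, hx', star_smul, star_one]
    apply ext_j hd
    intro y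
    rw [Tm_j hd hj, smul_mul_assoc, one_mul, mul_smul_comm, mul_one, map_smul, map_smul, smul_smul]
    rfl
  have h2 := hw (nu f)
  rw [h1] at h2
  have h3 : (x f * star (x' f)) • w = (1 : ℂ) • w := by rw [one_smul]; exact h2
  have h4 : x f * star (x' f) = 1 := by
    have := sub_eq_zero.2 h3
    rw [← sub_smul, smul_eq_zero] at this
    rcases this with h | h
    · exact sub_eq_zero.1 h
    · exact absurd h hw0
  have h5 : star (x' f) * x' f = 1 := by
    have h6 := hr1' (nu f)
    rw [hx', star_smul, star_one, smul_mul_smul_comm, mul_one] at h6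
    have h7 := congrArg M.τ h6
    rwa [map_smul, M.map_one, smul_eq_mul, mul_one] at h7
  calc x f = x f * (star (x' f) * x' f) := by rw [h5, mul_one]
    _ = x f * star (x' f) * x' f := by rw [mul_assoc]
    _ = x' f := by rw [h4, one_mul]

/-- the functions that are the values of a homomorphism on the central elements -/
def Bad (M : TVN) : Set (kk[X] → ℂ) :=
  {x | ∃ ρ : Gam →* unitary M.E, ∀ f, (ρ (nu f) : M.E) = x f • (1 : M.E)}

theorem bad_countable (hM : M.IsSeparable) : (Bad M).Countable := by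
  obtain ⟨S, hS, hSd⟩ := hM
  have hSc : Countable S := hS.to_subtype
  choose ρ hρ using fun x : Bad M => x.2
  choose y hy hy2 using fun z : M.E => hSd z (1 / 180) (by norm_num)
  let Φ : Bad M → (kk → S) × (kk → S) × (kk × kk × kk → S) := fun x =>
    (fun a => ⟨y (ρ x (eG d01 (algebraMap kk RR a))), hy _⟩,
     fun a => ⟨y (ρ x (eG d12 (algebraMap kk RR a))), hy _⟩,
     fun w => ⟨y (ρ x (eG d20 (iot w))), hy _⟩)
  have hΦ : Function.Injective Φ := by
    intro x x' hxx
    have key : ∀ g, y (ρ x g : M.E) = y (ρ x' g : M.E) →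
        M.norm2 ((ρ x g : M.E) - ρ x' g) ≤ 1 / 90 := by
      intro g hg
      have h1 := hy2 (ρ x g : M.E)
      have h2 := hy2 (ρ x' g : M.E)
      rw [← hg, norm2_sub_comm] at h2
      have h3 := norm2_add_le ((ρ x g : M.E) - y (ρ x g : M.E)) (y (ρ x g : M.E) - ρ x' g)
      rw [sub_add_sub_cancel] at h3
      linarith
    apply Subtype.ext
    refine kt_key (ρ x) (ρ x') (1 / 90) (by norm_num) ?_ ?_ ?_ x.1 x'.1 (hρ x) (hρ x')
    · intro a
      exact key _ (congrArg Subtype.val (congrFun (congrArg Prod.fst hxx) a))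
    · intro a
      exact key _ (congrArg Subtype.val (congrFun (congrArg (fun z => z.2.1) hxx) a))
    · intro w
      exact key _ (congrArg Subtype.val (congrFun (congrArg (fun z => z.2.2) hxx) w))
  have : Countable (Bad M) := hΦ.countable
  exact Set.countable_coe_iff.1 this

end Pool.Agent.W403.EP
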