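import Pool.Agent.W403.EP.Base

/-!
If the image of `π` has a nontrivial central projection then the class of `π` is not extreme.
-/

set_option autoImplicit false

open scoped ComplexOrder Topology
open Filter

namespace Pool.Agent.W403.EP

open Pool.Agent.H504R3 (TVN)
open Pool.Agent.Helper234.Brown (PTr IsVN mu mu_mul star_mu sum_mu mat_eq_sum conjHom conjHom_apply)
open Pool.Agent.H518R4.UG (IsPrj)

variable {M R : TVN}

/-- the trace of a matrix unit -/
theorem tr_mu (j : Matrix (Fin 2) (Fin 2) ℂ →⋆ₐ[ℂ] R.E) : R.τ (j (mu 0 0)) = 1 / 2 := by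
  have e0 : j (mu 0 0) = j (mu 0 1) * j (mu 1 0) := by rw [← map_mul, mu_mul, if_pos rfl]
  have e1 : j (mu 1 1) = j (mu 1 0) * j (mu 0 1) := by rw [← map_mul, mu_mul, if_pos rfl]
  have h1 : R.τ (j (mu 0 0)) = R.τ (j (mu 1 1)) := by rw [e0, e1, R.tracial]
  have h2 : R.τ (j (mu 0 0)) + R.τ (j (mu 1 1)) = 1 := by
    rw [← map_add, ← map_add, show mu 0 0 + mu 1 1 = 1 by rw [← sum_mu, Fin.sum_univ_two],
      map_one, R.map_one]
  rw [← h1] at h2
  linear_combination h2 / 2

theorem prj_mu {A : Type} [Ring A] [StarRing A] [Algebra ℂ A]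
    (j : Matrix (Fin 2) (Fin 2) ℂ →⋆ₐ[ℂ] A) (i : Fin 2) :
    star (j (mu i i)) = j (mu i i) ∧ j (mu i i) * j (mu i i) = j (mu i i) := by
  rw [← map_star, star_mu, ← map_mul, mu_mul, if_pos rfl]
  exact ⟨rfl, rfl⟩

/-- matrix units adapted to a projection of trace `1/2` -/
theorem exists_j (hR : R.IsHyperfinite) (p : R.E) (hp : IsStarProjection p) (hpt : R.τ p = 1 / 2) :
    ∃ j : ℕ → (Matrix (Fin 2) (Fin 2) ℂ →⋆ₐ[ℂ] R.E),
      (∀ k l, k ≠ l → ∀ a b, j k a * j l b = j l b * j k a) ∧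
      (∀ (x : R.E) (ε : ℝ), 0 < ε →
        ∃ y ∈ Algebra.adjoin ℂ (⋃ k, Set.range (j k)), R.norm2 (x - y) < ε) ∧
      j 0 (mu 0 0) = p := by
  have hRf := hyp_factor hR
  obtain ⟨j, hc, hd⟩ := hR
  obtain ⟨u, hu, hup⟩ := exists_unitary hRf (isPrj_iff.2 hp)
    (q := j 0 (mu 0 0)) (prj_mu (j 0) 0) (by rw [tr_mu, hpt])
  have hu1 := (Unitary.mem_iff.1 hu).1
  have hu2 := (Unitary.mem_iff.1 hu).2
  have hs1 : star (star u) * star u = 1 := by rw [star_star, hu2]
  have hs2 : star u * star (star u) = 1 := by rw [star_star, hu1]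
  have hC : ∀ (x : R.E), conjHom (star u) hs1 hs2 x = star u * x * u := fun x => by
    rw [conjHom_apply, star_star]
  refine ⟨fun k => (conjHom (star u) hs1 hs2).comp (j k), ?_, ?_, ?_⟩
  · intro k l hkl a b
    show conjHom (star u) hs1 hs2 (j k a) * conjHom (star u) hs1 hs2 (j l b) = 
      conjHom (star u) hs1 hs2 (j l b) * conjHom (star u) hs1 hs2 (j k a)
    rw [← map_mul, ← map_mul, hc k l hkl]
  · intro x ε hε
    obtain ⟨y, hy, hxy⟩ := hd (u * x * star u) ε hε
    refine ⟨conjHom (star u) hs1 hs2 y, ?_, ?_⟩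
    · clear hxy
      induction hy using Algebra.adjoin_induction with
      | mem y hy =>
        obtain ⟨k, m, rfl⟩ := Set.mem_iUnion.mp hy
        exact Algebra.subset_adjoin (Set.mem_iUnion.2 ⟨k, m, rfl⟩)
      | algebraMap r =>
        rw [AlgHomClass.commutes]
        exact Subalgebra.algebraMap_mem _ _
      | add a b _ _ ha hb => rw [map_add]; exact Subalgebra.add_mem _ ha hb
      | mul a b _ _ ha hb => rw [map_mul]; exact Subalgebra.mul_mem _ ha hb
    · have e : x - conjHom (star u) hs1 hs2 y = star u * (u * x * star u - y) * star (star u) := by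
        rw [hC, star_star, mul_sub, sub_mul]
        congr 1
        calc x = (star u * u) * x * (star u * u) := by rw [hu1, one_mul, mul_one]
          _ = _ := by simp only [mul_assoc]
      rw [e, norm2_conj (Unitary.star_mem hu)]
      exact hxy
  · show conjHom (star u) hs1 hs2 (j 0 (mu 0 0)) = p
    rw [hC, ← hup]
    calc star u * (u * p * star u) * u = (star u * u) * p * (star u * u) := by
          simp only [mul_assoc]
      _ = p := by rw [hu1, one_mul, mul_one]

open Pool.Agent.Helper436.SM Pool.Agent.H504R3 in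
theorem Ws_mem {A : Type} [Ring A] [StarRing A] [Algebra ℂ A] [StarModule ℂ A]
    (j : ℕ → (M2 →⋆ₐ[ℂ] A)) (S : Subalgebra ℂ A) (hS : ∀ k x, j k x ∈ S) (v : VV) :
    Ws j v ∈ S := by
  have : ∀ n, Wn j n v ∈ S := by
    intro n
    induction n with
    | zero => rw [Wn_zero]; exact Subalgebra.one_mem _
    | succ n ih => rw [Wn_succ]; exact Subalgebra.mul_mem _ ih (hS _ _)
  exact this _

/-- density of the algebra generated by `α(M)` and the matrices -/
theorem dense_D (s : Sig M R) (j : ℕ → (Matrix (Fin 2) (Fin 2) ℂ →⋆ₐ[ℂ] R.E))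
    (hc : ∀ k l, k ≠ l → ∀ a b, j k a * j l b = j l b * j k a)
    (hd : ∀ (x : R.E) (ε : ℝ), 0 < ε →
        ∃ y ∈ Algebra.adjoin ℂ (⋃ k, Set.range (j k)), R.norm2 (x - y) < ε)
    (x : M.E) (ε : ℝ) (hε : 0 < ε) :
    ∃ y ∈ Algebra.adjoin ℂ (Set.range s.α ∪ ⋃ k, Set.range (s.β.comp (j k))),
      (ptr M.tw).n2 (x - y) < ε := by
  obtain ⟨q, hq⟩ := Pool.Agent.H504R3.dense_expand s.α s.β s.comm s.trace j hc hd s.dense x ε hε
  refine ⟨_, ?_, hq⟩
  refine Subalgebra.sum_mem _ fun v _ => Subalgebra.mul_mem _ ?_ ?_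
  · exact Algebra.subset_adjoin (Or.inl ⟨_, rfl⟩)
  · rw [← Pool.Agent.H504R3.Ws_map s.β j v]
    refine Ws_mem _ _ (fun k x => ?_) v
    exact Algebra.subset_adjoin (Or.inr (Set.mem_iUnion.2 ⟨k, x, rfl⟩))

section compress

variable {B : Type} [CStarAlgebra B] {t : PTr B}
  {j : ℕ → (Matrix (Fin 2) (Fin 2) ℂ →⋆ₐ[ℂ] B)} {D : Set B} {w : ℕ → B} {S : B →⋆ₐ[ℂ] B}
  {A : Type} [Ring A] [StarRing A] [Algebra ℂ A]

theorem compress (h : IsSh t j D (fun k => k + 1) w S) (hv : IsVN t) (ρ : A →⋆ₐ[ℂ] B) (i : Fin 2)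
    (hρ : ∀ a, ρ a * j 0 (mu i i) = j 0 (mu i i) * ρ a) :
    ∃ φ : A →⋆ₐ[ℂ] B, ∀ a, j 0 (mu i i) * S (φ a) = j 0 (mu i i) * ρ a := by
  have hmm : ∀ a b c d : Fin 2, j 0 (mu a b) * j 0 (mu c d) = if b = c then j 0 (mu a d) else 0 := by
    intro a b c d
    rw [← map_mul, mu_mul]
    split_ifs
    · rfl
    · rw [map_zero]
  set y : B → B := fun x => ∑ k, j 0 (mu k i) * x * j 0 (mu i k) with hy
  have ycomm : ∀ b x, j 0 x * y b = y b * j 0 x := by
    intro b
    have hm : ∀ a c : Fin 2, j 0 (mu a c) * y b = y b * j 0 (mu a c) := by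
      intro a c
      have l : ∀ k : Fin 2, j 0 (mu a c) * (j 0 (mu k i) * b * j 0 (mu i k)) =
          if c = k then j 0 (mu a i) * b * j 0 (mu i c) else 0 := by
        intro k
        rw [← mul_assoc, ← mul_assoc, hmm]
        split_ifs with h1
        · subst h1; rfl
        · simp
      have r : ∀ k : Fin 2, (j 0 (mu k i) * b * j 0 (mu i k)) * j 0 (mu a c) =
          if k = a then j 0 (mu a i) * b * j 0 (mu i c) else 0 := by
        intro k
        rw [mul_assoc, hmm]
        split_ifs with h1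
        · subst h1; rfl
        · simp
      rw [hy, Finset.mul_sum, Finset.sum_mul]
      simp only [l, r]
      simp
    intro x
    rw [mat_eq_sum x]
    simp only [map_sum, map_smul, Finset.mul_sum, Finset.sum_mul, mul_smul_comm, smul_mul_assoc, hm]
  choose φ hφ using fun a => h.surj hv (y (ρ a)) (ycomm _)
  have yadd : ∀ b c, y (b + c) = y b + y c := fun b c => by
    simp only [hy, mul_add, add_mul, Finset.sum_add_distrib]
  have yone : y 1 = 1 := by
    simp only [hy, mul_one, hmm, if_true]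
    rw [← map_sum, sum_mu, map_one]
  have ymul : ∀ b c, b * j 0 (mu i i) = j 0 (mu i i) * b → y (b * c) = y b * y c := by
    intro b c hb
    simp only [hy, Fin.sum_univ_two, mul_add, add_mul]
    have e : ∀ k l : Fin 2, j 0 (mu k i) * b * j 0 (mu i k) * (j 0 (mu l i) * c * j 0 (mu i l)) =
        if k = l then j 0 (mu k i) * (b * c) * j 0 (mu i k) else 0 := by
      intro k l
      calc j 0 (mu k i) * b * j 0 (mu i k) * (j 0 (mu l i) * c * j 0 (mu i l))
          = j 0 (mu k i) * b * (j 0 (mu i k) * j 0 (mu l i)) * c * j 0 (mu i l) := by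
            simp only [mul_assoc]
        _ = _ := by
            rw [hmm]
            split_ifs with hkl
            · subst hkl
              rw [mul_assoc (j 0 (mu k i)), hb, ← mul_assoc (j 0 (mu k i)), hmm, if_pos rfl]
              simp only [mul_assoc]
            · simp
    rw [e, e, e, e]
    simp
  have ystar : ∀ b, y (star b) = star (y b) := by
    intro b
    simp only [hy, star_sum, star_mul, ← map_star, star_mu, mul_assoc]
  have ysmul : ∀ (r : ℂ) b, y (r • b) = r • y b := fun r b => by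
    simp only [hy, mul_smul_comm, smul_mul_assoc, Finset.smul_sum]
  refine ⟨{ toFun := φ, map_one' := ?_, map_mul' := ?_, map_zero' := ?_, map_add' := ?_,
            commutes' := ?_, map_star' := ?_ }, ?_⟩
  · apply h.inj hv
    rw [hφ, map_one, yone, map_one]
  · intro a b
    apply h.inj hv
    rw [hφ, map_mul, map_mul, hφ, hφ, ymul _ _ (hρ a)]
  · apply h.inj hv
    rw [hφ, map_zero, map_zero]
    simp [hy]
  · intro a b
    apply h.inj hv
    rw [hφ, map_add, map_add, hφ, hφ, yadd]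
  · intro r
    apply h.inj hv
    rw [hφ, AlgHomClass.commutes, AlgHomClass.commutes, Algebra.algebraMap_eq_smul_one, ysmul, yone]
  · intro a
    apply h.inj hv
    rw [hφ, map_star, map_star, hφ, ystar]
  · intro a
    show j 0 (mu i i) * S (φ a) = _
    rw [hφ, hy]
    simp only
    rw [Finset.mul_sum, Finset.sum_eq_single i]
    · rw [← mul_assoc, ← mul_assoc, hmm, if_pos rfl, mul_assoc, hρ, ← mul_assoc, hmm, if_pos rfl]
    · intro k _ hk
      rw [← mul_assoc, ← mul_assoc, hmm, if_neg (Ne.symm hk), zero_mul, zero_mul]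
    · simp

end compress

/-- the trace is an invariant -/
theorem WAE.tr_eq {A : Type} [Ring A] [StarRing A] [Algebra ℂ A] {π ρ : A →⋆ₐ[ℂ] M.E}
    (h : WAE π ρ) (a : A) : M.τ (π a) = M.τ (ρ a) := by
  obtain ⟨u, hu, h⟩ := h
  have h1 : ∀ n, M.τ (u n * ρ a * star (u n)) = M.τ (ρ a) := by
    intro n
    rw [M.tracial, ← mul_assoc, (Unitary.mem_iff.1 (hu n)).1, one_mul]
  have h2 : Tendsto (fun n => ‖M.τ (π a - u n * ρ a * star (u n))‖) atTop (𝓝 0) :=
    squeeze_zero (fun n => norm_nonneg _) (fun n => (ptr M.tw).norm_tr_le_n2 _) (h a)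
  simp only [map_sub, h1] at h2
  have h3 := tendsto_nhds_unique h2 tendsto_const_nhds
  exact sub_eq_zero.1 (norm_eq_zero.1 h3.symm)

/-- the trace of a projection -/
theorem tr_prj {z : M.E} (hz : IsStarProjection z) : M.τ z = ((M.τ z).re : ℂ) ∧ 0 ≤ (M.τ z).re := by
  have e : star z * z = z := by rw [hz.isSelfAdjoint.star_eq, hz.isIdempotentElem.eq]
  have h1 := M.trAlg.im_zero z
  have h2 := M.trAlg.re_nonneg z
  rw [e] at h1 h2
  exact ⟨Complex.ext (by simp) (by simp [h1]), h2⟩

theorem ne_aux {A : Type} [Ring A] [StarRing A] [Algebra ℂ A] (hM : M.IsIIOneFactor)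
    (hR : R.IsHyperfinite) (s : Sig M R) (p : R.E) (hp : IsStarProjection p) (hpt : R.τ p = 1 / 2)
    (π : A →⋆ₐ[ℂ] M.E) (a0 : A) (hz : IsStarProjection (π a0))
    (hzc : ∀ a, π a0 * π a = π a * π a0) (hz0 : π a0 ≠ 0) (hz1 : (M.τ (π a0)).re ≤ 1 / 2) :
    ∃ π₁ π₂ : A →⋆ₐ[ℂ] M.E, WAE π (s.comb p hp π₁ π₂) ∧ ¬ WAE π₁ π := by
  have hRf := hyp_factor hR
  obtain ⟨j, hj, hd, hj0⟩ := exists_j hR p hp hpt
  generalize hzd : π a0 = z at *
  obtain ⟨hc1, hc0⟩ := tr_prj hz
  generalize hcd : (M.τ z).re = c at *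
  have hzz : z * z = z := hz.isIdempotentElem.eq
  have hzs : star z = z := hz.isSelfAdjoint.star_eq
  -- the second projection
  obtain ⟨r, hr, hrt⟩ := exists_prj hRf ((1 / 2 - c) / (1 - c))
    (div_nonneg (by linarith) (by linarith)) (by
      rw [div_le_one (by linarith)]; linarith)
  have hrr : r * r = r := hr.isIdempotentElem.eq
  have hrs : star r = r := hr.isSelfAdjoint.star_eq
  set J : ℕ → (Matrix (Fin 2) (Fin 2) ℂ →⋆ₐ[ℂ] M.E) := fun k => s.β.comp (j k) with hJ
  have hJc : ∀ k l, k ≠ l → ∀ x y, J k x * J l y = J l y * J k x := by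
    intro k l hkl x y
    show s.β (j k x) * s.β (j l y) = s.β (j l y) * s.β (j k x)
    rw [← map_mul, ← map_mul, hj k l hkl]
  have hJD : ∀ d ∈ Set.range s.α, ∀ k x, d * J k x = J k x * d := by
    rintro _ ⟨x, rfl⟩ k y
    exact s.comm _ _
  have hv := isVN M.tw
  obtain ⟨w, S, hS⟩ := exists_sh (t := ptr M.tw) (D := Set.range s.α) (σ := fun k => k + 1) hv hJc
    hJD (dense_D s j hj hd) (fun a b h => by simpa using h)
  -- the projection of trace 1/2
  have hαβ : ∀ x y, s.α x * s.β y = s.β y * s.α x := s.comm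
  set e : M.E := s.α z + s.α (1 - z) * s.β r with he
  have hze : IsPrj e := by
    constructor
    · rw [he, star_add, star_mul, ← map_star s.α, ← map_star s.α, ← map_star s.β, star_sub,
        star_one, hzs, hrs, hαβ]
    · have e1 : s.α z * (s.α (1 - z) * s.β r) = 0 := by
        rw [← mul_assoc, ← map_mul, mul_sub, mul_one, hzz, sub_self, map_zero, zero_mul]
      have e2 : s.α (1 - z) * s.β r * s.α z = 0 := by
        rw [mul_assoc, ← hαβ, ← mul_assoc, ← map_mul, sub_mul, one_mul, hzz, sub_self, map_zero,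
          zero_mul]
      have e3 : s.α (1 - z) * s.β r * (s.α (1 - z) * s.β r) = s.α (1 - z) * s.β r := by
        calc s.α (1 - z) * s.β r * (s.α (1 - z) * s.β r)
            = s.α (1 - z) * (s.β r * s.α (1 - z)) * s.β r := by simp only [mul_assoc]
          _ = (s.α (1 - z) * s.α (1 - z)) * (s.β r * s.β r) := by
              rw [← hαβ]; simp only [mul_assoc]
          _ = _ := by
              rw [← map_mul, ← map_mul, hrr, sub_mul, mul_sub, mul_sub, hzz]
              simp
      rw [he, add_mul, mul_add, mul_add, e1, e2, e3, ← map_mul, hzz, add_zero, zero_add]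
  have hte : M.τ e = 1 / 2 := by
    have h1c : ((1 - c : ℝ) : ℂ) ≠ 0 := by
      rw [Ne, Complex.ofReal_eq_zero]; linarith
    rw [he, map_add, s.trα, s.trace, map_sub, M.map_one, hrt, hc1]
    push_cast at h1c ⊢
    field_simp
    ring
  have hpp : IsPrj (s.β p) := by
    constructor
    · rw [← map_star, hp.isSelfAdjoint.star_eq]
    · rw [← map_mul, hp.isIdempotentElem.eq]
  obtain ⟨W, hW, hWe⟩ := exists_unitary hM hze hpp (by rw [hte, s.trβ, hpt])
  have hW1 := (Unitary.mem_iff.1 hW).1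
  have hW2 := (Unitary.mem_iff.1 hW).2
  set ρ : A →⋆ₐ[ℂ] M.E := (conjHom W hW1 hW2).comp (s.α.comp π) with hρ
  have hρa : ∀ a, ρ a = W * s.α (π a) * star W := fun a => rfl
  have hJ0 : J 0 (mu 0 0) = s.β p := by
    show s.β (j 0 (mu 0 0)) = _
    rw [hj0]
  have hJ1 : J 0 (mu 1 1) = s.β (1 - p) := by
    have h1 : J 0 (mu 0 0) + J 0 (mu 1 1) = 1 := by
      rw [← map_add, show mu 0 0 + mu 1 1 = 1 by rw [← sum_mu, Fin.sum_univ_two], map_one]
    rw [hJ0] at h1
    rw [map_sub, map_one, ← h1, add_sub_cancel_left]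
  -- the commutation
  have hec : ∀ a, s.α (π a) * e = e * s.α (π a) := by
    intro a
    have k1 : s.α (π a) * s.α z = s.α z * s.α (π a) := by
      rw [← map_mul s.α, ← map_mul s.α, hzc]
    have k2 : s.α (π a) * s.α (1 - z) = s.α (1 - z) * s.α (π a) := by
      rw [map_sub, map_one, mul_sub, sub_mul, k1, mul_one, one_mul]
    rw [he, mul_add, add_mul, k1, ← mul_assoc, k2, mul_assoc, mul_assoc, hαβ (π a) r]
  have hρ0 : ∀ a, ρ a * J 0 (mu 0 0) = J 0 (mu 0 0) * ρ a := by
    intro a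
    rw [hJ0, ← hWe, hρa]
    calc W * s.α (π a) * star W * (W * e * star W)
        = W * s.α (π a) * (star W * W) * e * star W := by simp only [mul_assoc]
      _ = W * (s.α (π a) * e) * star W := by rw [hW1, mul_one]; simp only [mul_assoc]
      _ = W * e * (star W * W) * s.α (π a) * star W := by
          rw [hec, hW1, mul_one]; simp only [mul_assoc]
      _ = _ := by simp only [mul_assoc]
  have hρ1 : ∀ a, ρ a * J 0 (mu 1 1) = J 0 (mu 1 1) * ρ a := by
    intro a
    have h1 : J 0 (mu 1 1) = 1 - J 0 (mu 0 0) := by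
      rw [hJ1, hJ0, map_sub, map_one]
    rw [h1, mul_sub, sub_mul, hρ0, mul_one, one_mul]
  obtain ⟨φ0, hφ0⟩ := compress hS hv ρ 0 hρ0
  obtain ⟨φ1, hφ1⟩ := compress hS hv ρ 1 hρ1
  refine ⟨φ0, φ1, ?_, ?_⟩
  · -- `comb ∼ ρ ∼ α ∘ π ∼ π`
    obtain ⟨u, hu, hua⟩ := s.wae
    have hua' : ∀ x, Tendsto (fun n => M.norm2 (s.α x - u n * x * star (u n))) atTop (𝓝 0) := hua
    have w1 : WAE (s.comb p hp φ0 φ1) ρ := by
      refine ⟨fun n => S (u n), fun n => ?_, fun a => ?_⟩
      · rw [Unitary.mem_iff, ← map_star, ← map_mul, ← map_mul, (Unitary.mem_iff.1 (hu n)).1,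
          (Unitary.mem_iff.1 (hu n)).2, map_one]
        exact ⟨rfl, rfl⟩
      · have h3 := ((hua' (φ0 a)).mul_const ‖s.β p‖).add ((hua' (φ1 a)).mul_const ‖s.β (1 - p)‖)
        rw [zero_mul, zero_mul, add_zero] at h3
        refine squeeze_zero (fun n => norm2_nonneg _) (fun n => ?_) h3
        have k0 : ∀ x, S (s.α x) = s.α x := fun x => hS.apply_D hv _ ⟨x, rfl⟩
        have k1 : ρ a = S (φ0 a) * s.β p + S (φ1 a) * s.β (1 - p) := by
          rw [← hJ0, ← hJ1, ← hS.comm hv, ← hS.comm hv, hφ0, hφ1, ← add_mul, ← map_add,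
            show mu 0 0 + mu 1 1 = 1 by rw [← sum_mu, Fin.sum_univ_two], map_one, one_mul]
        have k2 : ∀ x, s.β p * S x = S x * s.β p := fun x => by rw [← hJ0]; exact hS.comm hv _ _
        have k3 : ∀ x, s.β (1 - p) * S x = S x * s.β (1 - p) := fun x => by
          rw [← hJ1]; exact hS.comm hv _ _
        have k4 : s.comb p hp φ0 φ1 a - S (u n) * ρ a * star (S (u n)) =
            S (s.α (φ0 a) - u n * φ0 a * star (u n)) * s.β p +
            S (s.α (φ1 a) - u n * φ1 a * star (u n)) * s.β (1 - p) := by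
          rw [s.comb_apply, k1, ← map_star]
          have k5 : S (u n) * (S (φ0 a) * s.β p + S (φ1 a) * s.β (1 - p)) * S (star (u n)) =
              S (u n * φ0 a * star (u n)) * s.β p + S (u n * φ1 a * star (u n)) * s.β (1 - p) := by
            rw [mul_add, add_mul]
            congr 1
            · calc S (u n) * (S (φ0 a) * s.β p) * S (star (u n))
                  = S (u n) * S (φ0 a) * (s.β p * S (star (u n))) := by simp only [mul_assoc]
                _ = _ := by rw [k2, map_mul, map_mul]; simp only [mul_assoc]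
            · calc S (u n) * (S (φ1 a) * s.β (1 - p)) * S (star (u n))
                  = S (u n) * S (φ1 a) * (s.β (1 - p) * S (star (u n))) := by
                    simp only [mul_assoc]
                _ = _ := by rw [k3, map_mul, map_mul]; simp only [mul_assoc]
          rw [k5, map_sub S, map_sub S, sub_mul, sub_mul, k0, k0]
          abel
        rw [k4]
        refine (norm2_add_le _ _).trans (add_le_add ?_ ?_)
        · refine (norm2_mul_le' _ _).trans (le_of_eq ?_)
          congr 1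
          exact hS.n2_eq _
        · refine (norm2_mul_le' _ _).trans (le_of_eq ?_)
          congr 1
          exact hS.n2_eq _
    have w2 : WAE ρ (s.α.comp π) := WAE.of_unitary W hW fun a => rfl
    have w3 : WAE (s.α.comp π) π := ⟨u, hu, fun a => hua' (π a)⟩
    exact (w1.trans (w2.trans w3)).symm
  · intro hcon
    have h1 := hcon.tr_eq a0
    have h2 := hS.tr_corner hv 0 (φ0 a0)
    rw [hφ0] at h2
    have h3 : (ptr M.tw).tr (J 0 (mu 0 0) * ρ a0) = M.τ z := by
      show M.τ (J 0 (mu 0 0) * ρ a0) = M.τ z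
      rw [hJ0, ← hWe, hρa]
      have k1 : W * e * star W * (W * s.α (π a0) * star W) = W * (e * s.α z) * star W := by
        calc W * e * star W * (W * s.α (π a0) * star W)
            = W * e * (star W * W) * s.α z * star W := by simp only [mul_assoc, hzd]
          _ = _ := by rw [hW1, mul_one]; simp only [mul_assoc]
      have k2 : e * s.α z = s.α z := by
        rw [he, add_mul, ← map_mul, hzz, mul_assoc, ← hαβ, ← mul_assoc, ← map_mul, sub_mul, one_mul,
          hzz, sub_self, map_zero, zero_mul, add_zero]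
      rw [k1, k2, M.tracial, ← mul_assoc, hW1, one_mul, s.trα]
    rw [h3] at h2
    change M.τ z = M.τ (φ0 a0) / 2 at h2
    rw [h1, hzd] at h2
    have h4 : M.τ z = 0 := by linear_combination 2 * h2
    apply hz0
    apply M.faithful
    rw [hzs, hzz, h4]

/-- If the image of `π` contains a nontrivial projection that is central in the image, then `[π]` is
a convex combination with weights `1/2` of two classes, the first of which is not `[π]`. -/
theorem ne_lemma {A : Type} [Ring A] [StarRing A] [Algebra ℂ A] (hM : M.IsIIOneFactor)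
    (hR : R.IsHyperfinite) (s : Sig M R) (p : R.E) (hp : IsStarProjection p) (hpt : R.τ p = 1 / 2)
    (π : A →⋆ₐ[ℂ] M.E) (a0 : A) (hz : IsStarProjection (π a0))
    (hzc : ∀ a, π a0 * π a = π a * π a0) (hz0 : π a0 ≠ 0) (hz1 : π a0 ≠ 1) :
    ∃ π₁ π₂ : A →⋆ₐ[ℂ] M.E, WAE π (s.comb p hp π₁ π₂) ∧ ¬ WAE π₁ π := by
  by_cases h : (M.τ (π a0)).re ≤ 1 / 2
  · exact ne_aux hM hR s p hp hpt π a0 hz hzc hz0 h
  · have e : π (1 - a0) = 1 - π a0 := by rw [map_sub, map_one]
    refine ne_aux hM hR s p hp hpt π (1 - a0) ?_ ?_ ?_ ?_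
    · rw [e]; exact hz.one_sub
    · intro a
      rw [e, sub_mul, mul_sub, hzc, one_mul, mul_one]
    · rw [e]
      exact sub_ne_zero.2 (Ne.symm hz1)
    · rw [e, map_sub, M.map_one, Complex.sub_re, Complex.one_re]
      rw [not_le] at h
      linarith

/-- No extreme points if every homomorphism has a nontrivial central projection in its image. -/
theorem no_ext {A : Type} [Ring A] [StarRing A] [Algebra ℂ A] (hM : M.IsIIOneFactor)
    (hA : ∀ π : A →⋆ₐ[ℂ] M.E, ∃ a0, IsStarProjection (π a0) ∧ (∀ a, π a0 * π a = π a * π a0) ∧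
      π a0 ≠ 0 ∧ π a0 ≠ 1)
    (hR : R.IsHyperfinite) (s : Sig M R) (c : Choice R) (x : HomW A M) : ¬ s.IsExt c x := by
  intro hx
  obtain ⟨π, rfl⟩ : ∃ π, HomW.mk π = x := Quotient.exists_rep x
  obtain ⟨a0, h1, h2, h3, h4⟩ := hA π
  have ht : (1 / 2 : ℝ) ∈ Set.Icc (0 : ℝ) 1 := ⟨by norm_num, by norm_num⟩
  obtain ⟨π₁, π₂, h5, h6⟩ := ne_lemma hM hR s (c.P ⟨1 / 2, ht⟩) (c.prj ⟨1 / 2, ht⟩)
    (by rw [c.tr]; push_cast; rfl) π a0 h1 h2 h3 h4
  have h7 := hx ⟨1 / 2, ht⟩ (by norm_num) (by norm_num) (HomW.mk π₁) (HomW.mk π₂)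
    (HomW.mk_eq.2 h5)
  exact h6 (HomW.mk_eq.1 h7.1)

end Pool.Agent.W403.EP
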