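import Pool.Agent.W403.EP.KT
import Pool.Agent.W403.EP.NE

/-!
Construction of a homomorphism of `Gam` to the unitary group whose spectrum on the central subgroup
avoids a given sequence of characters.
-/

set_option autoImplicit false
set_option linter.unusedSectionVars false

open scoped ComplexOrder Topology
open Filter

namespace Pool.Agent.W403.EP

open Pool.Agent.H504R3 (TVN)
open Pool.Agent.Helper234.Brown (PTr IsVN)
open Pool.Agent.H518R4.UG (IsPrj)
open Polynomial

section avg

variable {A : Type} [Ring A] [StarRing A] [Algebra ℂ A] [StarModule ℂ A]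
  {T : Type} [AddCommGroup T] [Fintype T]

/-- the average of a homomorphism of a finite group -/
noncomputable def avT (ψ : T → A) : A := ((Fintype.card T : ℂ))⁻¹ • ∑ f, ψ f

theorem avT_star (ψ : T → A) (hs : ∀ f, star (ψ f) = ψ (-f)) : star (avT ψ) = avT ψ := by
  unfold avT
  rw [star_smul, star_sum, star_inv₀, star_natCast]
  congr 1
  simp only [hs]
  exact Fintype.sum_equiv (Equiv.neg T) _ _ (fun f => rfl)

theorem avT_mul (ψ : T → A) (hm : ∀ f g, ψ (f + g) = ψ f * ψ g) (g : T) :
    avT ψ * ψ g = avT ψ := by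
  unfold avT
  rw [smul_mul_assoc, Finset.sum_mul]
  congr 1
  simp only [← hm]
  exact Fintype.sum_equiv (Equiv.addRight g) _ _ (fun f => rfl)

theorem avT_idem (ψ : T → A) (hm : ∀ f g, ψ (f + g) = ψ f * ψ g) :
    avT ψ * avT ψ = avT ψ := by
  have h1 : avT ψ * avT ψ = ((Fintype.card T : ℂ))⁻¹ • ∑ f, avT ψ * ψ f := by
    conv_lhs => enter [2]; unfold avT
    rw [mul_smul_comm, Finset.mul_sum]
  rw [h1]
  simp only [avT_mul ψ hm]
  rw [Finset.sum_const, Finset.card_univ, ← Nat.cast_smul_eq_nsmul ℂ, smul_smul, inv_mul_cancel₀,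
    one_smul]
  exact Nat.cast_ne_zero.2 Fintype.card_ne_zero

theorem avT_comm (ψ : T → A) (c : A) (hc : ∀ f, c * ψ f = ψ f * c) : c * avT ψ = avT ψ * c := by
  unfold avT
  rw [mul_smul_comm, smul_mul_assoc, Finset.mul_sum, Finset.sum_mul]
  congr 1
  exact Finset.sum_congr rfl fun f _ => hc f

theorem avT_tr (ψ : T → A) (τ : A →ₗ[ℂ] ℂ) (h0 : τ (ψ 0) = 1) (h1 : ∀ f, f ≠ 0 → τ (ψ f) = 0) :
    τ (avT ψ) = ((Fintype.card T : ℂ))⁻¹ := by
  unfold avT
  rw [map_smul, map_sum, Finset.sum_eq_single 0 (fun f _ hf => h1 f hf) (by simp), h0,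
    smul_eq_mul, mul_one]

end avg

section qq

variable {M : TVN}

/-- the products of the complements -/
noncomputable def qn (e : ℕ → M.E) : ℕ → M.E
  | 0 => 1
  | n + 1 => qn e n * (1 - e n)

theorem qn_comm (e : ℕ → M.E) (c : M.E) (hc : ∀ i, c * e i = e i * c) (n : ℕ) :
    c * qn e n = qn e n * c := by
  induction n with
  | zero => rw [qn, mul_one, one_mul]
  | succ n ih =>
    rw [qn, ← mul_assoc, ih, mul_assoc, mul_assoc]
    congr 1
    rw [mul_sub, sub_mul, hc, mul_one, one_mul]

variable (e : ℕ → M.E) (he : ∀ i, IsPrj (e i)) (hee : ∀ i k, e i * e k = e k * e i)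

include he hee in
theorem qn_prj (n : ℕ) : IsPrj (qn e n) := by
  induction n with
  | zero => exact ⟨star_one _, one_mul _⟩
  | succ n ih =>
    have h1 : e n * qn e n = qn e n * e n := qn_comm e (e n) (fun i => hee n i) n
    have h2 : (1 - e n) * qn e n = qn e n * (1 - e n) := by
      rw [sub_mul, mul_sub, h1, one_mul, mul_one]
    have h3 : star (1 - e n) = 1 - e n := by rw [star_sub, star_one, (he n).1]
    have h4 : (1 - e n) * (1 - e n) = 1 - e n :=
      IsIdempotentElem.one_sub (show IsIdempotentElem (e n) from (he n).2)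
    constructor
    · rw [qn, star_mul, ih.1, h3, h2]
    · rw [qn]
      calc qn e n * (1 - e n) * (qn e n * (1 - e n))
          = qn e n * ((1 - e n) * qn e n) * (1 - e n) := by simp only [mul_assoc]
        _ = (qn e n * qn e n) * ((1 - e n) * (1 - e n)) := by rw [h2]; simp only [mul_assoc]
        _ = _ := by rw [ih.2, h4]

include he hee in
theorem qn_dec (n : ℕ) : qn e n * qn e (n + 1) = qn e (n + 1) := by
  rw [qn, ← mul_assoc, (qn_prj e he hee n).2]

include he hee in
theorem e_qn (i n : ℕ) (h : i < n) : e i * qn e n = 0 := by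
  induction n with
  | zero => omega
  | succ n ih =>
    rcases Nat.lt_succ_iff_lt_or_eq.1 h with h | h
    · rw [qn, ← mul_assoc, ih h, zero_mul]
    · subst h
      have h1 : e i * qn e i = qn e i * e i := qn_comm e (e i) (fun k => hee i k) i
      rw [qn, ← mul_assoc, h1, mul_assoc, mul_sub, mul_one, (he i).2, sub_self, mul_zero]

include he hee in
theorem qn_tr (ht : ∀ i, (M.τ (e i)).re ≤ (1 / 4) ^ (i + 1)) (n : ℕ) :
    1 / 2 + (1 / 2) ^ (n + 1) ≤ (M.τ (qn e n)).re := by
  induction n with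
  | zero =>
    rw [qn, M.map_one, Complex.one_re]
    norm_num
  | succ n ih =>
    have h1 : e n * qn e n = qn e n * e n := qn_comm e (e n) (fun i => hee n i) n
    have h2 : IsStarProjection ((1 - qn e n) * e n) := by
      have hq := qn_prj e he hee n
      have k1 : (1 - qn e n) * e n = e n * (1 - qn e n) := by
        rw [sub_mul, mul_sub, h1, one_mul, mul_one]
      have k2 : star (1 - qn e n) = 1 - qn e n := by rw [star_sub, star_one, hq.1]
      have k3 : (1 - qn e n) * (1 - qn e n) = 1 - qn e n :=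
        IsIdempotentElem.one_sub (show IsIdempotentElem (qn e n) from hq.2)
      refine isPrj_iff.1 ⟨?_, ?_⟩
      · rw [star_mul, k2, (he n).1, k1]
      · calc (1 - qn e n) * e n * ((1 - qn e n) * e n)
            = (1 - qn e n) * (e n * (1 - qn e n)) * e n := by simp only [mul_assoc]
          _ = ((1 - qn e n) * (1 - qn e n)) * (e n * e n) := by rw [← k1]; simp only [mul_assoc]
          _ = _ := by rw [k3, (he n).2]
    have h3 := (tr_prj h2).2
    have h4 : M.τ (qn e (n + 1)) = M.τ (qn e n) - M.τ (e n) + M.τ ((1 - qn e n) * e n) := by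
      rw [qn, mul_sub, sub_mul, mul_one, one_mul, map_sub, map_sub]
      ring
    rw [h4, Complex.add_re, Complex.sub_re]
    have h5 := ht n
    have h6 : ((1 : ℝ) / 4) ^ (n + 1) ≤ (1 / 2) ^ (n + 1) - (1 / 2) ^ (n + 2) := by
      have e1 : ((1 : ℝ) / 4) ^ (n + 1) = (1 / 2) ^ (n + 1) * (1 / 2) ^ (n + 1) := by
        rw [← mul_pow]; norm_num
      have e2 : ((1 : ℝ) / 2) ^ (n + 1) ≤ 1 / 2 := by
        have := pow_le_pow_of_le_one (show (0 : ℝ) ≤ 1 / 2 by norm_num)
          (show (1 / 2 : ℝ) ≤ 1 by norm_num) (show 1 ≤ n + 1 by omega)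
        simpa using this
      have e3 : (0 : ℝ) < (1 / 2) ^ (n + 1) := by positivity
      rw [e1, pow_succ (1 / 2 : ℝ) (n + 1)]
      nlinarith
    linarith

include he hee in
/-- the limit projection -/
theorem exists_q (ht : ∀ i, (M.τ (e i)).re ≤ (1 / 4) ^ (i + 1)) :
    ∃ q : M.E, IsPrj q ∧ 1 / 2 ≤ (M.τ q).re ∧ (∀ i, e i * q = 0) ∧
      ∀ c, (∀ i, c * e i = e i * c) → c * q = q * c := by
  obtain ⟨q, hq1, hq2, hq3⟩ := Pool.Agent.H518R4.UG.p_LIMP (Pool.Agent.H467F.Elt M.N) M.τ M.tw
    (qn e) (qn_prj e he hee) (qn_dec e he hee)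
  refine ⟨q, hq1, ?_, ?_, ?_⟩
  · have h2 : Tendsto (fun n => (M.τ (qn e n)).re) atTop (𝓝 (M.τ q).re) := by
      have : Tendsto (fun n => M.τ (qn e n)) atTop (𝓝 (M.τ q)) := by
        rw [tendsto_iff_norm_sub_tendsto_zero]
        refine squeeze_zero (fun n => norm_nonneg _) (fun n => ?_) hq3
        rw [← map_sub]
        exact (Pool.Agent.H467F.tau_bounds M.tw).1 _
      exact (Complex.continuous_re.tendsto _).comp this
    refine ge_of_tendsto' h2 fun n => ?_
    have := qn_tr e he hee ht n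
    have h3 : (0 : ℝ) < (1 / 2) ^ (n + 1) := by positivity
    linarith
  · intro i
    rw [← hq2 (i + 1), ← mul_assoc, e_qn e he hee i (i + 1) (Nat.lt_succ_self i), zero_mul]
  · intro c hc
    have hv := isVN M.tw
    have h1 : Tendsto (fun n => (ptr M.tw).n2 (qn e n - q)) atTop (𝓝 0) := hq3
    have h2 : (ptr M.tw).n2 (c * q - q * c) = 0 := by
      have h3 : Tendsto (fun n => ‖c‖ * (ptr M.tw).n2 (qn e n - q) +
          (ptr M.tw).n2 (qn e n - q) * ‖c‖) atTop (𝓝 0) := by
        have := (h1.const_mul ‖c‖).add (h1.mul_const ‖c‖)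
        simpa using this
      apply le_antisymm _ ((ptr M.tw).n2_nonneg _)
      refine ge_of_tendsto' h3 fun n => ?_
      have e1 : c * q - q * c = (qn e n - q) * c - c * (qn e n - q) := by
        rw [sub_mul, mul_sub, qn_comm e c hc n]
        abel
      rw [e1]
      have k1 := (ptr M.tw).n2_sub_le ((qn e n - q) * c) (c * (qn e n - q))
      have k2 := (ptr M.tw).n2_mul_le c (qn e n - q)
      have k3 := (ptr M.tw).n2_mul_le' (qn e n - q) c
      linarith
    exact sub_eq_zero.1 (hv.n2_eq_zero h2)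

end qq

end Pool.Agent.W403.EP
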