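import Pool.Agent.W403.EP.QQ

/-!
The homomorphism `ρ` of `Gam` to the unitary group of the factor.
-/

set_option autoImplicit false
set_option linter.unusedSectionVars false

open scoped ComplexOrder Topology
open Filter

namespace Pool.Agent.W403.EP

open Pool.Agent.H504R3 (TVN)
open Pool.Agent.H518R4.UG (IsPrj)
open Polynomial

/-- characters of the additive group of `kk[X]` -/
structure IsCh (x : kk[X] → ℂ) : Prop where
  add : ∀ f g, x (f + g) = x f * x g
  nrm : ∀ f, star (x f) * x f = 1

theorem IsCh.ne {x : kk[X] → ℂ} (h : IsCh x) (f : kk[X]) : x f ≠ 0 := by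
  intro h0
  have := h.nrm f
  rw [h0, mul_zero] at this
  exact zero_ne_one this

theorem IsCh.zero {x : kk[X] → ℂ} (h : IsCh x) : x 0 = 1 := by
  have h1 := h.add 0 0
  rw [add_zero] at h1
  exact (mul_eq_left₀ (h.ne 0)).1 h1.symm

theorem IsCh.neg {x : kk[X] → ℂ} (h : IsCh x) (f : kk[X]) : star (x f) = x (-f) := by
  have h1 := h.add (-f) f
  rw [neg_add_cancel, h.zero] at h1
  exact mul_right_cancel₀ (h.ne f) ((h.nrm f).trans h1)

theorem bad_isCh {M : TVN} {x : kk[X] → ℂ} (hx : x ∈ Bad M) : IsCh x := by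
  obtain ⟨ρ, hρ⟩ := hx
  have hτ : ∀ c : ℂ, M.τ (c • (1 : M.E)) = c := fun c => by
    rw [map_smul, M.map_one, smul_eq_mul, mul_one]
  constructor
  · intro f g
    have h1 : (ρ (nu (f + g)) : M.E) = (ρ (nu f) : M.E) * ρ (nu g) := by
      rw [nu_add, map_mul]; rfl
    rw [hρ, hρ, hρ, smul_mul_smul_comm, mul_one] at h1
    have := congrArg M.τ h1
    rwa [hτ, hτ] at this
  · intro f
    have h1 : star (ρ (nu f) : M.E) * ρ (nu f) = 1 := Unitary.coe_star_mul_self _
    rw [hρ, star_smul, star_one, smul_mul_smul_comm, mul_one] at h1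
    have := congrArg M.τ h1
    rwa [hτ, M.map_one] at this

theorem one_isCh : IsCh (fun _ => (1 : ℂ)) := ⟨fun _ _ => by rw [mul_one], fun _ => by simp⟩

noncomputable instance fdT (n : ℕ) : Fintype (degreeLT kk n) :=
  Fintype.ofEquiv (Fin n → kk) (degreeLTEquiv kk n).symm.toEquiv

theorem card_dT (n : ℕ) : Fintype.card (degreeLT kk n) = 9 ^ n := by
  rw [Fintype.card_congr (degreeLTEquiv kk n).toEquiv, Fintype.card_fun, Fintype.card_fin,
    ← Nat.card_eq_fintype_card, card_kk]

section rho

variable {M R : TVN} (hM : M.IsIIOneFactor) (hR : R.IsIIOneFactor) (ι : R.E →⋆ₐ[ℂ] M.E)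
  (htr : ∀ c : M.E, (∀ y, c * ι y = ι y * c) → ∀ y, M.τ (c * ι y) = M.τ c * R.τ y)
  (u : Gam → M.E) (u1 : u 1 = 1) (um : ∀ g h, u g * u h = u (g * h))
  (us : ∀ g, star (u g) = u g⁻¹) (ut : ∀ g, g ≠ 1 → M.τ (u g) = 0)
  (uc : ∀ g y, u g * ι y = ι y * u g)

include hM hR htr u1 um us ut uc in
theorem exists_rho (x : ℕ → kk[X] → ℂ) (hx : ∀ i, IsCh (x i)) :
    ∃ ρ : Gam →* unitary M.E, ∀ i,
      ∑ f : degreeLT kk (i + 1), star (x i (f : kk[X])) • (ρ (nu (f : kk[X])) : M.E) = 0 := by
  -- the averages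
  set ψ : ∀ i : ℕ, degreeLT kk (i + 1) → M.E := fun i f =>
    star (x i (f : kk[X])) • u (nu (f : kk[X])) with hψ
  have hψm : ∀ i f g, ψ i (f + g) = ψ i f * ψ i g := by
    intro i f g
    simp only [hψ]
    rw [smul_mul_smul_comm, um, ← nu_add, ← star_mul', ← (hx i).add]
    rfl
  have hnn : ∀ f : kk[X], nu (-f) = (nu f)⁻¹ := by
    intro f
    rw [eq_inv_iff_mul_eq_one, ← nu_add, neg_add_cancel, nu_zero]
  have hψs : ∀ i f, star (ψ i f) = ψ i (-f) := by
    intro i f
    simp only [hψ]
    rw [star_smul, us, ← hnn, star_star]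
    congr 1
    show x i (f : kk[X]) = star (x i (-(f : kk[X])))
    rw [(hx i).neg, neg_neg]
  set e : ℕ → M.E := fun i => avT (ψ i) with he
  have hep : ∀ i, IsPrj (e i) := fun i => ⟨avT_star _ (hψs i), avT_idem _ (hψm i)⟩
  have hec : ∀ c : M.E, (∀ f, c * u (nu f) = u (nu f) * c) → ∀ i, c * e i = e i * c := by
    intro c hc i
    refine avT_comm _ _ fun f => ?_
    simp only [hψ]
    rw [mul_smul_comm, smul_mul_assoc, hc]
  have huf : ∀ g f, u g * u (nu f) = u (nu f) * u g := fun g f => by rw [um, um, nu_comm]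
  have hue : ∀ g i, u g * e i = e i * u g := fun g => hec _ (huf g)
  have hιe : ∀ y i, ι y * e i = e i * ι y := fun y => hec _ fun f => (uc _ _).symm
  have hee : ∀ i k, e i * e k = e k * e i := by
    intro i k
    refine hec _ (fun f => (hue _ _).symm) k
  have het : ∀ i, (M.τ (e i)).re ≤ (1 / 4) ^ (i + 1) := by
    intro i
    have h1 : M.τ (e i) = ((Fintype.card (degreeLT kk (i + 1)) : ℂ))⁻¹ := by
      refine avT_tr _ _ ?_ ?_
      · show M.τ (star (x i ((0 : degreeLT kk (i + 1)) : kk[X])) • u (nu _)) = 1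
        rw [Submodule.coe_zero, (hx i).zero, nu_zero, u1, star_one, one_smul, M.map_one]
      · intro f hf
        show M.τ (star (x i (f : kk[X])) • u (nu _)) = 0
        rw [map_smul, ut, smul_zero]
        intro h
        apply hf
        apply Subtype.ext
        apply nu_inj
        rw [h]
        exact nu_zero.symm
    rw [h1, card_dT]
    have h2 : (((9 ^ (i + 1) : ℕ) : ℂ))⁻¹ = (((1 / 9 : ℝ) ^ (i + 1) : ℝ) : ℂ) := by
      push_cast
      rw [one_div, inv_pow]
    rw [h2, Complex.ofReal_re]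
    exact pow_le_pow_left₀ (by norm_num) (by norm_num) _
  obtain ⟨q, hq, hqt, heq, hqc⟩ := exists_q e hep hee het
  have hqu : ∀ g, u g * q = q * u g := fun g => hqc _ (hue g)
  have hqι : ∀ y, q * ι y = ι y * q := fun y => (hqc _ (hιe y)).symm
  -- the traces
  obtain ⟨hq1, hq0⟩ := tr_prj (isPrj_iff.1 hq)
  have hq1' := Pool.Agent.H518R4.UG.al_prj_sub (A := Pool.Agent.H467F.Elt M.N) hq
  obtain ⟨hs1, hs0⟩ := tr_prj (isPrj_iff.1 hq1')
  have hs2 : (M.τ (1 - q)).re = 1 - (M.τ q).re := by
    rw [map_sub, M.map_one, Complex.sub_re, Complex.one_re]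
  set c := (M.τ q).re with hcd
  rw [hs2] at hs1 hs0
  obtain ⟨p, hp, hpt⟩ := exists_prj hR ((1 - c) / c) (div_nonneg hs0 (by linarith))
    (by rw [div_le_one (by linarith)]; linarith)
  have hps : star (ι p) = ι p := by rw [← map_star, hp.isSelfAdjoint.star_eq]
  have hpi : ι p * ι p = ι p := by rw [← map_mul, hp.isIdempotentElem.eq]
  set r : M.E := q * ι p with hr
  have hrp : IsPrj r := by
    constructor
    · rw [hr, star_mul, hq.1, hps, hqι]
    · rw [hr]
      calc q * ι p * (q * ι p) = q * (ι p * q) * ι p := by simp only [mul_assoc]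
        _ = (q * q) * (ι p * ι p) := by rw [← hqι]; simp only [mul_assoc]
        _ = _ := by rw [hq.2, hpi]
  have hrt : M.τ (1 - q) = M.τ r := by
    rw [hr, htr q hqι, hpt, hq1, hs1, ← Complex.ofReal_mul, mul_div_cancel₀ _ (by linarith)]
  have hru : ∀ g, u g * r = r * u g := by
    intro g
    rw [hr, ← mul_assoc, hqu, mul_assoc, uc, mul_assoc]
  have hqr : q * r = r := by rw [hr, ← mul_assoc, hq.2]
  obtain ⟨b, hb1, hb2⟩ := Pool.Agent.H518R4.UG.al_eq (A := Pool.Agent.H467F.Elt M.N) (M.fct hM)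
    hq1' hrp hrt
  have hb3 : b * (1 - q) = b :=
    Pool.Agent.H518R4.UG.al_mul_dom (A := Pool.Agent.H467F.Elt M.N) M.tw hq1' hb1
  have hbq : b * q = 0 := by
    rw [mul_sub, mul_one] at hb3
    exact sub_eq_self.1 hb3
  have hrb : r * b = b := by rw [← hb2, mul_assoc, hb1, hb3]
  have hqb : q * b = b := by
    conv_lhs => rw [← hrb]
    rw [← mul_assoc, hqr, hrb]
  have hqbs : q * star b = 0 := by
    have := congrArg star hbq
    rwa [star_mul, hq.1, star_zero] at this
  -- the homomorphism
  set ρ : Gam → M.E := fun g => u g * q + star b * u g * b with hρ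
  have ρ1 : ρ 1 = 1 := by
    simp only [hρ]
    rw [u1, one_mul, mul_one, hb1, add_sub_cancel]
  have ρm : ∀ g h, ρ g * ρ h = ρ (g * h) := by
    intro g h
    simp only [hρ]
    have k1 : u g * q * (u h * q) = u (g * h) * q := by
      calc u g * q * (u h * q) = u g * (q * u h) * q := by simp only [mul_assoc]
        _ = (u g * u h) * (q * q) := by rw [← hqu]; simp only [mul_assoc]
        _ = _ := by rw [um, hq.2]
    have k2 : u g * q * (star b * u h * b) = 0 := by
      calc u g * q * (star b * u h * b) = u g * (q * star b) * u h * b := by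
            simp only [mul_assoc]
        _ = 0 := by rw [hqbs, mul_zero, zero_mul, zero_mul]
    have k3 : star b * u g * b * (u h * q) = 0 := by
      calc star b * u g * b * (u h * q) = star b * u g * b * (q * u h) := by rw [hqu]
        _ = star b * u g * (b * q) * u h := by simp only [mul_assoc]
        _ = 0 := by rw [hbq, mul_zero, zero_mul]
    have k4 : star b * u g * b * (star b * u h * b) = star b * u (g * h) * b := by
      calc star b * u g * b * (star b * u h * b) = star b * u g * (b * star b) * u h * b := by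
            simp only [mul_assoc]
        _ = star b * (u g * r) * u h * b := by rw [hb2]; simp only [mul_assoc]
        _ = star b * (r * u g) * u h * b := by rw [hru]
        _ = (star b * r) * (u g * u h) * b := by simp only [mul_assoc]
        _ = _ := by
            have : star b * r = star b := by
              have := congrArg star hrb
              rwa [star_mul, hrp.1] at this
            rw [this, um]
    rw [add_mul, mul_add, mul_add, k1, k2, k3, k4, add_zero, zero_add]
  have ρs : ∀ g, star (ρ g) = ρ g⁻¹ := by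
    intro g
    simp only [hρ]
    rw [star_add, star_mul, star_mul, star_mul, star_star, hq.1, us, ← hqu]
    simp only [mul_assoc]
  have ρu : ∀ g, ρ g ∈ unitary M.E := by
    intro g
    rw [Unitary.mem_iff, ρs, ρm, ρm, inv_mul_cancel, mul_inv_cancel, ρ1]
    exact ⟨rfl, rfl⟩
  refine ⟨{ toFun := fun g => ⟨ρ g, ρu g⟩, map_one' := Subtype.ext ρ1,
            map_mul' := fun g h => Subtype.ext (ρm g h).symm }, fun i => ?_⟩
  show ∑ f : degreeLT kk (i + 1), star (x i (f : kk[X])) • ρ (nu (f : kk[X])) = 0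
  have k0 : ∑ f : degreeLT kk (i + 1), ψ i f = (Fintype.card (degreeLT kk (i + 1)) : ℂ) • e i := by
    simp only [he]
    unfold avT
    rw [smul_smul, mul_inv_cancel₀ (Nat.cast_ne_zero.2 Fintype.card_ne_zero), one_smul]
  have k1 : ∑ f : degreeLT kk (i + 1), star (x i (f : kk[X])) • ρ (nu (f : kk[X])) =
      (∑ f, ψ i f) * q + star b * (∑ f, ψ i f) * b := by
    rw [Finset.mul_sum, Finset.sum_mul, Finset.sum_mul, ← Finset.sum_add_distrib]
    refine Finset.sum_congr rfl fun f _ => ?_
    simp only [hρ, hψ]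
    rw [smul_add, smul_mul_assoc, mul_smul_comm, smul_mul_assoc]
  have k2 : e i * b = 0 := by
    rw [← hqb, ← mul_assoc, heq, zero_mul]
  rw [k1, k0, smul_mul_assoc, heq, smul_zero, zero_add, mul_smul_comm, smul_mul_assoc, mul_assoc,
    k2, mul_zero, smul_zero]

end rho

end Pool.Agent.W403.EP
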