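import Mathlib
import Pool.Agent.H146R2.SD.EXW
import Pool.Agent.H504R3.Defs

/-!
Twisted group von Neumann algebras of discrete groups with a bimultiplicative cocycle with values
in `{1, -1}`, and the subalgebras generated by subgroups.
-/

set_option autoImplicit false
set_option linter.unusedSectionVars false

open scoped ComplexConjugate Topology
open Filter

namespace Pool.Agent.W403.EP

open Pool.Agent.Helper278 hiding sg
open Pool.Agent.Helper436.SM
open Pool.Agent.H504R3 (TVN)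
open scoped InnerProductSpace ComplexOrder

/-- bimultiplicative maps to `ZMod 2` -/
structure Bi (G : Type) [Group G] where
  b : G → G → ZMod 2
  left : ∀ x y z, b (x * y) z = b x z + b y z
  right : ∀ x y z, b x (y * z) = b x y + b x z

section

variable {G : Type} [Group G] (β : Bi G)

theorem Bi.one_left (z : G) : β.b 1 z = 0 := by
  have := β.left 1 1 z
  rw [one_mul] at this
  exact left_eq_add.1 this

theorem Bi.one_right (z : G) : β.b z 1 = 0 := by
  have := β.right z 1 1
  rw [one_mul] at this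
  exact left_eq_add.1 this

theorem Bi.inv_left (x z : G) : β.b x⁻¹ z = - β.b x z := by
  have := β.left x⁻¹ x z
  rw [inv_mul_cancel, β.one_left] at this
  exact eq_neg_of_add_eq_zero_left this.symm

theorem Bi.inv_right (x z : G) : β.b x z⁻¹ = - β.b x z := by
  have := β.right x z⁻¹ z
  rw [inv_mul_cancel, β.one_right] at this
  exact eq_neg_of_add_eq_zero_left this.symm

theorem sg_neg (a : ZMod 2) : sg (-a) = sg a := by
  have : ∀ a : ZMod 2, -a = a := by decide
  rw [this]

theorem conj_sg (a : ZMod 2) : conj (sg a) = sg a := star_sg a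

theorem sg_zero : sg 0 = 1 := if_pos rfl

/-- twisted translation operators -/
noncomputable def sop (s : G → ℂ) (hs : ∀ h, ‖s h‖ = 1) (e : G ≃ G) :
    EllTwo G →L[ℂ] EllTwo G :=
  LinearIsometry.toContinuousLinearMap
    { toFun := fun f => ⟨fun h => s h * f (e h), by
        have h1 := (lp.memℓp f).summable (by norm_num)
        refine memℓp_gen ?_
        have h2 := (e.summable_iff
          (f := fun h => ‖f h‖ ^ (2 : ENNReal).toReal)).2 h1
        refine h2.congr fun h => ?_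
        rw [norm_mul, hs, one_mul]
        rfl⟩
      map_add' := fun f g => by
        ext h
        show s h * (f + g) (e h) = s h * f (e h) + s h * g (e h)
        rw [lp.coeFn_add, Pi.add_apply, mul_add]
      map_smul' := fun c f => by
        ext h
        show s h * (c • f) (e h) = c * (s h * f (e h))
        rw [lp.coeFn_smul, Pi.smul_apply, smul_eq_mul]
        ring
      norm_map' := fun f => by
        have h1 : (0 : ℝ) < (2 : ENNReal).toReal := by norm_num
        rw [lp.norm_eq_tsum_rpow h1, lp.norm_eq_tsum_rpow h1]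
        congr 1
        rw [← e.tsum_eq (fun h => ‖f h‖ ^ (2 : ENNReal).toReal)]
        refine tsum_congr fun h => ?_
        show ‖s h * f (e h)‖ ^ _ = ‖f (e h)‖ ^ _
        rw [norm_mul, hs, one_mul] }

/-- the left operators -/
noncomputable def Lo (g : G) : EllTwo G →L[ℂ] EllTwo G :=
  sop (fun h => sg (β.b g (g⁻¹ * h))) (fun _ => norm_sg _) (Equiv.mulLeft g⁻¹)

/-- the right operators -/
noncomputable def Ro (g : G) : EllTwo G →L[ℂ] EllTwo G :=
  sop (fun h => sg (β.b (h * g⁻¹) g)) (fun _ => norm_sg _) (Equiv.mulRight g⁻¹)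

theorem Lo_apply (g : G) (f : EllTwo G) (h : G) :
    (Lo β g f) h = sg (β.b g (g⁻¹ * h)) * f (g⁻¹ * h) := rfl

theorem Ro_apply (g : G) (f : EllTwo G) (h : G) :
    (Ro β g f) h = sg (β.b (h * g⁻¹) g) * f (h * g⁻¹) := rfl

theorem Lo_one : Lo β 1 = 1 := by
  ext f h
  rw [Lo_apply, β.one_left, sg_zero, one_mul, inv_one, one_mul]
  rfl

theorem Lo_mul (v w : G) : Lo β v * Lo β w = sg (β.b v w) • Lo β (v * w) := by
  ext f h
  show (Lo β v (Lo β w f)) h = sg (β.b v w) * (Lo β (v * w) f) h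
  have h1 : w⁻¹ * (v⁻¹ * h) = (v * w)⁻¹ * h := by group
  have h2 : β.b v (v⁻¹ * h) + β.b w ((v * w)⁻¹ * h) =
      β.b v w + β.b (v * w) ((v * w)⁻¹ * h) := by
    simp only [mul_inv_rev, β.left, β.right, β.inv_right]
    abel
  rw [Lo_apply, Lo_apply, Lo_apply, h1, ← mul_assoc (sg _) (sg _), ← mul_assoc (sg _) (sg _),
    ← sg_add, ← sg_add, h2]

theorem Lo_Ro (v u : G) : Lo β v * Ro β u = Ro β u * Lo β v := by
  ext f h
  show (Lo β v (Ro β u f)) h = (Ro β u (Lo β v f)) h
  have h1 : v⁻¹ * h * u⁻¹ = v⁻¹ * (h * u⁻¹) := mul_assoc _ _ _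
  have h2 : β.b v (v⁻¹ * h) + β.b (v⁻¹ * (h * u⁻¹)) u =
      β.b (h * u⁻¹) u + β.b v (v⁻¹ * (h * u⁻¹)) := by
    simp only [β.left, β.right, β.inv_right, β.inv_left]
    abel
  rw [Lo_apply, Ro_apply, Ro_apply, Lo_apply, h1, ← mul_assoc (sg _) (sg _),
    ← mul_assoc (sg _) (sg _), ← sg_add, ← sg_add, h2]

theorem inner_real (s : ℂ) (hs : conj s = s) (a b : ℂ) : ⟪s * a, b⟫_ℂ = ⟪a, s * b⟫_ℂ := by
  rw [← smul_eq_mul, ← smul_eq_mul, inner_smul_left, inner_smul_right, hs]

theorem star_Lo (v : G) : star (Lo β v) = sg (β.b v v) • Lo β v⁻¹ := by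
  rw [ContinuousLinearMap.star_eq_adjoint]
  symm
  rw [ContinuousLinearMap.eq_adjoint_iff]
  intro x y
  have h1 := lp.hasSum_inner (𝕜 := ℂ) ((sg (β.b v v) • Lo β v⁻¹) x) y
  have h2 := lp.hasSum_inner (𝕜 := ℂ) x (Lo β v y)
  have h3 := ((Equiv.mulLeft v).hasSum_iff (f := fun i => ⟪x i, (Lo β v y) i⟫_ℂ)
    (a := ⟪x, Lo β v y⟫_ℂ)).2 h2
  refine h1.unique ?_
  refine h3.congr_fun ?_
  intro i
  show ⟪sg (β.b v v) * (Lo β v⁻¹ x) i, y i⟫_ℂ = ⟪x (v * i), (Lo β v y) (v * i)⟫_ℂ
  have h4 : β.b v v + β.b v⁻¹ (v * i) = - β.b v i := by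
    simp only [β.right, β.inv_left]
    abel
  rw [Lo_apply, Lo_apply, inv_mul_cancel_left, inv_inv, ← mul_assoc (sg _) (sg _), ← sg_add, h4,
    sg_neg, inner_real _ (conj_sg _)]

/-- the von Neumann algebra generated by the left operators of the elements of `K` -/
noncomputable def NK (K : Set G) : VonNeumannAlgebra (EllTwo G) := vnGen (Lo β '' K)

theorem mem_NK {K : Set G} (z : EllTwo G →L[ℂ] EllTwo G) : z ∈ NK β K ↔
    ∀ t ∈ StarSubalgebra.centralizer ℂ (Lo β '' K), t * z = z * t ∧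
      star t * z = z * star t :=
  StarSubalgebra.mem_centralizer_iff (R := ℂ)

theorem mem_cK {K : Set G} (t : EllTwo G →L[ℂ] EllTwo G) :
    t ∈ StarSubalgebra.centralizer ℂ (Lo β '' K) ↔
      ∀ v ∈ K, Lo β v * t = t * Lo β v ∧ star (Lo β v) * t = t * star (Lo β v) := by
  rw [StarSubalgebra.mem_centralizer_iff (R := ℂ)]
  constructor
  · intro h v hv
    exact h _ ⟨v, hv, rfl⟩
  · rintro h _ ⟨v, hv, rfl⟩
    exact h v hv

theorem NK_mono {K L : Set G} (h : K ⊆ L) : ∀ x ∈ NK β K, x ∈ NK β L := by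
  intro x hx
  rw [mem_NK] at hx ⊢
  intro t ht
  refine hx t ?_
  rw [mem_cK] at ht ⊢
  exact fun v hv => ht v (h hv)

theorem Lo_mem {K : Set G} {v : G} (hv : v ∈ K) : Lo β v ∈ NK β K := by
  rw [mem_NK]
  intro t ht
  have ht' := (mem_cK β t).1 ht v hv
  refine ⟨ht'.1.symm, ?_⟩
  have h1 := congrArg star ht'.2
  rw [star_mul, star_mul, star_star] at h1
  exact h1

theorem Ro_mem_c (K : Set G) (u : G) : Ro β u ∈ StarSubalgebra.centralizer ℂ (Lo β '' K) := by
  rw [mem_cK]
  intro v _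
  refine ⟨Lo_Ro β v u, ?_⟩
  rw [star_Lo, smul_mul_assoc, mul_smul_comm, Lo_Ro]

theorem comm_Ro {K : Set G} (x : EllTwo G →L[ℂ] EllTwo G) (hx : x ∈ NK β K) (u : G) :
    Ro β u * x = x * Ro β u := by
  rw [mem_NK] at hx
  exact (hx (Ro β u) (Ro_mem_c β K u)).1

/-- the standard basis of `ℓ²(G)` -/
noncomputable def bbG (G : Type) : HilbertBasis G ℂ (EllTwo G) :=
  HilbertBasis.ofRepr (LinearIsometryEquiv.refl ℂ (EllTwo G))

theorem coef_bbG (k : G) (f : EllTwo G) : ⟪bbG G k, f⟫_ℂ = f k := by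
  rw [← (bbG G).repr_apply_apply]
  rfl

open Classical in
theorem bbG_apply (k h : G) :
    (bbG G k : EllTwo G) h = if h = k then 1 else 0 := by
  rw [← coef_bbG]
  split_ifs with hk
  · rw [hk]
    exact inner_bb_self (bbG G) k
  · exact inner_bb (bbG G) h k hk

/-- the vacuum vector -/
noncomputable def Om : EllTwo G := bbG G 1

theorem Ro_bb (w : G) : Ro β w Om = bbG G w := by
  classical
  ext h
  unfold Om
  rw [Ro_apply, bbG_apply, bbG_apply]
  by_cases hh : h = w
  · subst hh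
    rw [mul_inv_cancel, β.one_left, sg_zero]
    simp
  · have h1 : h * w⁻¹ ≠ 1 := fun h => hh (mul_inv_eq_one.1 h)
    simp [h1, hh]

theorem Lo_bb (w : G) : Lo β w Om = bbG G w := by
  classical
  ext h
  unfold Om
  rw [Lo_apply, bbG_apply, bbG_apply]
  by_cases hh : h = w
  · subst hh
    rw [inv_mul_cancel, β.one_right, sg_zero]
    simp
  · have h1 : w⁻¹ * h ≠ 1 := fun h => hh (inv_mul_eq_one.1 h).symm
    simp [h1, hh]

theorem apply_bb {K : Set G} (x : EllTwo G →L[ℂ] EllTwo G) (hx : x ∈ NK β K) (w : G) :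
    x (bbG G w) = Ro β w (x Om) := by
  have h2 := congrArg (fun z : EllTwo G →L[ℂ] EllTwo G => z Om) (comm_Ro β x hx w)
  have h3 : Ro β w (x Om) = x (Ro β w Om) := h2
  rw [h3, Ro_bb]

theorem star_coef {K : Set G} (x : EllTwo G →L[ℂ] EllTwo G) (hx : x ∈ NK β K) (h : G) :
    ⟪bbG G h, (star x) Om⟫_ℂ = sg (β.b h h) * conj (⟪bbG G h⁻¹, x Om⟫_ℂ) := by
  rw [ContinuousLinearMap.star_eq_adjoint, ContinuousLinearMap.adjoint_inner_right,
    ← inner_conj_symm, apply_bb β x hx, Om, coef_bbG, Ro_apply, one_mul, coef_bbG,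
    map_mul, conj_sg, β.inv_left, sg_neg]

/-- the canonical trace -/
noncomputable def trK (K : Set G) : (NK β K).toStarSubalgebra →ₗ[ℂ] ℂ where
  toFun x := ⟪Om, (x : EllTwo G →L[ℂ] EllTwo G) Om⟫_ℂ
  map_add' x y := by
    show ⟪Om, (x : EllTwo G →L[ℂ] EllTwo G) Om + (y : EllTwo G →L[ℂ] EllTwo G) Om⟫_ℂ = _
    rw [inner_add_right]
  map_smul' c x := by
    show ⟪Om, c • (x : EllTwo G →L[ℂ] EllTwo G) Om⟫_ℂ = _
    rw [inner_smul_right]
    rfl

theorem trK_apply {K : Set G} (x : (NK β K).toStarSubalgebra) :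
    trK β K x = ⟪Om, (x : EllTwo G →L[ℂ] EllTwo G) Om⟫_ℂ := rfl

theorem tr_mul {K : Set G} (x y : EllTwo G →L[ℂ] EllTwo G) (hx : x ∈ NK β K) :
    HasSum (fun h => sg (β.b h h) * (⟪bbG G h⁻¹, x Om⟫_ℂ * ⟪bbG G h, y Om⟫_ℂ))
      (⟪Om, (x * y) Om⟫_ℂ) := by
  have h1 : ⟪Om, (x * y) Om⟫_ℂ = ⟪(star x) Om, y Om⟫_ℂ := by
    rw [ContinuousLinearMap.star_eq_adjoint, ContinuousLinearMap.adjoint_inner_left]
    rfl
  rw [h1]
  refine ((bbG G).hasSum_inner_mul_inner ((star x) Om) (y Om)).congr_fun ?_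
  intro h
  rw [← inner_conj_symm ((star x) Om) (bbG G h),
    star_coef β x hx, map_mul, conj_sg, Complex.conj_conj, mul_assoc]

theorem tr_comm {K : Set G} (x y : EllTwo G →L[ℂ] EllTwo G) (hx : x ∈ NK β K) (hy : y ∈ NK β K) :
    ⟪Om, (x * y) Om⟫_ℂ = ⟪Om, (y * x) Om⟫_ℂ := by
  have h1 := tr_mul β y x hy
  have h2 := ((Equiv.inv G).hasSum_iff (f := fun h => sg (β.b h h) *
      (⟪bbG G h⁻¹, y Om⟫_ℂ * ⟪bbG G h, x Om⟫_ℂ)) (a := ⟪Om, (y * x) Om⟫_ℂ)).2 h1
  refine (tr_mul β x y hx).unique (h2.congr_fun ?_)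
  intro h
  show _ = sg (β.b h⁻¹ h⁻¹) * (⟪bbG G h⁻¹⁻¹, y Om⟫_ℂ * ⟪bbG G h⁻¹, x Om⟫_ℂ)
  have h3 : β.b h⁻¹ h⁻¹ = β.b h h := by rw [β.inv_left, β.inv_right, neg_neg]
  rw [h3, inv_inv, mul_comm (⟪bbG G h, y Om⟫_ℂ)]

theorem inner_star_mul (x : EllTwo G →L[ℂ] EllTwo G) :
    ⟪Om, (star x * x) Om⟫_ℂ = ⟪x Om, x Om⟫_ℂ := by
  rw [← ContinuousLinearMap.adjoint_inner_right, ← ContinuousLinearMap.star_eq_adjoint]
  rfl

theorem inner_Om : ⟪(Om : EllTwo G), Om⟫_ℂ = 1 := inner_bb_self (bbG G) 1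

/-- The twisted group von Neumann algebra of `K`, acting on `ℓ²(G)`. -/
noncomputable def TK (K : Set G) : TVN where
  H := EllTwo G
  N := NK β K
  τ := trK β K
  map_one := inner_Om
  tracial x y := tr_comm β _ _ x.2 y.2
  faithful := by
    intro x hx
    have hx' : ⟪Om, (star (x : EllTwo G →L[ℂ] EllTwo G) * (x : EllTwo G →L[ℂ] EllTwo G)) Om⟫_ℂ
      = 0 := hx
    rw [inner_star_mul, inner_self_eq_zero] at hx'
    apply Subtype.ext
    apply ext_basis (bbG G)
    intro w
    rw [apply_bb β _ x.2, hx', map_zero]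
    rfl
  normal := by
    refine ⟨fun k => if k = 0 then Om else 0, ?_, ?_⟩
    · refine summable_of_ne_finset_zero (s := {0}) ?_
      intro k hk
      have : k ≠ 0 := by simpa using hk
      simp [this]
    · intro x
      rw [tsum_eq_single 0]
      · simp [trK_apply]
      · intro k hk
        simp [hk]

/-- the operator -/
noncomputable def opK {K : Set G} (x : (TK β K).E) : EllTwo G →L[ℂ] EllTwo G := x.1

theorem opK_mem {K : Set G} (x : (TK β K).E) : opK β x ∈ NK β K := x.2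

theorem TK_norm2 {K : Set G} (x : (TK β K).E) :
    (TK β K).norm2 x = ‖opK β x Om‖ := by
  have h1 : (TK β K).τ (star x * x) = ⟪opK β x Om, opK β x Om⟫_ℂ :=
    inner_star_mul _
  unfold TVN.norm2
  rw [h1, inner_self_eq_norm_sq_to_K]
  norm_cast
  exact Real.sqrt_sq (norm_nonneg _)

/-- the canonical unitaries -/
noncomputable def LK {K : Set G} (v : G) (hv : v ∈ K) : (TK β K).E := ⟨Lo β v, Lo_mem β hv⟩

/-- density: the elements of the von Neumann algebra are approximated by linear combinations -/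
theorem dense_K (K : Subgroup G) (x : EllTwo G →L[ℂ] EllTwo G) (hx : x ∈ NK β (K : Set G))
    (ε : ℝ) (hε : 0 < ε) :
    ∃ y ∈ Submodule.span ℂ (Lo β '' (K : Set G)), ‖x Om - y Om‖ < ε := by
  set P : Submodule ℂ (EllTwo G →L[ℂ] EllTwo G) := Submodule.span ℂ (Lo β '' (K : Set G)) with hP
  let ev : (EllTwo G →L[ℂ] EllTwo G) →ₗ[ℂ] EllTwo G :=
    { toFun := fun y => y Om, map_add' := fun _ _ => rfl, map_smul' := fun _ _ => rfl }
  set V0 : Submodule ℂ (EllTwo G) := P.map ev with hV0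
  set V1 : Submodule ℂ (EllTwo G) := V0.topologicalClosure with hV1
  have hLV0 : ∀ v ∈ K, ∀ f ∈ V0, Lo β v f ∈ V0 := by
    rintro v hv _ ⟨y, hy, rfl⟩
    refine ⟨Lo β v * y, ?_, rfl⟩
    change y ∈ P at hy
    show Lo β v * y ∈ P
    clear_value V0 V1
    induction hy using Submodule.span_induction with
    | mem y hy =>
      obtain ⟨w, hw, rfl⟩ := hy
      rw [Lo_mul]
      exact Submodule.smul_mem _ _ (Submodule.subset_span ⟨v * w, K.mul_mem hv hw, rfl⟩)
    | zero => rw [mul_zero]; exact zero_mem _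
    | add a b _ _ ha hb => rw [mul_add]; exact add_mem ha hb
    | smul c a _ ha => rw [mul_smul_comm]; exact Submodule.smul_mem _ _ ha
  have hLV1 : ∀ v ∈ K, ∀ f ∈ V1, Lo β v f ∈ V1 := by
    intro v hv f hf
    have h1 : f ∈ closure (V0 : Set (EllTwo G)) := hf
    have h2 := map_mem_closure (Lo β v).continuous h1 (fun f hf => hLV0 v hv f hf)
    exact h2
  have : CompleteSpace V1 := (Submodule.isClosed_topologicalClosure V0).completeSpace_coe
  have hinv : ∀ v ∈ K, V1.starProjection * Lo β v = Lo β v * V1.starProjection := by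
    intro v hv
    have hstar : ∀ f ∈ V1, (star (Lo β v)) f ∈ V1 := by
      intro f hf
      rw [star_Lo]
      exact Submodule.smul_mem _ _ (hLV1 _ (K.inv_mem hv) f hf)
    ext1 f
    show V1.starProjection (Lo β v f) = Lo β v (V1.starProjection f)
    have h1 : Lo β v f = Lo β v (V1.starProjection f) + Lo β v (f - V1.starProjection f) := by
      rw [← map_add, add_sub_cancel]
    have h2 : Lo β v (V1.starProjection f) ∈ V1 :=
      hLV1 v hv _ (Submodule.starProjection_apply_mem V1 f)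
    have h3 : Lo β v (f - V1.starProjection f) ∈ V1ᗮ := by
      rw [Submodule.mem_orthogonal]
      intro g hg
      have h4 : ⟪g, Lo β v (f - V1.starProjection f)⟫_ℂ =
          ⟪(star (Lo β v)) g, f - V1.starProjection f⟫_ℂ := by
        rw [ContinuousLinearMap.star_eq_adjoint, ContinuousLinearMap.adjoint_inner_left]
      rw [h4]
      exact (Submodule.sub_starProjection_mem_orthogonal f) _ (hstar g hg)
    conv_lhs => rw [h1]
    rw [map_add, Submodule.starProjection_eq_self_iff.2 h2,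
      (Submodule.starProjection_apply_eq_zero_iff V1).2 h3, add_zero]
  have hc : V1.starProjection ∈ StarSubalgebra.centralizer ℂ (Lo β '' (K : Set G)) := by
    rw [mem_cK]
    intro v hv
    refine ⟨(hinv v hv).symm, ?_⟩
    rw [star_Lo, smul_mul_assoc, mul_smul_comm, hinv _ (K.inv_mem hv)]
  have h1 := ((mem_NK β x).1 hx _ hc).1
  have hO : (Om : EllTwo G) ∈ V1 := by
    refine Submodule.le_topologicalClosure V0 ⟨1, ?_, rfl⟩
    rw [← Lo_one β]
    exact Submodule.subset_span ⟨1, K.one_mem, rfl⟩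
  have h2 : x Om ∈ V1 := by
    have h3 := congrArg (fun z : EllTwo G →L[ℂ] EllTwo G => z Om) h1
    have h4 : V1.starProjection (x Om) = x (V1.starProjection Om) := h3
    rw [Submodule.starProjection_eq_self_iff.2 hO] at h4
    exact Submodule.starProjection_eq_self_iff.1 h4
  have h3 : x Om ∈ closure (V0 : Set (EllTwo G)) := h2
  obtain ⟨f, hf, hd⟩ := Metric.mem_closure_iff.1 h3 ε hε
  obtain ⟨y, hy, rfl⟩ := hf
  refine ⟨y, hy, ?_⟩
  rw [← dist_eq_norm]
  exact hd

/-- the standard basis is countable -/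
theorem sep_l2 (G : Type) [Countable G] : TopologicalSpace.SeparableSpace (EllTwo G) := by
  have h1 : TopologicalSpace.IsSeparable (Set.range (bbG G)) :=
    (Set.countable_range _).isSeparable
  have h2 : TopologicalSpace.IsSeparable
      ((Submodule.span ℂ (Set.range (bbG G))).topologicalClosure : Set (EllTwo G)) :=
    (h1.span (R := ℂ)).closure
  rw [(bbG G).dense_span] at h2
  exact TopologicalSpace.isSeparable_univ_iff.1 h2

theorem TK_sep [Countable G] (K : Set G) : (TK β K).IsSeparable := by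
  have hs := sep_l2 G
  have h1 : TopologicalSpace.IsSeparable
      (Set.range fun x : (TK β K).E => opK β x Om) :=
    (TopologicalSpace.isSeparable_univ_iff.2 hs).mono (Set.subset_univ _)
  obtain ⟨t, ht1, ht2, ht3⟩ := h1.exists_countable_dense_subset
  choose F hF using fun y : t => ht1 y.2
  have : Countable t := ht2.to_subtype
  refine ⟨Set.range F, Set.countable_range _, fun x ε hε => ?_⟩
  have hx : opK β x Om ∈ closure t := ht3 ⟨x, rfl⟩
  obtain ⟨y, hy, hxy⟩ := Metric.mem_closure_iff.1 hx ε hε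
  refine ⟨F ⟨y, hy⟩, ⟨_, rfl⟩, ?_⟩
  rw [TK_norm2]
  have e : opK β (x - F ⟨y, hy⟩) Om = opK β x Om - opK β (F ⟨y, hy⟩) Om := rfl
  have h2 : opK β (F ⟨y, hy⟩) Om = y := hF ⟨y, hy⟩
  rw [e, h2, ← dist_eq_norm]
  exact hxy

theorem tr_LK {K : Set G} (v : G) (hv : v ∈ K) [Decidable (v = 1)] :
    (TK β K).τ (LK β v hv) = if v = 1 then 1 else 0 := by
  classical
  show ⟪(Om : EllTwo G), Lo β v Om⟫_ℂ = _
  rw [Lo_bb]
  unfold Om
  rw [coef_bbG, bbG_apply]
  by_cases h : v = 1
  · rw [if_pos h.symm, if_pos h]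
  · rw [if_neg (Ne.symm h), if_neg h]

theorem LK_mul {K : Set G} (v w : G) (hv : v ∈ K) (hw : w ∈ K) (hvw : v * w ∈ K) :
    LK β v hv * LK β w hw = sg (β.b v w) • LK β (v * w) hvw :=
  Subtype.ext (Lo_mul β v w)

theorem LK_one {K : Set G} (h : (1 : G) ∈ K) : LK β 1 h = 1 := Subtype.ext (Lo_one β)

theorem star_LK {K : Set G} (v : G) (hv : v ∈ K) (hv' : v⁻¹ ∈ K) :
    star (LK β v hv) = sg (β.b v v) • LK β v⁻¹ hv' := Subtype.ext (star_Lo β v)

/-- the value of a central element on the vacuum -/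
theorem central_coef (z : EllTwo G →L[ℂ] EllTwo G) (hz : z ∈ NK β (Set.univ : Set G))
    (hc : ∀ g, z * Lo β g = Lo β g * z) (g k : G) :
    sg (β.b (g * k * g⁻¹) g) * (z Om) (g * k * g⁻¹) = sg (β.b g k) * (z Om) k := by
  have h1 := congrArg (fun y : EllTwo G →L[ℂ] EllTwo G => y Om) (hc g)
  have h2 : z (Lo β g Om) = Lo β g (z Om) := h1
  rw [Lo_bb, apply_bb β z hz] at h2
  have h3 := congrArg (fun f : EllTwo G => f (g * k)) h2
  have h4 : (Ro β g (z Om)) (g * k) = (Lo β g (z Om)) (g * k) := h3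
  rw [Ro_apply, Lo_apply, inv_mul_cancel_left] at h4
  exact h4

theorem TK_factor [Infinite G] (hG : ∀ k : G, k ≠ 1 →
      (Set.range fun g : G => g * k * g⁻¹).Infinite ∨ ∃ g, g * k * g⁻¹ = k ∧ β.b k g ≠ β.b g k) :
    (TK β (Set.univ : Set G)).IsIIOneFactor := by
  classical
  constructor
  · intro z hz
    have hzN : opK β z ∈ NK β (Set.univ : Set G) := z.2
    have hc : ∀ g, opK β z * Lo β g = Lo β g * opK β z := fun g =>
      congrArg Subtype.val (hz (LK β g (Set.mem_univ g)))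
    set f : EllTwo G := opK β z Om with hf
    have hcc := fun g k => central_coef β (opK β z) hzN hc g k
    have hsup : ∀ k, k ≠ 1 → f k = 0 := by
      intro k hk
      by_contra hne
      rcases hG k hk with hinf | ⟨g, hg, hb⟩
      · apply hinf
        have h1 := (lp.memℓp f).summable (by norm_num)
        have h2 := h1.tendsto_cofinite_zero
        have hpos : 0 < ‖f k‖ ^ (2 : ENNReal).toReal := by
          refine Real.rpow_pos_of_pos (norm_pos_iff.2 hne) _
        have h3 := (tendsto_order.1 h2).2 _ hpos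
        rw [Filter.eventually_cofinite] at h3
        refine h3.subset ?_
        rintro _ ⟨g, rfl⟩
        have h4 := congrArg norm (hcc g k)
        rw [norm_mul, norm_mul, norm_sg, norm_sg, one_mul, one_mul] at h4
        show ¬ ‖f (g * k * g⁻¹)‖ ^ (2 : ENNReal).toReal < ‖f k‖ ^ (2 : ENNReal).toReal
        rw [h4]
        exact lt_irrefl _
      · have h4 := hcc g k
        rw [hg] at h4
        have h5 : sg (β.b k g) = sg (β.b g k) := mul_right_cancel₀ hne h4
        have h6 : ∀ a b : ZMod 2, a ≠ b → sg a ≠ sg b := by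
          intro a b hab
          have : ∀ a b : ZMod 2, a ≠ b → (a = 0 ∧ b ≠ 0) ∨ (a ≠ 0 ∧ b = 0) := by decide
          rcases this a b hab with ⟨h1, h2⟩ | ⟨h1, h2⟩
          · unfold sg; rw [if_pos h1, if_neg h2]; norm_num
          · unfold sg; rw [if_neg h1, if_pos h2]; norm_num
        exact h6 _ _ hb h5
    refine ⟨f 1, ?_⟩
    have hfO : f = f 1 • Om := by
      ext h
      show f h = f 1 * (Om : EllTwo G) h
      unfold Om
      rw [bbG_apply]
      by_cases hh : h = 1
      · rw [if_pos hh, hh, mul_one]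
      · rw [if_neg hh, mul_zero, hsup h hh]
    apply Subtype.ext
    apply ext_basis (bbG G)
    intro w
    have h1 := apply_bb β (opK β z) hzN w
    rw [← hf, hfO, map_smul, Ro_bb] at h1
    exact h1
  · intro hfin
    have hON : ∀ g h : G, (TK β (Set.univ : Set G)).τ
        (star (LK β g (Set.mem_univ g)) * LK β h (Set.mem_univ h)) = if g = h then 1 else 0 := by
      intro g h
      rw [star_LK β g (Set.mem_univ _) (Set.mem_univ _), smul_mul_assoc,
        LK_mul β _ _ _ _ (Set.mem_univ _), smul_smul, map_smul, tr_LK]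
      by_cases hgh : g = h
      · subst hgh
        rw [if_pos (inv_mul_cancel g), if_pos rfl, β.inv_left, sg_neg, sg_mul_self, smul_eq_mul,
          mul_one]
      · rw [if_neg (fun h1 => hgh (inv_mul_eq_one.1 h1)), if_neg hgh, smul_zero]
    have hli : LinearIndependent ℂ (fun g : G => LK β g (Set.mem_univ g)) := by
      rw [linearIndependent_iff']
      intro s c hc i hi
      have h1 : (TK β (Set.univ : Set G)).τ (star (LK β i (Set.mem_univ i)) *
          ∑ k ∈ s, c k • LK β k (Set.mem_univ k)) = c i := by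
        rw [Finset.mul_sum, map_sum, Finset.sum_eq_single i]
        · rw [mul_smul_comm, map_smul, hON i i, if_pos rfl, smul_eq_mul, mul_one]
        · intro k _ hk
          rw [mul_smul_comm, map_smul, hON i k, if_neg (Ne.symm hk), smul_zero]
        · intro h; exact absurd hi h
      rw [hc, mul_zero, map_zero] at h1
      exact h1.symm
    have := hli.finite
    exact not_finite G

end

end Pool.Agent.W403.EP
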